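import Mathlib

/-!
# A polynomial which is affine along many lines

`lag_coeff`: the coefficients of a polynomial from its values at separated points. `flat_alg`: let `g`
be a polynomial in `(t, u)` of degree at most `D`; if the coefficients of `t ^ n`, `2 ≤ n`, of
`g (t, a + v t)` are the same for `D + 1` lines with separated slopes `v`, up to `δ`, then the
coefficients of `t ^ i u ^ j`, `1 ≤ j`, `2 ≤ i + j`, are small: the derivative of `g` in `u` is
nearly constant.
-/

set_option autoImplicit false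

namespace Pool.FLT

open Finset Polynomial

/-! ### Interpolation -/

theorem coeff_prod_le {ι : Type} [DecidableEq ι] (S : Finset ι) (v : ι → ℝ)
    (hv : ∀ i ∈ S, |v i| ≤ 1) (n : ℕ) :
    |(∏ i ∈ S, (X - C (v i))).coeff n| ≤ 2 ^ S.card := by
  induction S using Finset.induction_on generalizing n with
  | empty =>
    rw [Finset.prod_empty, coeff_one, Finset.card_empty, pow_zero]
    split_ifs <;> simp
  | insert i S hi ih =>
    have ih' := ih fun j hj => hv j (Finset.mem_insert_of_mem hj)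
    have hvi := hv i (Finset.mem_insert_self i S)
    rw [Finset.prod_insert hi, Finset.card_insert_of_notMem hi, pow_succ, sub_mul, coeff_sub,
      coeff_C_mul]
    have h1 : |(X * ∏ i ∈ S, (X - C (v i))).coeff n| ≤ 2 ^ S.card := by
      rcases n with _ | n
      · rw [coeff_X_mul_zero, abs_zero]
        positivity
      · rw [coeff_X_mul]
        exact ih' n
    have h2 : |v i * (∏ i ∈ S, (X - C (v i))).coeff n| ≤ 2 ^ S.card := by
      rw [abs_mul]
      calc |v i| * |(∏ i ∈ S, (X - C (v i))).coeff n| ≤ 1 * 2 ^ S.card :=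
            mul_le_mul hvi (ih' n) (abs_nonneg _) zero_le_one
        _ = 2 ^ S.card := one_mul _
    calc _ ≤ |(X * ∏ i ∈ S, (X - C (v i))).coeff n| +
          |v i * (∏ i ∈ S, (X - C (v i))).coeff n| := abs_sub _ _
      _ ≤ 2 ^ S.card * 2 := by linarith

theorem coeff_basis_le {D : ℕ} (v : Fin (D + 1) → ℝ) {s : ℝ} (hs : 0 < s)
    (hv : ∀ i, |v i| ≤ 1) (hsep : ∀ i j, i ≠ j → s ≤ |v i - v j|) (i : Fin (D + 1)) (n : ℕ) :
    |(Lagrange.basis Finset.univ v i).coeff n| ≤ 2 ^ D / s ^ D := by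
  classical
  have hcard : (Finset.univ.erase i : Finset (Fin (D + 1))).card = D := by
    rw [Finset.card_erase_of_mem (Finset.mem_univ i), Finset.card_univ, Fintype.card_fin]
    rfl
  have h1 : Lagrange.basis Finset.univ v i = C (∏ j ∈ Finset.univ.erase i, (v i - v j)⁻¹) *
      ∏ j ∈ Finset.univ.erase i, (X - C (v j)) := by
    unfold Lagrange.basis Lagrange.basisDivisor
    rw [Finset.prod_mul_distrib, map_prod]
  rw [h1, coeff_C_mul, abs_mul, Finset.abs_prod]
  have h2 : ∏ j ∈ Finset.univ.erase i, |(v i - v j)⁻¹| ≤ (1 / s) ^ D := by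
    calc ∏ j ∈ Finset.univ.erase i, |(v i - v j)⁻¹| ≤ ∏ _j ∈ Finset.univ.erase i, (1 / s) := by
          refine Finset.prod_le_prod (fun _ _ => abs_nonneg _) fun j hj => ?_
          rw [abs_inv, one_div]
          exact inv_anti₀ hs (hsep i j (Finset.ne_of_mem_erase hj).symm)
      _ = (1 / s) ^ D := by rw [Finset.prod_const, hcard]
  have h3 := coeff_prod_le (Finset.univ.erase i) v (fun j _ => hv j) n
  rw [hcard] at h3
  calc _ ≤ (1 / s) ^ D * 2 ^ D := mul_le_mul h2 h3 (abs_nonneg _) (by positivity)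
    _ = 2 ^ D / s ^ D := by
      rw [one_div, inv_pow]
      ring

/-- **The coefficients of a polynomial** from its values at separated points. -/
theorem lag_coeff {D : ℕ} (v : Fin (D + 1) → ℝ) {s ε : ℝ} (hs : 0 < s)
    (hv : ∀ i, |v i| ≤ 1) (hsep : ∀ i j, i ≠ j → s ≤ |v i - v j|) (q : ℝ[X])
    (hq : q.natDegree ≤ D) (hε : ∀ i, |q.eval (v i)| ≤ ε) (n : ℕ) :
    |q.coeff n| ≤ (D + 1) * (2 ^ D / s ^ D) * ε := by
  classical
  have hinj : Set.InjOn v (Finset.univ : Finset (Fin (D + 1))) := by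
    intro i _ j _ hij
    by_contra hne
    have h1 := hsep i j hne
    rw [hij, sub_self, abs_zero] at h1
    linarith
  have h1 : q = Lagrange.interpolate Finset.univ v fun i => q.eval (v i) := by
    refine Lagrange.eq_interpolate hinj ?_
    rw [Finset.card_univ, Fintype.card_fin]
    refine lt_of_le_of_lt degree_le_natDegree ?_
    exact_mod_cast Nat.lt_succ_of_le hq
  have h2 : q.coeff n = ∑ i, q.eval (v i) * (Lagrange.basis Finset.univ v i).coeff n := by
    conv_lhs => rw [h1, Lagrange.interpolate_apply, finsetSum_coeff]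
    exact Finset.sum_congr rfl fun i _ => coeff_C_mul _
  rw [h2]
  refine (Finset.abs_sum_le_sum_abs _ _).trans ?_
  have h3 : ∀ i ∈ (Finset.univ : Finset (Fin (D + 1))),
      |q.eval (v i) * (Lagrange.basis Finset.univ v i).coeff n| ≤ ε * (2 ^ D / s ^ D) := by
    intro i _
    rw [abs_mul]
    exact mul_le_mul (hε i) (coeff_basis_le v hs hv hsep i n) (abs_nonneg _)
      ((abs_nonneg _).trans (hε i))
  refine (Finset.sum_le_sum h3).trans (le_of_eq ?_)
  rw [Finset.sum_const, Finset.card_univ, Fintype.card_fin, nsmul_eq_mul]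
  push_cast
  ring

/-! ### The substitution of a line -/

/-- The powers of an affine polynomial. -/
noncomputable def lw (a v : ℝ) (j : ℕ) : ℝ[X] := (C a + C v * X) ^ j

theorem lw_zero (a v : ℝ) : lw a v 0 = 1 := pow_zero _

theorem lw_succ (a v : ℝ) (j : ℕ) : lw a v (j + 1) = C a * lw a v j + C v * (X * lw a v j) := by
  unfold lw
  rw [pow_succ]
  ring

theorem lw_gt (a v : ℝ) (j : ℕ) : ∀ k, j < k → (lw a v j).coeff k = 0 := by
  induction j with
  | zero =>
    intro k hk
    rw [lw_zero, coeff_one, if_neg (by omega)]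
  | succ j ih =>
    intro k hk
    obtain ⟨k, rfl⟩ : ∃ l, k = l + 1 := ⟨k - 1, by omega⟩
    rw [lw_succ, coeff_add, coeff_C_mul, coeff_C_mul, coeff_X_mul, ih _ (by omega), ih _ (by omega)]
    ring

theorem lw_top (a v : ℝ) (j : ℕ) : (lw a v j).coeff j = v ^ j := by
  induction j with
  | zero => rw [lw_zero, coeff_one, if_pos rfl, pow_zero]
  | succ j ih =>
    rw [lw_succ, coeff_add, coeff_C_mul, coeff_C_mul, coeff_X_mul, lw_gt a v j _ (by omega), ih,
      pow_succ]
    ring

theorem lw_le {a v : ℝ} (ha : |a| ≤ 1) (hv : |v| ≤ 1) (j : ℕ) : ∀ k, |(lw a v j).coeff k| ≤ 2 ^ j := by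
  induction j with
  | zero =>
    intro k
    rw [lw_zero, coeff_one]
    split_ifs <;> simp
  | succ j ih =>
    intro k
    rw [lw_succ, coeff_add, coeff_C_mul, coeff_C_mul, pow_succ]
    have h1 : |a * (lw a v j).coeff k| ≤ 2 ^ j := by
      rw [abs_mul]
      calc |a| * |(lw a v j).coeff k| ≤ 1 * 2 ^ j := mul_le_mul ha (ih k) (abs_nonneg _) zero_le_one
        _ = 2 ^ j := one_mul _
    have h2 : |v * (X * lw a v j).coeff k| ≤ 2 ^ j := by
      rw [abs_mul]
      have h3 : |(X * lw a v j).coeff k| ≤ 2 ^ j := by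
        rcases k with _ | k
        · rw [coeff_X_mul_zero, abs_zero]
          positivity
        · rw [coeff_X_mul]
          exact ih k
      calc |v| * |(X * lw a v j).coeff k| ≤ 1 * 2 ^ j := mul_le_mul hv h3 (abs_nonneg _) zero_le_one
        _ = 2 ^ j := one_mul _
    exact (abs_add_le _ _).trans (by linarith)

/-- The polynomial along the line `u = a + v t`. -/
noncomputable def lnp (g : MvPolynomial (Fin 2) ℝ) (a v : ℝ) : ℝ[X] :=
  MvPolynomial.aeval ![X, C a + C v * X] g

theorem lnp_eq (g : MvPolynomial (Fin 2) ℝ) (a v : ℝ) :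
    lnp g a v = ∑ d ∈ g.support, C (g.coeff d) * (X ^ (d 0) * lw a v (d 1)) := by
  unfold lnp lw
  rw [MvPolynomial.aeval_def, MvPolynomial.eval₂_eq']
  refine Finset.sum_congr rfl fun d _ => ?_
  rw [Fin.prod_univ_two]
  rfl

theorem lnp_eval (g : MvPolynomial (Fin 2) ℝ) (a v t : ℝ) :
    (lnp g a v).eval t = MvPolynomial.eval ![t, a + v * t] g := by
  rw [lnp_eq, MvPolynomial.eval_eq', eval_finsetSum]
  refine Finset.sum_congr rfl fun d _ => ?_
  rw [Fin.prod_univ_two]
  unfold lw
  simp only [eval_mul, eval_C, eval_pow, eval_X, eval_add, Matrix.cons_val_zero,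
    Matrix.cons_val_one]

theorem lnp_coeff (g : MvPolynomial (Fin 2) ℝ) (a v : ℝ) (n : ℕ) :
    (lnp g a v).coeff n = ∑ d ∈ g.support,
      g.coeff d * (if d 0 ≤ n then (lw a v (d 1)).coeff (n - d 0) else 0) := by
  rw [lnp_eq, finsetSum_coeff]
  refine Finset.sum_congr rfl fun d _ => ?_
  rw [coeff_C_mul, coeff_X_pow_mul']

/-- The homogeneous part of total degree `n`, as a polynomial of the slope. -/
noncomputable def hp (g : MvPolynomial (Fin 2) ℝ) (n : ℕ) : ℝ[X] :=
  ∑ d ∈ g.support with d 0 + d 1 = n, C (g.coeff d) * X ^ (d 1)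

theorem hp_deg {g : MvPolynomial (Fin 2) ℝ} {n : ℕ} : (hp g n).natDegree ≤ n := by
  unfold hp
  refine natDegree_sum_le_of_forall_le _ _ fun d hd => ?_
  rw [Finset.mem_filter] at hd
  exact (natDegree_C_mul_X_pow_le _ _).trans (by omega)

theorem hp_coeff {g : MvPolynomial (Fin 2) ℝ} {n : ℕ} {d : Fin 2 →₀ ℕ} (hd : d 0 + d 1 = n) :
    (hp g n).coeff (d 1) = g.coeff d := by
  classical
  unfold hp
  rw [finsetSum_coeff]
  have h1 : ∀ e ∈ g.support.filter (fun e => e 0 + e 1 = n),
      (C (g.coeff e) * X ^ (e 1) : ℝ[X]).coeff (d 1) = if e = d then g.coeff d else 0 := by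
    intro e he
    rw [Finset.mem_filter] at he
    rw [coeff_C_mul, coeff_X_pow]
    by_cases h : d 1 = e 1
    · have h2 : e = d := by
        ext i
        fin_cases i
        · show e 0 = d 0
          omega
        · exact h.symm
      rw [if_pos h, if_pos h2, h2, mul_one]
    · rw [if_neg h, if_neg (fun h2 => h (by rw [h2])), mul_zero]
  rw [Finset.sum_congr rfl h1, Finset.sum_ite_eq']
  split_ifs with h
  · rfl
  · rw [Finset.mem_filter, not_and_or] at h
    rcases h with h | h
    · exact (MvPolynomial.notMem_support_iff.1 h).symm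
    · exact absurd hd h

/-- The number of monomials. -/
theorem card_supp {g : MvPolynomial (Fin 2) ℝ} {D : ℕ} (hg : g.totalDegree ≤ D) :
    g.support.card ≤ (D + 1) ^ 2 := by
  classical
  have h1 : (Fintype.piFinset fun _ : Fin 2 => range (D + 1)).card = (D + 1) ^ 2 := by
    rw [Fintype.card_piFinset]
    simp
  rw [← h1]
  refine Finset.card_le_card_of_injOn (fun e => (e : Fin 2 → ℕ)) ?_ ?_
  · intro e he
    rw [Finset.mem_coe, Fintype.mem_piFinset]
    intro i
    rw [Finset.mem_range, Nat.lt_succ_iff]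
    have h2 : (e.sum fun _ x => x) ≤ g.totalDegree := MvPolynomial.le_totalDegree he
    have h3 : e i ≤ e.sum fun _ x => x := by
      by_cases hi : e i = 0
      · rw [hi]
        exact Nat.zero_le _
      · exact Finset.single_le_sum (f := fun l => e l) (fun _ _ => Nat.zero_le _)
          (Finsupp.mem_support_iff.2 hi)
    exact h3.trans (h2.trans hg)
  · exact DFunLike.coe_injective.injOn

theorem deg_two {g : MvPolynomial (Fin 2) ℝ} {D : ℕ} (hg : g.totalDegree ≤ D) {d : Fin 2 →₀ ℕ}
    (hd : d ∈ g.support) : d 0 + d 1 ≤ D := by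
  have h1 : (d.sum fun _ x => x) ≤ g.totalDegree := MvPolynomial.le_totalDegree hd
  have h2 : (d.sum fun _ x => x) = d 0 + d 1 := by
    rw [Finsupp.sum_fintype _ _ fun _ => rfl, Fin.sum_univ_two]
  omega

/-- One step: the part of total degree `n`. -/
theorem flat_step {D n : ℕ} {g : MvPolynomial (Fin 2) ℝ} (hg : g.totalDegree ≤ D)
    {a v : Fin (D + 1) → ℝ} {s δ ε : ℝ} (hs : 0 < s) (ha : ∀ k, |a k| ≤ 1)
    (hv : ∀ k, |v k| ≤ 1) (hsep : ∀ k l, k ≠ l → s ≤ |v k - v l|) (hε : 0 ≤ ε) (hnD : n ≤ D)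
    {c : ℝ} (hc : ∀ k, |(lnp g (a k) (v k)).coeff n - c| ≤ δ)
    (hbig : ∀ d : Fin 2 →₀ ℕ, n < d 0 + d 1 → 1 ≤ d 1 → |g.coeff d| ≤ ε)
    {d : Fin 2 →₀ ℕ} (hd : d 0 + d 1 = n) (hd1 : 1 ≤ d 1) :
    |g.coeff d| ≤ (D + 1) * (2 ^ D / s ^ D) * (δ + (D + 1) ^ 2 * (ε * 2 ^ D)) := by
  classical
  have key : ∀ k, |(hp g n - C c).eval (v k)| ≤ δ + (D + 1) ^ 2 * (ε * 2 ^ D) := by
    intro k
    have h1 : (lnp g (a k) (v k)).coeff n = (hp g n).eval (v k) +
        ∑ e ∈ g.support with n < e 0 + e 1,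
          g.coeff e * (if e 0 ≤ n then (lw (a k) (v k) (e 1)).coeff (n - e 0) else 0) := by
      rw [lnp_coeff]
      unfold hp
      rw [eval_finsetSum, ← Finset.sum_filter_add_sum_filter_not g.support
        (fun e : Fin 2 →₀ ℕ => n < e 0 + e 1), add_comm]
      congr 1
      rw [← Finset.sum_filter_add_sum_filter_not (g.support.filter
        fun e : Fin 2 →₀ ℕ => ¬ n < e 0 + e 1) (fun e : Fin 2 →₀ ℕ => e 0 + e 1 = n)]
      have h2 : ∑ e ∈ (g.support.filter fun e : Fin 2 →₀ ℕ => ¬ n < e 0 + e 1) with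
          ¬ e 0 + e 1 = n, g.coeff e *
            (if e 0 ≤ n then (lw (a k) (v k) (e 1)).coeff (n - e 0) else 0) = 0 := by
        refine Finset.sum_eq_zero fun e he => ?_
        rw [Finset.mem_filter, Finset.mem_filter] at he
        rw [if_pos (by omega), lw_gt _ _ _ _ (by omega), mul_zero]
      rw [h2, add_zero]
      have h3 : (g.support.filter fun e : Fin 2 →₀ ℕ => ¬ n < e 0 + e 1).filter
          (fun e : Fin 2 →₀ ℕ => e 0 + e 1 = n) =
          g.support.filter fun e : Fin 2 →₀ ℕ => e 0 + e 1 = n := by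
        ext e
        simp only [Finset.mem_filter]
        constructor
        · rintro ⟨⟨h4, -⟩, h5⟩
          exact ⟨h4, h5⟩
        · rintro ⟨h4, h5⟩
          exact ⟨⟨h4, by omega⟩, h5⟩
      rw [h3]
      refine Finset.sum_congr rfl fun e he => ?_
      rw [Finset.mem_filter] at he
      rw [if_pos (by omega), show n - e 0 = e 1 by omega, lw_top, eval_mul, eval_C, eval_pow,
        eval_X]
    have h2 : |∑ e ∈ g.support with n < e 0 + e 1,
        g.coeff e * (if e 0 ≤ n then (lw (a k) (v k) (e 1)).coeff (n - e 0) else 0)| ≤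
          (D + 1) ^ 2 * (ε * 2 ^ D) := by
      refine (Finset.abs_sum_le_sum_abs _ _).trans ?_
      have h3 : ∀ e ∈ g.support.filter (fun e : Fin 2 →₀ ℕ => n < e 0 + e 1),
          |g.coeff e * (if e 0 ≤ n then (lw (a k) (v k) (e 1)).coeff (n - e 0) else 0)| ≤
            ε * 2 ^ D := by
        intro e he
        rw [Finset.mem_filter] at he
        have h4 := deg_two hg he.1
        by_cases h5 : e 0 ≤ n
        · rw [if_pos h5, abs_mul]
          have h6 := hbig e he.2 (by omega)
          have h7 : |(lw (a k) (v k) (e 1)).coeff (n - e 0)| ≤ 2 ^ D :=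
            (lw_le (ha k) (hv k) _ _).trans (pow_le_pow_right₀ one_le_two (by omega))
          exact mul_le_mul h6 h7 (abs_nonneg _) hε
        · rw [if_neg h5, mul_zero, abs_zero]
          positivity
      refine (Finset.sum_le_sum h3).trans ?_
      rw [Finset.sum_const, nsmul_eq_mul]
      refine mul_le_mul_of_nonneg_right ?_ (by positivity)
      have h4 : (g.support.filter (fun e : Fin 2 →₀ ℕ => n < e 0 + e 1)).card ≤ (D + 1) ^ 2 :=
        (Finset.card_filter_le _ _).trans (card_supp hg)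
      exact_mod_cast h4
    rw [eval_sub, eval_C]
    have h3 := hc k
    rw [h1] at h3
    have h4 : (hp g n).eval (v k) - c = ((hp g n).eval (v k) +
        ∑ e ∈ g.support with n < e 0 + e 1,
          g.coeff e * (if e 0 ≤ n then (lw (a k) (v k) (e 1)).coeff (n - e 0) else 0) - c) -
        ∑ e ∈ g.support with n < e 0 + e 1,
          g.coeff e * (if e 0 ≤ n then (lw (a k) (v k) (e 1)).coeff (n - e 0) else 0) := by ring
    rw [h4]
    exact (abs_sub _ _).trans (add_le_add h3 h2)
  have hdeg : (hp g n - C c).natDegree ≤ D := by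
    refine (natDegree_sub_le _ _).trans (max_le (hp_deg.trans hnD) ?_)
    rw [natDegree_C]
    exact Nat.zero_le _
  have h5 := lag_coeff v hs hv hsep (hp g n - C c) hdeg key (d 1)
  rwa [coeff_sub, coeff_C, if_neg (by omega), sub_zero, hp_coeff hd] at h5

/-- **A polynomial which is affine along many lines up to a common polynomial**: the derivative in
the second variable is nearly constant. -/
theorem flat_alg (D : ℕ) : ∃ B : ℝ, 1 ≤ B ∧ ∀ (g : MvPolynomial (Fin 2) ℝ)
    (a v : Fin (D + 1) → ℝ) (c : ℕ → ℝ) (s δ : ℝ), g.totalDegree ≤ D → 0 < s → s ≤ 1 → 0 ≤ δ →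
    (∀ k, |a k| ≤ 1) → (∀ k, |v k| ≤ 1) → (∀ k l, k ≠ l → s ≤ |v k - v l|) →
    (∀ k n, 2 ≤ n → n ≤ D → |(lnp g (a k) (v k)).coeff n - c n| ≤ δ) →
    ∀ d : Fin 2 →₀ ℕ, 2 ≤ d 0 + d 1 → 1 ≤ d 1 → |g.coeff d| ≤ B * δ / s ^ (D * D) := by
  classical
  obtain ⟨B, hB⟩ : ∃ B : ℝ, B = (D + 1) * 2 ^ D * (1 + (D + 1) ^ 2 * 2 ^ D) := ⟨_, rfl⟩
  have h2D : (1 : ℝ) ≤ 2 ^ D := one_le_pow₀ one_le_two
  have hB1 : 1 ≤ B := by
    rw [hB]
    have h3 : (1 : ℝ) ≤ (D + 1) * 2 ^ D := by
      have : (0 : ℝ) ≤ D := Nat.cast_nonneg D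
      nlinarith
    have h4 : (0 : ℝ) ≤ (D + 1) ^ 2 * 2 ^ D := by positivity
    nlinarith
  refine ⟨B ^ D, one_le_pow₀ hB1, ?_⟩
  intro g a v c s δ hg hs hs1 hδ ha hv hsep hc
  have key : ∀ j : ℕ, j ≤ D → ∀ d : Fin 2 →₀ ℕ, 2 ≤ d 0 + d 1 → D + 1 ≤ d 0 + d 1 + j → 1 ≤ d 1 →
      |g.coeff d| ≤ B ^ j * δ / s ^ (D * j) := by
    intro j
    induction j with
    | zero =>
      intro _ d _ hd _
      have h1 : g.coeff d = 0 := by
        by_contra hne
        have := deg_two hg (MvPolynomial.mem_support_iff.2 hne)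
        omega
      rw [h1, abs_zero]
      positivity
    | succ j ih =>
      intro hj d hd2 hd hd1
      have ih' := ih (by omega)
      rcases Nat.lt_or_ge D (d 0 + d 1 + j) with h1 | h1
      · refine (ih' d hd2 h1 hd1).trans ?_
        rw [div_le_div_iff₀ (by positivity) (by positivity)]
        have h3 : B ^ j * δ ≤ B ^ (j + 1) * δ :=
          mul_le_mul_of_nonneg_right (pow_le_pow_right₀ hB1 (by omega)) hδ
        have h4 : s ^ (D * (j + 1)) ≤ s ^ (D * j) :=
          pow_le_pow_of_le_one hs.le hs1 (Nat.mul_le_mul_left D (by omega))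
        exact mul_le_mul h3 h4 (by positivity) (by positivity)
      · have hn : d 0 + d 1 + j = D := by omega
        have h2 := flat_step hg hs ha hv hsep (ε := B ^ j * δ / s ^ (D * j)) (by positivity)
          (n := d 0 + d 1) (by omega) (fun k => hc k _ hd2 (by omega))
          (fun e he he1 => ih' e (by omega) (by omega) he1) rfl hd1
        refine h2.trans ?_
        have h3 : δ ≤ B ^ j * δ / s ^ (D * j) := by
          rw [le_div_iff₀ (by positivity)]
          have h4 : s ^ (D * j) ≤ 1 := pow_le_one₀ hs.le hs1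
          have h5 : (1 : ℝ) ≤ B ^ j := one_le_pow₀ hB1
          nlinarith
        calc (D + 1) * (2 ^ D / s ^ D) * (δ + (D + 1) ^ 2 * (B ^ j * δ / s ^ (D * j) * 2 ^ D))
            ≤ (D + 1) * (2 ^ D / s ^ D) * (B ^ j * δ / s ^ (D * j) +
              (D + 1) ^ 2 * (B ^ j * δ / s ^ (D * j) * 2 ^ D)) :=
              mul_le_mul_of_nonneg_left (by linarith) (by positivity)
          _ = B * (B ^ j * δ / s ^ (D * j)) / s ^ D := by
              rw [hB]
              ring
          _ = B ^ (j + 1) * δ / s ^ (D * (j + 1)) := by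
              rw [Nat.mul_succ, pow_add, pow_succ, mul_div_assoc', div_div]
              ring
  intro d hd2 hd1
  rcases Nat.eq_zero_or_pos D with h0 | h0
  · have h1 : g.coeff d = 0 := by
      by_contra hne
      have := deg_two hg (MvPolynomial.mem_support_iff.2 hne)
      omega
    rw [h1, abs_zero]
    positivity
  · exact key D le_rfl d hd2 (by omega) hd1

end Pool.FLT
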