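import Pool.Agent.H19.FLT.Law
import Pool.Agent.H91.LA.Jet
import Pool.Agent.H54.GN.Lb
import Pool.Agent.H91.LA.Nat

/-!
# The derivative of a label along the lines, from a context

`mix_le`: the jets of a polynomial with a bounded gradient at near points in near directions.
`flat_cx`: if a context knows the path over `I₀` well, the labels of `u` and the jets of a label over
`I₀` and `u`, and the velocity of `u` is alive given the context, then the derivative of the label
in `u` is nearly constant along the lines.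
-/

set_option autoImplicit false

namespace Pool.FLT

open Finset Real MvPolynomial
open Pool.Agent.H49.Ent Pool.Agent.H32.Dense Pool.STK Pool.KA Pool.KSAT Pool.K2S Pool.PB Pool.GEN
open Pool.LA91
open Pool.BFL (Pb)

variable {m : ℕ}

/-- **The mean value inequality** on a ball. -/
theorem ball_mv {G : MvPolynomial (Option (Fin m)) ℝ} {b x : Option (Fin m) → ℝ} {R E : ℝ}
    (hE : ∀ y : Option (Fin m) → ℝ, (∀ o, |y o - b o| ≤ R) → ∀ o, |eval y (pderiv o G)| ≤ E)
    (hx : ∀ o, |x o - b o| ≤ R) : |eval x G - eval b G| ≤ E * ∑ o, |x o - b o| := by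
  classical
  obtain ⟨q, hq⟩ : ∃ q : Polynomial ℝ, q = aeval (lp b (fun o => x o - b o)) G := ⟨_, rfl⟩
  have hev : ∀ t, q.eval t = eval (fun o => b o + t * (x o - b o)) G := by
    intro t
    rw [hq, eval_alp]
  have hd : ∀ t, q.derivative.eval t =
      ∑ o, eval (fun o => b o + t * (x o - b o)) (pderiv o G) * (x o - b o) := by
    intro t
    rw [hq, der_aevalσ, Polynomial.eval_finsetSum]
    refine Finset.sum_congr rfl fun o _ => ?_
    rw [Polynomial.eval_mul, eval_alp]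
    congr 1
    unfold Pool.LA91.lp
    simp
  have h1 := (convex_Icc (0 : ℝ) 1).norm_image_sub_le_of_norm_deriv_le (f := fun t => q.eval t)
    (C := E * ∑ o, |x o - b o|) (fun t _ => (Polynomial.differentiable q).differentiableAt)
    (fun t ht => by
      rw [Polynomial.deriv, Real.norm_eq_abs, hd]
      refine (Finset.abs_sum_le_sum_abs _ _).trans ?_
      rw [Finset.mul_sum]
      refine Finset.sum_le_sum fun o _ => ?_
      rw [abs_mul]
      refine mul_le_mul_of_nonneg_right (hE _ (fun o' => ?_) o) (abs_nonneg _)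
      have e1 : b o' + t * (x o' - b o') - b o' = t * (x o' - b o') := by ring
      rw [e1, abs_mul, abs_of_nonneg ht.1]
      have h2 := abs_nonneg (x o' - b o')
      calc t * |x o' - b o'| ≤ 1 * |x o' - b o'| := mul_le_mul_of_nonneg_right ht.2 h2
        _ ≤ R := by rw [one_mul]; exact hx o') (x := 0) (y := 1) ⟨le_rfl, zero_le_one⟩
    ⟨zero_le_one, le_rfl⟩
  simp only [Real.norm_eq_abs, sub_zero, abs_one, mul_one] at h1
  rw [hev, hev] at h1
  have e2 : (fun o => b o + 1 * (x o - b o)) = x := by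
    funext o
    ring
  have e3 : (fun o => b o + 0 * (x o - b o)) = b := by
    funext o
    ring
  rw [e2, e3] at h1
  exact h1

/-- **The jets of a polynomial with a bounded gradient** at near points in near directions. -/
theorem mix_le (m D : ℕ) : ∃ C : ℝ, 1 ≤ C ∧ ∀ (G : MvPolynomial (Option (Fin m)) ℝ)
    (b b' v v' : Option (Fin m) → ℝ) (r s σ E : ℝ), G.totalDegree ≤ D → 0 < r → 0 < s → 0 ≤ σ →
    s + r * σ ≤ r / 4 → (∀ x : Option (Fin m) → ℝ, (∀ o, |x o - b' o| ≤ r) → ∀ o,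
      |eval x (pderiv o G)| ≤ E) →
    (∀ o, |v' o| ≤ 1) → (∀ o, |b o - b' o| ≤ s) → (∀ o, |v o - v' o| ≤ σ) → ∀ j ≤ D + 1,
    r ^ j * |jet j G b v - jet j G b' v'| ≤ C * E * (s + r * σ) := by
  have hex : ∀ j, ∃ C : ℝ, 1 ≤ C ∧ ∀ (H : MvPolynomial (Option (Fin m)) ℝ)
    (b₀ b b' v v' : Option (Fin m) → ℝ) (r s σ B : ℝ), H.totalDegree ≤ D → 0 < r → 0 < s →
    0 ≤ σ → s + r * σ ≤ 2 * r →
    (∀ b, (∀ o, |b o - b₀ o| ≤ 4 * r) → |eval b H| ≤ B) → (∀ o, |b' o - b₀ o| ≤ r) →
    (∀ o, |v' o| ≤ 1) → (∀ o, |b o - b' o| ≤ s) → (∀ o, |v o - v' o| ≤ σ) →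
    |jet j H b v - jet j H b' v'| ≤ C * B * ((s + r * σ) / r) / r ^ j := fun j =>
    jet_sub_le m D j
  choose C hC H using hex
  refine ⟨∑ j ∈ range (D + 2), C j * 4 ^ (j + 1) * (m + 1), ?_, ?_⟩
  · have h1 : C 0 * 4 ^ (0 + 1) * ((m : ℝ) + 1) ≤
        ∑ j ∈ range (D + 2), C j * 4 ^ (j + 1) * ((m : ℝ) + 1) :=
      Finset.single_le_sum (f := fun j => C j * 4 ^ (j + 1) * ((m : ℝ) + 1))
        (fun j _ => by
          have := hC j
          positivity) (Finset.mem_range.2 (by omega))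
    have h2 := hC 0
    have h3 : (0 : ℝ) ≤ m := Nat.cast_nonneg m
    have h4 : (1 : ℝ) ≤ C 0 * 4 ^ (0 + 1) * ((m : ℝ) + 1) := by
      have e1 : (4 : ℝ) ^ (0 + 1) = 4 := by norm_num
      rw [e1]
      nlinarith
    exact h4.trans h1
  intro G b b' v v' r s σ E hG hr hs hσ hsr hE hv' hbb hvv j hj
  have hE0 : 0 ≤ E := (abs_nonneg _).trans (hE b' (fun o => by rw [sub_self, abs_zero]; exact hr.le)
    none)
  obtain ⟨H₀, hH₀⟩ : ∃ H₀ : MvPolynomial (Option (Fin m)) ℝ, H₀ = G - MvPolynomial.C (eval b' G) :=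
    ⟨_, rfl⟩
  have hH : H₀.totalDegree ≤ D := by
    rw [hH₀]
    refine (totalDegree_sub _ _).trans (max_le hG ?_)
    rw [totalDegree_C]
    exact Nat.zero_le _
  have hB : ∀ x : Option (Fin m) → ℝ, (∀ o, |x o - b' o| ≤ 4 * (r / 4)) →
      |eval x H₀| ≤ (m + 1) * r * E := by
    intro x hx
    have hx' : ∀ o, |x o - b' o| ≤ r := fun o => by
      have := hx o
      linarith
    rw [hH₀, map_sub, eval_C]
    refine (ball_mv hE hx').trans ?_
    have h1 : ∑ o, |x o - b' o| ≤ ∑ _o : Option (Fin m), r := Finset.sum_le_sum fun o _ => hx' o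
    rw [Finset.sum_const, Finset.card_univ, Fintype.card_option, Fintype.card_fin,
      nsmul_eq_mul] at h1
    push_cast at h1
    calc E * ∑ o, |x o - b' o| ≤ E * (((m : ℝ) + 1) * r) := mul_le_mul_of_nonneg_left h1 hE0
      _ = (m + 1) * r * E := by ring
  have h1 := H j H₀ b' b b' v v' (r / 4) s σ ((m + 1) * r * E) hH (by positivity) hs hσ
    (by nlinarith [mul_nonneg hr.le hσ]) hB
    (fun o => by rw [sub_self, abs_zero]; positivity) hv' hbb hvv
  have e1 : jet j H₀ b v - jet j H₀ b' v' = jet j G b v - jet j G b' v' := by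
    rw [hH₀, jet_sub, jet_sub]
    have e2 : jet j (MvPolynomial.C (eval b' G)) b v =
        jet j (MvPolynomial.C (eval b' G)) b' v' := by
      unfold jet
      rw [aeval_C, aeval_C]
    rw [e2]
    ring
  rw [e1] at h1
  have hrj : 0 < r ^ j := pow_pos hr j
  have hCj := hC j
  calc r ^ j * |jet j G b v - jet j G b' v'|
      ≤ r ^ j * (C j * ((m + 1) * r * E) * ((s + r / 4 * σ) / (r / 4)) / (r / 4) ^ j) :=
        mul_le_mul_of_nonneg_left h1 hrj.le
    _ = C j * 4 ^ (j + 1) * (m + 1) * E * (s + r / 4 * σ) := by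
        rw [div_pow]
        field_simp
        ring
    _ ≤ C j * 4 ^ (j + 1) * (m + 1) * E * (s + r * σ) := by
        refine mul_le_mul_of_nonneg_left ?_ (by positivity)
        have := mul_nonneg hr.le hσ
        linarith
    _ ≤ (∑ j ∈ range (D + 2), C j * 4 ^ (j + 1) * ((m : ℝ) + 1)) * E * (s + r * σ) := by
        refine mul_le_mul_of_nonneg_right (mul_le_mul_of_nonneg_right ?_ hE0) (by positivity)
        exact Finset.single_le_sum (f := fun j => C j * 4 ^ (j + 1) * ((m : ℝ) + 1))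
          (fun j _ => by
            have := hC j
            positivity) (Finset.mem_range.2 (by omega))

/-- **The jets of a polynomial with a bounded gradient in a tube**, at near lines. -/
theorem mix_win (m D : ℕ) : ∃ C : ℝ, 1 ≤ C ∧ ∀ (G : MvPolynomial (Option (Fin m)) ℝ)
    (b b' v v' : Option (Fin m) → ℝ) (r ρ η E : ℝ), G.totalDegree ≤ D → 0 < r → 0 ≤ ρ →
    (∀ t : ℝ, |t| ≤ r → ∀ x : Option (Fin m) → ℝ, (∀ o, |x o - (b' o + t * v' o)| ≤ ρ) → ∀ o,
      |eval x (pderiv o G)| ≤ E) → (∀ o, |b o - b' o| ≤ η) → (∀ o, r * |v o - v' o| ≤ η) →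
    2 * η ≤ ρ → ∀ j ≤ D + 1, r ^ j * |jet j G b v - jet j G b' v'| ≤ C * E * η := by
  have hex := fun j => markov_end D j
  choose C hC H using hex
  have hm0 : (0 : ℝ) ≤ m := Nat.cast_nonneg m
  refine ⟨∑ j ∈ range (D + 2), C j * (2 * (m + 1)), ?_, ?_⟩
  · have h1 : C 0 * (2 * ((m : ℝ) + 1)) ≤ ∑ j ∈ range (D + 2), C j * (2 * ((m : ℝ) + 1)) :=
      Finset.single_le_sum (f := fun j => C j * (2 * ((m : ℝ) + 1)))
        (fun j _ => by
          have := hC j
          positivity) (Finset.mem_range.2 (by omega))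
    have h2 := hC 0
    nlinarith
  intro G b b' v v' r ρ η E hG hr hρ hE hbb hvv hη j hj
  have hη0 : 0 ≤ η := (abs_nonneg _).trans (hbb none)
  have hE0 : 0 ≤ E := (abs_nonneg _).trans (hE 0 (by rw [abs_zero]; exact hr.le)
    (fun o => b' o + 0 * v' o) (fun o => by rw [sub_self, abs_zero]; exact hρ) none)
  have h1 : jet j G b v - jet j G b' v' =
      (Polynomial.derivative^[j] (aeval (lp b v) G - aeval (lp b' v') G)).eval 0 := by
    unfold jet
    rw [Polynomial.iterate_derivative_sub, Polynomial.eval_sub]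
  rw [h1]
  have h2 := H j (aeval (lp b v) G - aeval (lp b' v') G) (E * ((m + 1) * (2 * η))) r
    ((Polynomial.natDegree_sub_le _ _).trans (max_le (natDegree_alp hG _ _)
      (natDegree_alp hG _ _))) hr (by
      intro t ht
      rw [Polynomial.eval_sub, eval_alp, eval_alp]
      have ht' : |t| ≤ r := by rw [abs_of_nonneg ht.1]; exact ht.2
      have e1 : ∀ o, |b o + t * v o - (b' o + t * v' o)| ≤ 2 * η := by
        intro o
        have e2 : b o + t * v o - (b' o + t * v' o) = (b o - b' o) + t * (v o - v' o) := by ring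
        rw [e2]
        have e3 : |t * (v o - v' o)| ≤ η := by
          rw [abs_mul]
          exact (mul_le_mul_of_nonneg_right ht' (abs_nonneg _)).trans (hvv o)
        calc |(b o - b' o) + t * (v o - v' o)| ≤ |b o - b' o| + |t * (v o - v' o)| :=
              abs_add_le _ _
          _ ≤ 2 * η := by linarith [hbb o]
      have e4 := ball_mv (G := G) (b := fun o => b' o + t * v' o)
        (x := fun o => b o + t * v o) (R := ρ) (E := E) (fun y hy o => hE t ht' y hy o)
        (fun o => (e1 o).trans hη)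
      refine e4.trans (mul_le_mul_of_nonneg_left ?_ hE0)
      refine (Finset.sum_le_sum fun o _ => e1 o).trans (le_of_eq ?_)
      rw [Finset.sum_const, Finset.card_univ, Fintype.card_option, Fintype.card_fin,
        nsmul_eq_mul]
      push_cast
      ring)
  have hrj : 0 < r ^ j := pow_pos hr j
  have hCj := hC j
  calc r ^ j * |(Polynomial.derivative^[j] (aeval (lp b v) G - aeval (lp b' v') G)).eval 0|
      ≤ r ^ j * (C j * (E * ((m + 1) * (2 * η))) / r ^ j) := mul_le_mul_of_nonneg_left h2 hrj.le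
    _ = C j * (2 * (m + 1)) * E * η := by
        field_simp
    _ ≤ (∑ j ∈ range (D + 2), C j * (2 * ((m : ℝ) + 1))) * E * η := by
        refine mul_le_mul_of_nonneg_right (mul_le_mul_of_nonneg_right ?_ hE0) hη0
        exact Finset.single_le_sum (f := fun j => C j * (2 * ((m : ℝ) + 1)))
          (fun j _ => by
            have := hC j
            positivity) (Finset.mem_range.2 (by omega))

/-- The first jet. -/
theorem jet_one (G : MvPolynomial (Option (Fin m)) ℝ) (b v : Option (Fin m) → ℝ) :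
    jet 1 G b v = ∑ o, v o * eval b (pderiv o G) := by
  classical
  unfold jet
  rw [Function.iterate_one, der_aevalσ, Polynomial.eval_finsetSum]
  refine Finset.sum_congr rfl fun o _ => ?_
  rw [Polynomial.eval_mul, eval_alp]
  have e1 : (fun o => b o + 0 * v o) = b := by
    funext o
    ring
  rw [e1]
  unfold Pool.LA91.lp
  simp
  ring

open Classical in
/-- The point of `b` over `I`, and of `b'` elsewhere. -/
noncomputable def mxi (I : Finset (Fin m)) (b b' : Option (Fin m) → ℝ) (o : Option (Fin m)) : ℝ :=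
  if o = none ∨ ∃ i ∈ I, o = some i then b o else b' o

theorem mxi_none (I : Finset (Fin m)) (b b' : Option (Fin m) → ℝ) : mxi I b b' none = b none := by
  unfold mxi
  rw [if_pos (Or.inl rfl)]

theorem mxi_some {I : Finset (Fin m)} {i : Fin m} (hi : i ∈ I) (b b' : Option (Fin m) → ℝ) :
    mxi I b b' (some i) = b (some i) := by
  unfold mxi
  rw [if_pos (Or.inr ⟨i, hi, rfl⟩)]

theorem mxi_out {I : Finset (Fin m)} {i : Fin m} (hi : i ∉ I) (b b' : Option (Fin m) → ℝ) :
    mxi I b b' (some i) = b' (some i) := by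
  unfold mxi
  rw [if_neg]
  rintro (h | ⟨j, hj, h⟩)
  · exact absurd h (by simp)
  · rw [Option.some.inj h] at hi
    exact hi hj

theorem mxi_near {I : Finset (Fin m)} {b b' : Option (Fin m) → ℝ} {η : ℝ} (hη : 0 ≤ η)
    (h0 : b none = b' none) (h : ∀ i ∈ I, |b (some i) - b' (some i)| ≤ η) (o : Option (Fin m)) :
    |mxi I b b' o - b' o| ≤ η := by
  unfold mxi
  split_ifs with h1
  · rcases h1 with rfl | ⟨i, hi, rfl⟩
    · rw [h0, sub_self, abs_zero]
      exact hη
    · exact h i hi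
  · rw [sub_self, abs_zero]
    exact hη

/-- **The derivative of a label along the lines, from a context.** -/
theorem flat_cx (m D Ku : ℕ) : ∃ B : ℝ, 1 ≤ B ∧ ∀ {J : ℕ} (F : Fam m J) (A : F.Ω → Prop)
    (I₀ : Finset (Fin m)) (u : Fin m) {V V₂ 𝒞 : Type} (W a PH eH ρH : ℕ) (z' : LnT F → V)
    (G : V → MvPolynomial (Option (Fin m)) ℝ) (z₂ : PtT F → V₂) (z₂' : LnT F → V₂)
    (H : V₂ → MvPolynomial (Option (Fin m)) ℝ) (Cx : F.Ω → 𝒞) (vel : F.Ω → ℝ)
    (σ s δ c η E ρ : ℝ), 0 < Pe F.p A → u ∉ I₀ → (∀ v, (G v).totalDegree ≤ D) →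
    (∀ v, ∀ b b' : Option (Fin m) → ℝ, b none = b' none →
      (∀ i ∈ insert u I₀, b (some i) = b' (some i)) → eval b (G v) = eval b' (G v)) →
    (∀ ω, A ω → ∀ t : ℝ, |t| ≤ 1 / 2 ^ W → ∀ x : Option (Fin m) → ℝ,
      (∀ o, |x o - (bt F ω o + t * bd F ω o)| ≤ ρ) → ∀ o,
      |eval x (pderiv o (G (z' (slam F W ω))))| ≤ E) →
    LbOK F I₀ u Ku eH J a ρH PH A z₂ z₂' H →
    0 < σ → 0 < s → s ≤ 1 → 0 ≤ δ → 0 < c → 0 < η →
    (∀ ω ω', A ω → A ω' → Cx ω = Cx ω' → F.T ω = F.T ω' ∧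
      z' (slam F W ω) = z' (slam F W ω') ∧ z₂' (slam F a ω) = z₂' (slam F a ω') ∧
      (∀ i ∈ I₀, |F.x ω i - F.x ω' i| ≤ η ∧ |F.d ω i - F.d ω' i| ≤ η) ∧
      ∀ n, 2 ≤ n → n ≤ D → (1 / 2 ^ W) ^ n * |jet n (G (z' (slam F W ω))) (bt F ω) (bd F ω) -
        jet n (G (z' (slam F W ω))) (bt F ω') (bd F ω')| ≤ δ / 2) →
    (∀ ω ω', A ω → A ω' → Cx ω = Cx ω' →
      |(F.d ω u - F.d ω' u) - (vel ω - vel ω')| ≤ s * σ * 2 ^ W) →
    2 * η ≤ ρ → 8 * η ≤ 1 / 2 ^ ρH → B * E * η ≤ δ →
    2 / 2 ^ PH + B * 2 ^ eH * η ≤ σ → 2 * (2 ^ a / 2 ^ PH) + B * 2 ^ (eH + ρH) * η ≤ σ * 2 ^ W →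
    (∀ E : F.Ω → Prop, c ≤ Pb (Pool.Agent.H49.Ent.cond F.p A True) E → Real.log (3 * D + 1) <
      CH (cond (Pool.Agent.H49.Ent.cond F.p A True) E True)
        (fun ω => ⌊vel ω / (2 * (s * σ * 2 ^ W))⌋) Cx) →
    Pb (Pool.Agent.H49.Ent.cond F.p A True) (fun ω => ¬ ∀ t U : ℝ, |t| ≤ 1 / 2 ^ W → |U| ≤ σ →
      |eval (fun o => bt F ω o + t * bd F ω o + if o = some u then U else 0)
        (pderiv (some u) (G (z' (slam F W ω)))) -
        eval (bt F ω) (pderiv (some u) (G (z' (slam F W ω))))| ≤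
        B * δ / s ^ (D * D) / σ) < c := by
  classical
  obtain ⟨B₁, hB₁, H₁⟩ := flat_jet D
  obtain ⟨C₁, hC₁, M₁⟩ := mix_win m D
  obtain ⟨C₂, hC₂, M₂⟩ := mix_le m Ku
  obtain ⟨B, hBd⟩ : ∃ B : ℝ, B = B₁ + 4 * C₁ + 4 * C₂ + (m + 1) := ⟨_, rfl⟩
  have hm0 : (0 : ℝ) ≤ m := Nat.cast_nonneg m
  have hB : 1 ≤ B := by rw [hBd]; linarith
  refine ⟨B, hB, ?_⟩
  intro J F A I₀ u V V₂ 𝒞 W a PH eH ρH z' G z₂ z₂' H Cx vel σ s δ c η E ρ hA hu hGd hGp hGl hH hσ
    hs hs1 hδ hc hη hfib hvel n1 n2 n3 n4 n5 halive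
  have hq := isLaw_cond F.isLaw hA
  have hqA : ∀ ω, 0 < Pool.Agent.H49.Ent.cond F.p A True ω → A ω := fun ω hω => of_cond_pos hω
  have hr : (0 : ℝ) < 1 / 2 ^ W := by positivity
  have hr1 : (1 : ℝ) / 2 ^ W ≤ 1 := by
    rw [div_le_one (by positivity)]
    exact one_le_pow₀ (by norm_num)
  have hsW : 0 < s * σ * 2 ^ W := by positivity
  have h1 := sep_fib hq vel Cx D (s := 2 * (s * σ * 2 ^ W)) (by positivity) hc halive
  refine lt_of_le_of_lt ?_ h1
  refine Pb_imp hq.nonneg fun ω hω hbad hex => ?_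
  apply hbad
  obtain ⟨ω', h2, h3⟩ := hex
  have hAω := hqA ω hω
  have hF : ∀ k, A (ω' k) := fun k => hqA _ (h2 k).1
  -- the time
  have ht : ∀ k, bt F ω none = bt F (ω' k) none := by
    intro k
    have h4 := (hfib ω (ω' k) hAω (hF k) (h2 k).2.symm).1
    show (F.T ω : ℝ) / 2 ^ J = (F.T (ω' k) : ℝ) / 2 ^ J
    rw [h4]
  have hv0 : ∀ k, bd F ω none = bd F (ω' k) none := fun k => rfl
  -- the mixed points over `I₀`
  have hx : ∀ k o, |mxi I₀ (bt F ω) (bt F (ω' k)) o - bt F (ω' k) o| ≤ η := fun k =>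
    mxi_near hη.le (ht k) fun i hi =>
      ((hfib ω (ω' k) hAω (hF k) (h2 k).2.symm).2.2.2.1 i hi).1
  have hd : ∀ k o, |mxi I₀ (bd F ω) (bd F (ω' k)) o - bd F (ω' k) o| ≤ η := fun k =>
    mxi_near hη.le (hv0 k) fun i hi =>
      ((hfib ω (ω' k) hAω (hF k) (h2 k).2.symm).2.2.2.1 i hi).2
  have hρr : (0 : ℝ) < 1 / 2 ^ ρH := by positivity
  have hρr1 : (1 : ℝ) / 2 ^ ρH ≤ 1 := by
    rw [div_le_one (by positivity)]
    exact one_le_pow₀ (by norm_num)
  have hηρ : η + 1 / 2 ^ ρH * η ≤ 1 / 2 ^ ρH / 4 := by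
    have : 1 / 2 ^ ρH * η ≤ 1 * η := mul_le_mul_of_nonneg_right hρr1 hη.le
    linarith
  -- the label of `u`
  have hHd : ∀ k, z₂' (slam F a (ω' k)) = z₂' (slam F a ω) := fun k =>
    (hfib ω (ω' k) hAω (hF k) (h2 k).2.symm).2.2.1.symm
  have hHlip : ∀ k, ∀ x : Option (Fin m) → ℝ, (∀ o, |x o - bt F (ω' k) o| ≤ 1 / 2 ^ ρH) → ∀ o,
      |eval x (pderiv o (H (z₂' (slam F a ω))))| ≤ 2 ^ eH := by
    intro k x hx o
    have := hH.lip (ω' k) (hF k) x hx o
    rwa [hHd k] at this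
  have hxu : ∀ k, |bt F (ω' k) (some u) - bt F ω (some u)| ≤ σ := by
    intro k
    have e1 := hH.pos ω hAω
    have e2 := hH.pos (ω' k) (hF k)
    rw [hHd k] at e2
    have e3 : eval (bt F ω) (H (z₂' (slam F a ω))) =
        eval (mxi I₀ (bt F ω) (bt F (ω' k))) (H (z₂' (slam F a ω))) :=
      hH.dep _ _ _ (mxi_none _ _ _).symm fun i hi => (mxi_some hi _ _).symm
    have e4 : |eval (mxi I₀ (bt F ω) (bt F (ω' k))) (H (z₂' (slam F a ω))) -
        eval (bt F (ω' k)) (H (z₂' (slam F a ω)))| ≤ 2 ^ eH * ∑ o, |mxi I₀ (bt F ω) (bt F (ω' k)) o -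
          bt F (ω' k) o| := ball_mv (R := 1 / 2 ^ ρH) (hHlip k) fun o =>
      (hx k o).trans (by linarith)
    have e5 : ∑ o, |mxi I₀ (bt F ω) (bt F (ω' k)) o - bt F (ω' k) o| ≤ (m + 1) * η := by
      refine (Finset.sum_le_sum fun o _ => hx k o).trans ?_
      rw [Finset.sum_const, Finset.card_univ, Fintype.card_option, Fintype.card_fin,
        nsmul_eq_mul]
      push_cast
      exact le_rfl
    rw [← e3] at e4
    have e6 : (2 : ℝ) ^ eH * ∑ o, |mxi I₀ (bt F ω) (bt F (ω' k)) o - bt F (ω' k) o| ≤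
        B * 2 ^ eH * η := by
      calc (2 : ℝ) ^ eH * ∑ o, |mxi I₀ (bt F ω) (bt F (ω' k)) o - bt F (ω' k) o|
          ≤ 2 ^ eH * ((m + 1) * η) := mul_le_mul_of_nonneg_left e5 (by positivity)
        _ = (m + 1) * (2 ^ eH * η) := by ring
        _ ≤ B * (2 ^ eH * η) := mul_le_mul_of_nonneg_right (by rw [hBd]; linarith) (by positivity)
        _ = B * 2 ^ eH * η := by ring
    have e7 : (2 : ℝ) / 2 ^ PH = 1 / 2 ^ PH + 1 / 2 ^ PH := by ring
    have f1 := abs_le.1 e1
    have f2 := abs_le.1 e2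
    have f4 := abs_le.1 e4
    show |F.x (ω' k) u - F.x ω u| ≤ σ
    rw [abs_le]
    constructor <;> linarith [f1.1, f1.2, f2.1, f2.2, f4.1, f4.2]
  have hdu : ∀ k, |bd F (ω' k) (some u) - bd F ω (some u)| ≤ σ * 2 ^ W := by
    intro k
    have e1 := hH.vel ω hAω
    have e2 := hH.vel (ω' k) (hF k)
    rw [hHd k] at e2
    rw [← jet_one] at e1 e2
    have e3 : jet 1 (H (z₂' (slam F a ω))) (bt F ω) (bd F ω) =
        jet 1 (H (z₂' (slam F a ω))) (mxi I₀ (bt F ω) (bt F (ω' k)))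
          (mxi I₀ (bd F ω) (bd F (ω' k))) :=
      jet_congr (hH.dep _) 1 (mxi_none _ _ _).symm (fun i hi => (mxi_some hi _ _).symm)
        (mxi_none _ _ _).symm fun i hi => (mxi_some hi _ _).symm
    have e4 := M₂ (H (z₂' (slam F a ω))) (mxi I₀ (bt F ω) (bt F (ω' k))) (bt F (ω' k))
      (mxi I₀ (bd F ω) (bd F (ω' k))) (bd F (ω' k)) (1 / 2 ^ ρH) η η (2 ^ eH) (hH.deg _) hρr hη
      hη.le hηρ (hHlip k) (bd_le F _) (hx k) (hd k) 1 (by omega)
    rw [← e3, pow_one] at e4
    have e5 : |jet 1 (H (z₂' (slam F a ω))) (bt F ω) (bd F ω) -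
        jet 1 (H (z₂' (slam F a ω))) (bt F (ω' k)) (bd F (ω' k))| ≤ B * 2 ^ (eH + ρH) * η := by
      rw [one_div, inv_mul_le_iff₀ (by positivity)] at e4
      refine e4.trans ?_
      have e6 : η + ((2 : ℝ) ^ ρH)⁻¹ * η ≤ 2 * η := by
        rw [← one_div]
        have : 1 / 2 ^ ρH * η ≤ 1 * η := mul_le_mul_of_nonneg_right hρr1 hη.le
        linarith
      calc (2 : ℝ) ^ ρH * (C₂ * 2 ^ eH * (η + ((2 : ℝ) ^ ρH)⁻¹ * η))
          ≤ 2 ^ ρH * (C₂ * 2 ^ eH * (2 * η)) := mul_le_mul_of_nonneg_left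
            (mul_le_mul_of_nonneg_left e6 (by positivity)) (by positivity)
        _ = 2 * C₂ * (2 ^ (eH + ρH) * η) := by rw [pow_add]; ring
        _ ≤ B * (2 ^ (eH + ρH) * η) := mul_le_mul_of_nonneg_right (by rw [hBd]; linarith)
            (by positivity)
        _ = B * 2 ^ (eH + ρH) * η := by ring
    have f1 := abs_le.1 e1
    have f2 := abs_le.1 e2
    have f5 := abs_le.1 e5
    show |F.d (ω' k) u - F.d ω u| ≤ σ * 2 ^ W
    rw [abs_le]
    constructor <;> linarith [f1.1, f1.2, f2.1, f2.2, f5.1, f5.2]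
  have hconv : ∀ t U : ℝ, |t| ≤ 1 / 2 ^ W → |U| ≤ σ →
      |eval (fun o => bt F ω o + t * bd F ω o + if o = some u then U else 0)
        (pderiv (some u) (G (z' (slam F W ω)))) -
        eval (bt F ω) (pderiv (some u) (G (z' (slam F W ω))))| ≤ B₁ * δ / s ^ (D * D) / σ := by
    intro t U ht' hU
    refine H₁ (G (z' (slam F W ω))) u (bt F ω) (bd F ω)
      (fun k => mxu u (bt F ω) (bt F (ω' k))) (fun k => mxu u (bd F ω) (bd F (ω' k)))
      (fun n => jet n (G (z' (slam F W ω))) (bt F ω) (bd F ω)) (1 / 2 ^ W) σ s δ (hGd _) hr hσ hs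
      hs1 hδ (fun k o ho => ?_) (fun k => ?_) (fun k => ?_) (fun k l hkl => ?_)
      (fun k n hn hnD => ?_) t U ht' hU
    · unfold mxu
      rw [if_neg ho, if_neg ho]
      exact ⟨rfl, rfl⟩
    · unfold mxu
      rw [if_pos rfl]
      exact hxu k
    · unfold mxu
      rw [if_pos rfl]
      calc 1 / 2 ^ W * |bd F (ω' k) (some u) - bd F ω (some u)| ≤ 1 / 2 ^ W * (σ * 2 ^ W) :=
            mul_le_mul_of_nonneg_left (hdu k) hr.le
        _ = σ := by field_simp
    · unfold mxu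
      rw [if_pos rfl, if_pos rfl]
      have h4 := h3 k l hkl
      have h5 := hvel (ω' k) (ω' l) (hF k) (hF l) ((h2 k).2.trans (h2 l).2.symm)
      have h6 : s * σ * 2 ^ W ≤ |bd F (ω' k) (some u) - bd F (ω' l) (some u)| := by
        show s * σ * 2 ^ W ≤ |F.d (ω' k) u - F.d (ω' l) u|
        have h7 := abs_sub_abs_le_abs_sub (vel (ω' k) - vel (ω' l)) (F.d (ω' k) u - F.d (ω' l) u)
        rw [abs_sub_comm (vel (ω' k) - vel (ω' l))] at h7
        linarith
      calc s * σ = 1 / 2 ^ W * (s * σ * 2 ^ W) := by field_simp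
        _ ≤ _ := mul_le_mul_of_nonneg_left h6 hr.le
    · -- the jets
      have hfk := hfib ω (ω' k) hAω (hF k) (h2 k).2.symm
      have e3 : jet n (G (z' (slam F W ω))) (mxu u (bt F ω) (bt F (ω' k)))
          (mxu u (bd F ω) (bd F (ω' k))) =
          jet n (G (z' (slam F W ω))) (mxi I₀ (bt F ω) (bt F (ω' k)))
            (mxi I₀ (bd F ω) (bd F (ω' k))) := by
        have key : ∀ b b' : Option (Fin m) → ℝ, ∀ i ∈ insert u I₀,
            mxu u b b' (some i) = mxi I₀ b b' (some i) := by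
          intro b b' i hi
          by_cases hiu : i = u
          · rw [hiu, mxi_out hu]
            unfold mxu
            rw [if_pos rfl]
          · have hi0 : i ∈ I₀ := (Finset.mem_insert.1 hi).resolve_left hiu
            rw [mxi_some hi0]
            unfold mxu
            rw [if_neg fun h => hiu (Option.some.inj h)]
        have key0 : ∀ b b' : Option (Fin m) → ℝ, mxu u b b' none = mxi I₀ b b' none := by
          intro b b'
          rw [mxi_none]
          unfold mxu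
          rw [if_neg (by simp)]
        exact jet_congr (hGp _) n (key0 _ _) (key _ _) (key0 _ _) (key _ _)
      rw [e3]
      have hGlip : ∀ t : ℝ, |t| ≤ 1 / 2 ^ W → ∀ x : Option (Fin m) → ℝ,
          (∀ o, |x o - (bt F (ω' k) o + t * bd F (ω' k) o)| ≤ ρ) → ∀ o,
          |eval x (pderiv o (G (z' (slam F W ω))))| ≤ E := by
        intro t ht x hx o
        have := hGl (ω' k) (hF k) t ht x hx o
        rwa [← hfk.2.1] at this
      have e4 := M₁ (G (z' (slam F W ω))) (mxi I₀ (bt F ω) (bt F (ω' k))) (bt F (ω' k))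
        (mxi I₀ (bd F ω) (bd F (ω' k))) (bd F (ω' k)) (1 / 2 ^ W) ρ η E (hGd _) hr
        (le_trans (by positivity) n1) hGlip (hx k) (fun o => by
          have h8 := mul_le_mul_of_nonneg_right hr1
            (abs_nonneg (mxi I₀ (bd F ω) (bd F (ω' k)) o - bd F (ω' k) o))
          have h9 := hd k o
          linarith) n1 n (by omega)
      have hE0 : 0 ≤ E := (abs_nonneg _).trans (hGlip 0 (by rw [abs_zero]; exact hr.le)
        (fun o => bt F (ω' k) o + 0 * bd F (ω' k) o)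
        (fun o => by rw [sub_self, abs_zero]; exact le_trans (by positivity) n1) none)
      have e5 : C₁ * E * η ≤ δ / 2 := by
        calc C₁ * E * η = 2 * C₁ * (E * η) / 2 := by ring
          _ ≤ B * (E * η) / 2 := by
              refine div_le_div_of_nonneg_right (mul_le_mul_of_nonneg_right ?_ (by positivity))
                (by norm_num)
              rw [hBd]
              linarith
          _ = B * E * η / 2 := by ring
          _ ≤ δ / 2 := div_le_div_of_nonneg_right n3 (by norm_num)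
      have e7 := hfk.2.2.2.2 n hn hnD
      have hrn : (0 : ℝ) < (1 / 2 ^ W) ^ n := pow_pos hr n
      calc (1 / 2 ^ W) ^ n * |jet n (G (z' (slam F W ω))) (mxi I₀ (bt F ω) (bt F (ω' k)))
            (mxi I₀ (bd F ω) (bd F (ω' k))) - jet n (G (z' (slam F W ω))) (bt F ω) (bd F ω)|
          ≤ (1 / 2 ^ W) ^ n * (|jet n (G (z' (slam F W ω))) (mxi I₀ (bt F ω) (bt F (ω' k)))
            (mxi I₀ (bd F ω) (bd F (ω' k))) -
              jet n (G (z' (slam F W ω))) (bt F (ω' k)) (bd F (ω' k))| +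
            |jet n (G (z' (slam F W ω))) (bt F ω) (bd F ω) -
              jet n (G (z' (slam F W ω))) (bt F (ω' k)) (bd F (ω' k))|) := by
            refine mul_le_mul_of_nonneg_left ?_ hrn.le
            rw [abs_sub_comm (jet n (G (z' (slam F W ω))) (bt F ω) (bd F ω))]
            exact abs_sub_le _ _ _
        _ ≤ δ / 2 + δ / 2 := by
            rw [mul_add]
            exact add_le_add (e4.trans e5) e7
        _ = δ := by ring
  intro t U ht' hU
  refine (hconv t U ht' hU).trans ?_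
  refine div_le_div_of_nonneg_right (div_le_div_of_nonneg_right
    (mul_le_mul_of_nonneg_right ?_ hδ) (by positivity)) hσ.le
  rw [hBd]
  linarith

end Pool.FLT
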