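import Pool.Agent.H19.FLT.Alg
import Pool.Agent.H91.LA.Fml

/-!
# The derivative of a label along a line

`flat_jet`: let `G` be a polynomial of degree at most `D`; if the jets of the orders `2, …, D` of `G`
along `D + 1` lines, which differ in the coordinate `u` only and have separated velocities in this
coordinate, are the same up to `δ`, then the derivative of `G` in `u` is nearly constant on the box
around the line.
-/

set_option autoImplicit false

namespace Pool.FLT

open Finset Real MvPolynomial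
open Pool.LA91

variable {m : ℕ}

/-! ### One polynomial in two variables -/

/-- **The derivative in the second variable** of a polynomial which is affine along many lines. -/
theorem flat_der (D : ℕ) : ∃ B : ℝ, 1 ≤ B ∧ ∀ (g : MvPolynomial (Fin 2) ℝ)
    (a v : Fin (D + 1) → ℝ) (c : ℕ → ℝ) (s δ : ℝ), g.totalDegree ≤ D → 0 < s → s ≤ 1 → 0 ≤ δ →
    (∀ k, |a k| ≤ 1) → (∀ k, |v k| ≤ 1) → (∀ k l, k ≠ l → s ≤ |v k - v l|) →
    (∀ k n, 2 ≤ n → n ≤ D → |(lnp g (a k) (v k)).coeff n - c n| ≤ δ) →
    ∀ x : Fin 2 → ℝ, (∀ i, |x i| ≤ 1) →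
      |eval x (pderiv 1 g) - eval 0 (pderiv 1 g)| ≤ B * δ / s ^ (D * D) := by
  classical
  obtain ⟨B, hB, H⟩ := flat_alg D
  refine ⟨(D + 1) ^ 2 * (2 * D) * B + 1, by
    have : (0 : ℝ) ≤ (D + 1) ^ 2 * (2 * D) * B := by positivity
    linarith, ?_⟩
  intro g a v c s δ hg hs hs1 hδ ha hv hsep hc x hx
  have h1 := H g a v c s δ hg hs hs1 hδ ha hv hsep hc
  obtain ⟨E, hE⟩ : ∃ E : ℝ, E = B * δ / s ^ (D * D) := ⟨_, rfl⟩
  have hE0 : 0 ≤ E := by rw [hE]; positivity
  -- the derivative as a sum
  have h2 : pderiv 1 g = ∑ d ∈ g.support, monomial (d - Finsupp.single 1 1) (g.coeff d * d 1) := by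
    conv_lhs => rw [g.as_sum, map_sum]
    exact Finset.sum_congr rfl fun d _ => pderiv_monomial
  have h3 : ∀ y : Fin 2 → ℝ, eval y (pderiv 1 g) =
      ∑ d ∈ g.support, (g.coeff d * d 1) * ∏ i, y i ^ (d - Finsupp.single 1 1 : Fin 2 →₀ ℕ) i := by
    intro y
    rw [h2, map_sum]
    refine Finset.sum_congr rfl fun d _ => ?_
    rw [eval_monomial, Finsupp.prod_fintype _ _ fun i => pow_zero _]
  rw [h3, h3, ← Finset.sum_sub_distrib]
  refine (Finset.abs_sum_le_sum_abs _ _).trans ?_
  have h4 : ∀ d ∈ g.support,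
      |(g.coeff d * d 1) * ∏ i, x i ^ (d - Finsupp.single 1 1 : Fin 2 →₀ ℕ) i -
        (g.coeff d * d 1) * ∏ i, (0 : Fin 2 → ℝ) i ^ (d - Finsupp.single 1 1 : Fin 2 →₀ ℕ) i| ≤
      2 * D * E := by
    intro d hd
    by_cases hd1 : d 1 = 0
    · rw [hd1, Nat.cast_zero, mul_zero, zero_mul, zero_mul, sub_zero, abs_zero]
      positivity
    by_cases hd2 : d 0 + d 1 < 2
    · have e0 : (d - Finsupp.single 1 1 : Fin 2 →₀ ℕ) = 0 := by
        ext i
        fin_cases i
        · show d 0 - (Finsupp.single (1 : Fin 2) 1 : Fin 2 →₀ ℕ) 0 = 0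
          omega
        · show d 1 - (Finsupp.single (1 : Fin 2) 1 : Fin 2 →₀ ℕ) 1 = 0
          rw [Finsupp.single_eq_same]
          omega
      rw [e0]
      simp only [Finsupp.coe_zero, Pi.zero_apply, pow_zero, Finset.prod_const_one, sub_self,
        abs_zero]
      positivity
    · have e1 := h1 d (by omega) (by omega)
      have e2 : (d 1 : ℝ) ≤ D := by
        have := deg_two hg hd
        exact_mod_cast (by omega : d 1 ≤ D)
      have e3 : |g.coeff d * d 1| ≤ D * E := by
        rw [abs_mul, Nat.abs_cast, mul_comm]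
        exact mul_le_mul e2 (by rw [hE]; exact e1) (abs_nonneg _) (Nat.cast_nonneg D)
      have e4 : ∀ y : Fin 2 → ℝ, (∀ i, |y i| ≤ 1) →
          |∏ i, y i ^ (d - Finsupp.single 1 1 : Fin 2 →₀ ℕ) i| ≤ 1 := by
        intro y hy
        rw [Finset.abs_prod]
        refine Finset.prod_le_one (fun _ _ => abs_nonneg _) fun i _ => ?_
        rw [abs_pow]
        exact pow_le_one₀ (abs_nonneg _) (hy i)
      have e5 := e4 x hx
      have e6 := e4 0 (fun i => by rw [Pi.zero_apply, abs_zero]; norm_num)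
      rw [← mul_sub, abs_mul]
      have e7 := (abs_sub (∏ i, x i ^ (d - Finsupp.single 1 1 : Fin 2 →₀ ℕ) i)
        (∏ i, (0 : Fin 2 → ℝ) i ^ (d - Finsupp.single 1 1 : Fin 2 →₀ ℕ) i)).trans (add_le_add e5 e6)
      calc _ ≤ (D * E) * (1 + 1) := mul_le_mul e3 e7 (abs_nonneg _) (by positivity)
        _ = 2 * D * E := by ring
  refine (Finset.sum_le_sum h4).trans ?_
  rw [Finset.sum_const, nsmul_eq_mul]
  have h5 : (g.support.card : ℝ) ≤ (D + 1) ^ 2 := by exact_mod_cast card_supp hg
  have h6 : (g.support.card : ℝ) * (2 * D * E) ≤ (D + 1) ^ 2 * (2 * D * E) :=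
    mul_le_mul_of_nonneg_right h5 (by positivity)
  refine h6.trans ?_
  have h7 : ((D + 1) ^ 2 * (2 * D) * B + 1) * δ / s ^ (D * D) =
      (D + 1) ^ 2 * (2 * D * E) + δ / s ^ (D * D) := by
    rw [hE]
    ring
  rw [h7]
  have : 0 ≤ δ / s ^ (D * D) := by positivity
  linarith

/-! ### The substitution -/

/-- The plane through the line and the direction `u`. -/
noncomputable def gpl (b v : Option (Fin m) → ℝ) (u : Fin m) (r σ : ℝ) (o : Option (Fin m)) :
    MvPolynomial (Fin 2) ℝ :=
  C (b o) + C (r * v o) * X 0 + (if o = some u then C σ * X 1 else 0)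

theorem deg_gpl (b v : Option (Fin m) → ℝ) (u : Fin m) (r σ : ℝ) (o : Option (Fin m)) :
    (gpl b v u r σ o).totalDegree ≤ 1 := by
  have h1 : ∀ (c : ℝ) (i : Fin 2), (C c * X i : MvPolynomial (Fin 2) ℝ).totalDegree ≤ 1 := by
    intro c i
    refine (totalDegree_mul _ _).trans ?_
    rw [totalDegree_C, totalDegree_X]
  unfold gpl
  refine (totalDegree_add _ _).trans (max_le ((totalDegree_add _ _).trans (max_le ?_ (h1 _ _))) ?_)
  · rw [totalDegree_C]
    exact Nat.zero_le _
  · split_ifs
    · exact h1 _ _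
    · rw [totalDegree_zero]
      exact Nat.zero_le _

theorem deg_bind {σ τ : Type} (f : σ → MvPolynomial τ ℝ) (hf : ∀ v, (f v).totalDegree ≤ 1)
    (g : MvPolynomial σ ℝ) : (bind₁ f g).totalDegree ≤ g.totalDegree := by
  unfold bind₁
  rw [aeval_def, eval₂_eq]
  refine totalDegree_finsetSum_le fun k hk => ?_
  refine (totalDegree_mul _ _).trans ?_
  have h1 : (algebraMap ℝ (MvPolynomial τ ℝ) (coeff k g)).totalDegree = 0 := by
    rw [algebraMap_eq, totalDegree_C]
  rw [h1, zero_add]
  refine (totalDegree_finsetProd _ _).trans ?_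
  refine le_trans (Finset.sum_le_sum (g := fun i => k i) fun i _ => ?_) ?_
  · refine (totalDegree_pow _ _).trans ?_
    calc k i * (f i).totalDegree ≤ k i * 1 := Nat.mul_le_mul le_rfl (hf i)
      _ = k i := mul_one _
  · exact le_totalDegree hk

theorem pd_bind {σ τ : Type} [Fintype σ] (f : σ → MvPolynomial τ ℝ) (P : MvPolynomial σ ℝ)
    (a : τ) : pderiv a (bind₁ f P) = ∑ k, bind₁ f (pderiv k P) * pderiv a (f k) := by
  classical
  induction P using MvPolynomial.induction_on with
  | C r =>
    rw [bind₁_C_right, pderiv_C]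
    symm
    refine Finset.sum_eq_zero fun k _ => ?_
    rw [pderiv_C, map_zero, zero_mul]
  | add P Q hP hQ =>
    rw [map_add, map_add, hP, hQ, ← Finset.sum_add_distrib]
    exact Finset.sum_congr rfl fun k _ => by rw [map_add, map_add, add_mul]
  | mul_X P i hP =>
    rw [map_mul, bind₁_X_right, pderiv_mul, hP]
    have h1 : ∀ k, bind₁ f (pderiv k (P * X i)) * pderiv a (f k) =
        (bind₁ f (pderiv k P) * pderiv a (f k)) * f i +
          (if i = k then bind₁ f P * pderiv a (f i) else 0) := by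
      intro k
      rw [pderiv_mul, map_add, map_mul, map_mul, bind₁_X_right]
      by_cases h : i = k
      · subst h
        rw [pderiv_X_self, map_one, if_pos rfl]
        ring
      · rw [pderiv_X_of_ne h, map_zero, if_neg h]
        ring
    simp_rw [h1]
    rw [Finset.sum_add_distrib, Finset.sum_mul, Finset.sum_ite_eq, if_pos (Finset.mem_univ _)]

theorem eval_gpl (b v : Option (Fin m) → ℝ) (u : Fin m) (r σ : ℝ) (x : Fin 2 → ℝ)
    (o : Option (Fin m)) : eval x (gpl b v u r σ o) =
      b o + r * v o * x 0 + if o = some u then σ * x 1 else 0 := by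
  unfold gpl
  split_ifs
  · simp
  · simp

theorem eval_bgpl (G : MvPolynomial (Option (Fin m)) ℝ) (b v : Option (Fin m) → ℝ) (u : Fin m)
    (r σ : ℝ) (x : Fin 2 → ℝ) : eval x (bind₁ (gpl b v u r σ) G) =
      eval (fun o => b o + r * v o * x 0 + if o = some u then σ * x 1 else 0) G := by
  have h1 : eval x (bind₁ (gpl b v u r σ) G) = eval (fun o => eval x (gpl b v u r σ o)) G :=
    eval₂Hom_bind₁ (RingHom.id ℝ) x (gpl b v u r σ) G
  rw [h1]
  congr 2
  funext o
  exact eval_gpl b v u r σ x o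

/-- The derivative in the second variable. -/
theorem eval_dgpl (G : MvPolynomial (Option (Fin m)) ℝ) (b v : Option (Fin m) → ℝ) (u : Fin m)
    (r σ : ℝ) (x : Fin 2 → ℝ) : eval x (pderiv 1 (bind₁ (gpl b v u r σ) G)) =
      σ * eval (fun o => b o + r * v o * x 0 + if o = some u then σ * x 1 else 0)
        (pderiv (some u) G) := by
  classical
  rw [pd_bind, map_sum, Finset.sum_eq_single (some u)]
  · rw [map_mul, eval_bgpl]
    have h1 : pderiv (1 : Fin 2) (gpl b v u r σ (some u)) = C σ := by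
      unfold gpl
      rw [if_pos rfl, map_add, map_add, pderiv_C, pderiv_C_mul, pderiv_C_mul,
        pderiv_X_of_ne (by decide), pderiv_X_self]
      simp
    rw [h1, eval_C]
    ring
  · intro o _ ho
    have h1 : pderiv (1 : Fin 2) (gpl b v u r σ o) = 0 := by
      unfold gpl
      rw [if_neg ho, map_add, map_add, pderiv_C, pderiv_C_mul, pderiv_X_of_ne (by decide)]
      simp
    rw [h1, mul_zero, map_zero]
  · intro h
    exact absurd (Finset.mem_univ _) h

/-- The jets are the coefficients. -/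
theorem jet_coeff (n : ℕ) (G : MvPolynomial (Option (Fin m)) ℝ) (b v : Option (Fin m) → ℝ) :
    jet n G b v = n.factorial * (aeval (lp b v) G).coeff n := by
  unfold jet
  rw [← Polynomial.coeff_zero_eq_eval_zero, Polynomial.coeff_iterate_derivative, zero_add,
    Nat.descFactorial_self, nsmul_eq_mul]

/-- The coefficients along a line of the plane. -/
theorem coeff_lnp_gpl (G : MvPolynomial (Option (Fin m)) ℝ) (b v b' v' : Option (Fin m) → ℝ)
    (u : Fin m) {r σ : ℝ} (hσ : 0 < σ) (ho : ∀ o, o ≠ some u → b' o = b o ∧ v' o = v o) (n : ℕ) :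
    (lnp (bind₁ (gpl b v u r σ) G) ((b' (some u) - b (some u)) / σ)
      (r * (v' (some u) - v (some u)) / σ)).coeff n =
      r ^ n * (aeval (lp b' v') G).coeff n := by
  have h1 : lnp (bind₁ (gpl b v u r σ) G) ((b' (some u) - b (some u)) / σ)
      (r * (v' (some u) - v (some u)) / σ) =
      (aeval (lp b' v') G).comp (Polynomial.C r * Polynomial.X) := by
    refine Polynomial.funext fun t => ?_
    rw [lnp_eval, eval_bgpl, Polynomial.eval_comp, Polynomial.eval_mul, Polynomial.eval_C,
      Polynomial.eval_X, eval_alp]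
    congr 2
    funext o
    by_cases h : o = some u
    · subst h
      simp only [Matrix.cons_val_zero, Matrix.cons_val_one, if_true]
      field_simp
      ring
    · obtain ⟨e1, e2⟩ := ho o h
      simp only [Matrix.cons_val_zero, if_neg h, add_zero, e1, e2]
      ring
  rw [h1, Polynomial.comp_C_mul_X_coeff]
  ring

/-- **The derivative of a label along a line.** -/
theorem flat_jet (D : ℕ) : ∃ B : ℝ, 1 ≤ B ∧ ∀ {m : ℕ} (G : MvPolynomial (Option (Fin m)) ℝ)
    (u : Fin m) (b v : Option (Fin m) → ℝ) (b' v' : Fin (D + 1) → Option (Fin m) → ℝ)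
    (c : ℕ → ℝ) (r σ s δ : ℝ), G.totalDegree ≤ D → 0 < r → 0 < σ → 0 < s → s ≤ 1 → 0 ≤ δ →
    (∀ k o, o ≠ some u → b' k o = b o ∧ v' k o = v o) →
    (∀ k, |b' k (some u) - b (some u)| ≤ σ) → (∀ k, r * |v' k (some u) - v (some u)| ≤ σ) →
    (∀ k l, k ≠ l → s * σ ≤ r * |v' k (some u) - v' l (some u)|) →
    (∀ k n, 2 ≤ n → n ≤ D → r ^ n * |jet n G (b' k) (v' k) - c n| ≤ δ) →
    ∀ t U : ℝ, |t| ≤ r → |U| ≤ σ →
      |eval (fun o => b o + t * v o + if o = some u then U else 0) (pderiv (some u) G) -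
        eval b (pderiv (some u) G)| ≤ B * δ / s ^ (D * D) / σ := by
  classical
  obtain ⟨B, hB, H⟩ := flat_der D
  refine ⟨B, hB, ?_⟩
  intro m G u b v b' v' c r σ s δ hG hr hσ hs hs1 hδ ho ha hv hsep hjet t U ht hU
  have h1 := H (bind₁ (gpl b v u r σ) G) (fun k => (b' k (some u) - b (some u)) / σ)
    (fun k => r * (v' k (some u) - v (some u)) / σ)
    (fun n => r ^ n / n.factorial * c n) s δ ((deg_bind _ (deg_gpl b v u r σ) G).trans hG) hs hs1
    hδ (fun k => by
      rw [abs_div, abs_of_pos hσ, div_le_one hσ]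
      exact ha k) (fun k => by
      rw [abs_div, abs_of_pos hσ, div_le_one hσ, abs_mul, abs_of_pos hr]
      exact hv k) (fun k l hkl => by
      have e1 : r * (v' k (some u) - v (some u)) / σ - r * (v' l (some u) - v (some u)) / σ =
          r * (v' k (some u) - v' l (some u)) / σ := by ring
      rw [e1, abs_div, abs_of_pos hσ, le_div_iff₀ hσ, abs_mul, abs_of_pos hr]
      exact hsep k l hkl) (fun k n hn hnD => by
      rw [coeff_lnp_gpl G b v (b' k) (v' k) u hσ (ho k)]
      have e1 := hjet k n hn hnD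
      rw [jet_coeff] at e1
      have hf : (0 : ℝ) < n.factorial := by exact_mod_cast n.factorial_pos
      have hf1 : (1 : ℝ) ≤ n.factorial := by exact_mod_cast n.factorial_pos
      have hrn : 0 < r ^ n := pow_pos hr n
      have e2 : r ^ n * (aeval (lp (b' k) (v' k)) G).coeff n - r ^ n / n.factorial * c n =
          r ^ n * (n.factorial * (aeval (lp (b' k) (v' k)) G).coeff n - c n) / n.factorial := by
        field_simp
      rw [e2, abs_div, abs_of_pos hf, abs_mul, abs_of_pos hrn, div_le_iff₀ hf]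
      calc _ ≤ δ := e1
        _ = δ * 1 := (mul_one δ).symm
        _ ≤ δ * n.factorial := mul_le_mul_of_nonneg_left hf1 hδ) ![t / r, U / σ] (fun i => by
      fin_cases i
      · show |t / r| ≤ 1
        rw [abs_div, abs_of_pos hr, div_le_one hr]
        exact ht
      · show |U / σ| ≤ 1
        rw [abs_div, abs_of_pos hσ, div_le_one hσ]
        exact hU)
  rw [eval_dgpl, eval_dgpl, ← mul_sub, abs_mul, abs_of_pos hσ] at h1
  rw [le_div_iff₀ hσ, mul_comm]
  refine le_trans (le_of_eq ?_) h1
  congr 3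
  · congr 2
    funext o
    simp only [Matrix.cons_val_zero, Matrix.cons_val_one]
    have e1 : r * v o * (t / r) = t * v o := by field_simp
    have e2 : σ * (U / σ) = U := by field_simp
    rw [e1, e2]
  · congr 2
    funext o
    simp

end Pool.FLT
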