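import Pool.Agent.H19.FLT.Cx
import Pool.Agent.H68.OWN.Jd
import Pool.Agent.H68.OWN.Uv
import Pool.Agent.H1.GEN.LeafN
import Pool.Agent.H91.LA.Own

/-!
# The derivative of a label along the lines, from few bits

`flat_ev`: if a code which determines the jets of the orders `2, …, D` of a label along the lines is
few bits given a context, and the velocity of `u` is alive given the context on all large events,
then the derivative of the label in `u` is nearly constant along the lines.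
-/

set_option autoImplicit false

namespace Pool.FLT

open Finset Real MvPolynomial
open Pool.Agent.H49.Ent Pool.Agent.H32.Dense Pool.STK Pool.KA Pool.KSAT Pool.K2S Pool.PB Pool.GEN
open Pool.LA91
open Pool.BFL (Pb)
open Pool.MIC (isLaw_ev ev_pos CH_ev_le Pb_nonneg)

variable {m : ℕ}

/-- The own jets of higher order. -/
theorem ojet_two {J : ℕ} (F : Fam m J) (κ : Fin m) {n : ℕ} (hn : 2 ≤ n)
    (G : MvPolynomial (Option (Fin m)) ℝ) (ω : F.Ω) :
    ojet F κ n G ω = - jet n G (bt F ω) (bd F ω) := by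
  unfold ojet
  rw [jet_sub]
  have h1 : jet n (X (some κ) : MvPolynomial (Option (Fin m)) ℝ) (bt F ω) (bd F ω) = 0 := by
    unfold jet
    rw [Polynomial.iterate_derivative_eq_zero, Polynomial.eval_zero]
    refine lt_of_le_of_lt (natDegree_alp (D := 1) ?_ _ _) (by omega)
    exact (totalDegree_X _).le
  rw [h1, zero_sub]

/-- **The derivative of a label along the lines, from few bits.** -/
theorem flat_ev (m D Ku : ℕ) : ∃ B : ℝ, 1 ≤ B ∧ ∀ {J : ℕ} (F : Fam m J) (A : F.Ω → Prop)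
    (I₀ : Finset (Fin m)) (u : Fin m) {V V₂ 𝒞 𝒥 : Type} (W a PH eH ρH : ℕ) (z' : LnT F → V)
    (G : V → MvPolynomial (Option (Fin m)) ℝ) (z₂ : PtT F → V₂) (z₂' : LnT F → V₂)
    (H : V₂ → MvPolynomial (Option (Fin m)) ℝ) (Cx : F.Ω → 𝒞) (jc : F.Ω → 𝒥)
    (σ s δ c η E ρ L ε₁ : ℝ), 0 < Pe F.p A → u ∉ I₀ → (∀ v, (G v).totalDegree ≤ D) →
    (∀ v, ∀ b b' : Option (Fin m) → ℝ, b none = b' none →
      (∀ i ∈ insert u I₀, b (some i) = b' (some i)) → eval b (G v) = eval b' (G v)) →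
    (∀ ω, A ω → ∀ t : ℝ, |t| ≤ 1 / 2 ^ W → ∀ x : Option (Fin m) → ℝ,
      (∀ o, |x o - (bt F ω o + t * bd F ω o)| ≤ ρ) → ∀ o,
      |eval x (pderiv o (G (z' (slam F W ω))))| ≤ E) →
    LbOK F I₀ u Ku eH J a ρH PH A z₂ z₂' H →
    0 < σ → 0 < s → s ≤ 1 → 0 ≤ δ → 0 < c → 0 < η →
    (∀ ω ω', A ω → A ω' → Cx ω = Cx ω' → jc ω = jc ω' → F.T ω = F.T ω' ∧
      z' (slam F W ω) = z' (slam F W ω') ∧ z₂' (slam F a ω) = z₂' (slam F a ω') ∧
      (∀ i ∈ I₀, |F.x ω i - F.x ω' i| ≤ η ∧ |F.d ω i - F.d ω' i| ≤ η) ∧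
      ∀ n, 2 ≤ n → n ≤ D → (1 / 2 ^ W) ^ n * |jet n (G (z' (slam F W ω))) (bt F ω) (bd F ω) -
        jet n (G (z' (slam F W ω))) (bt F ω') (bd F ω')| ≤ δ / 2) →
    2 * η ≤ ρ → 8 * η ≤ 1 / 2 ^ ρH → B * E * η ≤ δ →
    2 / 2 ^ PH + B * 2 ^ eH * η ≤ σ → 2 * (2 ^ a / 2 ^ PH) + B * 2 ^ (eH + ρH) * η ≤ σ * 2 ^ W →
    CH (Pool.Agent.H49.Ent.cond F.p A True) jc Cx ≤ ε₁ →
    (∀ R : F.Ω → Prop, Sub R A → c * Pe F.p A ≤ Pe F.p R →
      L ≤ CH (Pool.Agent.H49.Ent.cond F.p R True)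
        (fun ω => ⌊F.d ω u / (2 * (s * σ * 2 ^ W))⌋) Cx) →
    Real.log (3 * D + 1) + ε₁ / c < L →
    Pb (Pool.Agent.H49.Ent.cond F.p A True) (fun ω => ¬ ∀ t U : ℝ, |t| ≤ 1 / 2 ^ W → |U| ≤ σ →
      |eval (fun o => bt F ω o + t * bd F ω o + if o = some u then U else 0)
        (pderiv (some u) (G (z' (slam F W ω)))) -
        eval (bt F ω) (pderiv (some u) (G (z' (slam F W ω))))| ≤
        B * δ / s ^ (D * D) / σ) < c := by
  classical
  obtain ⟨B, hB, H₁⟩ := flat_cx m D Ku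
  refine ⟨B, hB, ?_⟩
  intro J F A I₀ u V V₂ 𝒞 𝒥 W a PH eH ρH z' G z₂ z₂' H Cx jc σ s δ c η E ρ L ε₁ hA hu hGd hGp
    hGl hH hσ hs hs1 hδ hc hη hfib n1 n2 n3 n4 n5 hfew halive hL
  have hq := isLaw_cond F.isLaw hA
  obtain ⟨q, hqd⟩ : ∃ q, q = Pool.Agent.H49.Ent.cond F.p A True := ⟨_, rfl⟩
  refine H₁ F A I₀ u W a PH eH ρH z' G z₂ z₂' H (fun ω => (Cx ω, jc ω)) (fun ω => F.d ω u) σ s δ c
    η E ρ hA hu hGd hGp hGl hH hσ hs hs1 hδ hc hη (fun ω ω' hω hω' hC => ?_)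
    (fun ω ω' hω hω' hC => ?_) n1 n2 n3 n4 n5 fun R hE => ?_
  · obtain ⟨hC1, hC2⟩ := Prod.ext_iff.1 hC
    exact hfib ω ω' hω hω' hC1 hC2
  · rw [sub_self, abs_zero]
    positivity
  · -- alive given the code
    rw [← hqd] at hE hq hfew ⊢
    have hEp : 0 < Pb q R := lt_of_lt_of_le hc hE
    have hqE := isLaw_ev hq R hEp
    have e0 : cond q R True = Pool.Agent.H49.Ent.cond F.p (fun ω => A ω ∧ R ω) True := by
      rw [hqd]
      exact cond_part_eq (by rw [← hqd]; exact hq) R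
    have a1 := halive (fun ω => A ω ∧ R ω) (fun ω h => h.1) (by
      have h5 := Pb_cond (p := F.p) hA R
      rw [← hqd] at h5
      rw [h5, le_div_iff₀ hA] at hE
      exact hE)
    rw [← e0] at a1
    have a3 : CH (cond q R True) jc Cx ≤ ε₁ / c := by
      have b2 := CH_ev_le hq.nonneg jc Cx R
      have b4 := CH_nonneg hqE.nonneg jc Cx
      rw [le_div_iff₀ hc]
      have b5 := mul_le_mul_of_nonneg_right hE b4
      linarith
    have a4 := Pool.OWN68.CH_cond_add hqE.nonneg (fun ω => ⌊F.d ω u / (2 * (s * σ * 2 ^ W))⌋) jc Cx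
    have a5 : CH (cond q R True) (fun ω => ⌊F.d ω u / (2 * (s * σ * 2 ^ W))⌋)
        (fun ω => (jc ω, Cx ω)) = CH (cond q R True)
          (fun ω => ⌊F.d ω u / (2 * (s * σ * 2 ^ W))⌋) (fun ω => (Cx ω, jc ω)) := by
      refine le_antisymm (CH_mono_cond hqE.nonneg ?_) (CH_mono_cond hqE.nonneg ?_) <;>
      · intro ω ω' _ _ h
        simp only [Prod.mk.injEq] at h ⊢
        tauto
    rw [← a5]
    linarith

end Pool.FLT
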