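import Pool.Agent.H19.FLT.Rnd
import Pool.Agent.H19.FLT.Cx
import Pool.Agent.H68.OWN.Npl
import Pool.Agent.H68.OWN.Ne
import Pool.Agent.H95.GN.UniL
import Pool.Agent.H60.ALT.Rd

/-!
# The twisted coordinate

`flat_seg`: a polynomial whose derivative in `u` is nearly constant on a segment. `flat_row`: if the
derivative of a label of `κ` in `u` is near to a closed number `ka` on the cells of the label of `u`,
the digits of `x_κ - ka x_u` are those of the own height of `κ`, given the exact point of the base.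
-/

set_option autoImplicit false

namespace Pool.FLT

open Finset Real MvPolynomial
open Pool.Agent.H49.Ent Pool.Agent.H32.Dense Pool.STK Pool.KA Pool.KSAT Pool.K2S Pool.PB Pool.GEN
open Pool.LA91
open Pool.UNJ (ceI)
open Pool.BFL (Pb)

variable {m : ℕ}

/-- **A polynomial whose derivative in `u` is nearly constant on a segment.** -/
theorem flat_seg (G : MvPolynomial (Option (Fin m)) ℝ) (b : Option (Fin m) → ℝ) (u : Fin m)
    (Δ k M : ℝ) (h : ∀ U : ℝ, |U| ≤ |Δ| →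
      |eval (fun o => b o + if o = some u then U else 0) (pderiv (some u) G) - k| ≤ M) :
    |eval (fun o => b o + if o = some u then Δ else 0) G - eval b G - k * Δ| ≤ M * |Δ| := by
  classical
  obtain ⟨v, hv⟩ : ∃ v : Option (Fin m) → ℝ, v = fun o => if o = some u then Δ else 0 := ⟨_, rfl⟩
  obtain ⟨q, hq⟩ : ∃ q : Polynomial ℝ, q = aeval (lp b v) G := ⟨_, rfl⟩
  have hev : ∀ t, q.eval t = eval (fun o => b o + t * v o) G := by
    intro t
    rw [hq, eval_alp]
  have hd : ∀ t, q.derivative.eval t = eval (fun o => b o + t * v o) (pderiv (some u) G) * Δ := by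
    intro t
    rw [hq, der_aevalσ, Polynomial.eval_finsetSum, Finset.sum_eq_single (some u)]
    · rw [Polynomial.eval_mul, eval_alp]
      congr 1
      unfold Pool.LA91.lp
      simp [hv]
    · intro o _ ho
      rw [Polynomial.eval_mul]
      have : (Polynomial.derivative (lp b v o)).eval t = 0 := by
        unfold Pool.LA91.lp
        simp [hv, ho]
      rw [this, mul_zero]
    · intro h
      exact absurd (Finset.mem_univ _) h
  obtain ⟨f, hf⟩ : ∃ f : Polynomial ℝ, f = q - Polynomial.C (k * Δ) * Polynomial.X := ⟨_, rfl⟩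
  have hfd : ∀ t, f.derivative.eval t =
      (eval (fun o => b o + t * v o) (pderiv (some u) G) - k) * Δ := by
    intro t
    rw [hf, Polynomial.derivative_sub, Polynomial.derivative_C_mul, Polynomial.derivative_X,
      mul_one, Polynomial.eval_sub, Polynomial.eval_C, hd]
    ring
  have hvt : ∀ t, (fun o => b o + t * v o) = fun o => b o + if o = some u then t * Δ else 0 := by
    intro t
    funext o
    rw [hv]
    simp only
    split_ifs
    · rfl
    · rw [mul_zero]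
  have h1 := (convex_Icc (0 : ℝ) 1).norm_image_sub_le_of_norm_deriv_le (f := fun t => f.eval t)
    (C := M * |Δ|) (fun t _ => (Polynomial.differentiable f).differentiableAt)
    (fun t ht => by
      rw [Polynomial.deriv, Real.norm_eq_abs, hfd, abs_mul, hvt]
      refine mul_le_mul_of_nonneg_right (h _ ?_) (abs_nonneg _)
      rw [abs_mul, abs_of_nonneg ht.1]
      calc t * |Δ| ≤ 1 * |Δ| := mul_le_mul_of_nonneg_right ht.2 (abs_nonneg _)
        _ = |Δ| := one_mul _) (x := 0) (y := 1) ⟨le_rfl, zero_le_one⟩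
    ⟨zero_le_one, le_rfl⟩
  simp only [Real.norm_eq_abs, sub_zero, abs_one, mul_one] at h1
  have e0 : f.eval 0 = eval b G := by
    rw [hf, Polynomial.eval_sub, Polynomial.eval_mul, Polynomial.eval_X, mul_zero, sub_zero, hev]
    congr 2
    funext o
    ring
  have e1 : f.eval 1 = eval (fun o => b o + if o = some u then Δ else 0) G - k * Δ := by
    rw [hf, Polynomial.eval_sub, Polynomial.eval_mul, Polynomial.eval_X, mul_one,
      Polynomial.eval_C, hev, hvt, one_mul]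
  rw [e0, e1] at h1
  refine le_trans (le_of_eq ?_) h1
  congr 1
  ring

variable {J : ℕ}

/-- The own height. -/
theorem ojet_zero (F : Fam m J) (κ : Fin m) (G : MvPolynomial (Option (Fin m)) ℝ) (ω : F.Ω) :
    ojet F κ 0 G ω = F.x ω κ - eval (bt F ω) G := by
  show jet 0 (X (some κ) - G) (bt F ω) (bd F ω) = _
  rw [Pool.OWN68.jet_zero, map_sub, eval_X]
  rfl

/-- **The twisted coordinate.** -/
theorem flat_row (F : Fam m J) (B : F.Ω → Prop) (I₀ : Finset (Fin m)) (u κ : Fin m)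
    {V V₂ 𝒦 : Type} {D Ku W a e P PH eH ρ ρH : ℕ} (z : PtT F → V) (z' : LnT F → V)
    (G : V → MvPolynomial (Option (Fin m)) ℝ) (z₂ : PtT F → V₂) (z₂' : LnT F → V₂)
    (H : V₂ → MvPolynomial (Option (Fin m)) ℝ) (kc : LnT F → 𝒦) (ka : 𝒦 → ℝ) {M σ S S' : ℝ}
    (hB : 0 < Pe F.p B) (hu : u ∉ I₀) (hG : LbOK F (insert u I₀) κ D e J W ρ P B z z' G)
    (hH : LbOK F I₀ u Ku eH J a ρH PH B z₂ z₂' H)
    (hflat : ∀ ω, B ω → ∀ U : ℝ, |U| ≤ σ →
      |eval (fun o => bt F ω o + if o = some u then U else 0)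
        (pderiv (some u) (G (z' (slam F W ω)))) -
        eval (bt F ω) (pderiv (some u) (G (z' (slam F W ω))))| ≤ M)
    (hka : ∀ ω, B ω → |eval (bt F ω) (pderiv (some u) (G (z' (slam F W ω)))) -
      ka (kc (slam F W ω))| ≤ 9 * M) (hρ : ρ ≤ J) (hρH : ρH ≤ J)
    (n1 : 2 ^ eH * ((m + 1) * (1 / 2 ^ J)) ≤ 1 / (2 : ℝ) ^ PH) (n2 : 3 / 2 ^ PH ≤ σ)
    (hS : 0 < S) (hSS : S ≤ S')
    (n3 : S * (2 ^ e * ((m + 1) * (1 / 2 ^ J)) + 10 * M * (3 / 2 ^ PH)) ≤ 1)
    {𝒳 : Type} (xt : F.Ω → 𝒳) :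
    CH (Pool.Agent.H49.Ent.cond F.p B True)
      (fun ω => ⌊S * (F.x ω κ - ka (kc (slam F W ω)) * F.x ω u)⌋)
      (fun ω => (xt ω, (ceI I₀ (fun _ => J) (F.x ω),
        ((z' (slam F W ω), (kc (slam F W ω), z₂' (slam F a ω))), F.W ω)))) ≤
    CH (Pool.Agent.H49.Ent.cond F.p B True)
      (fun ω => ⌊S' * ojet F κ 0 (G (z' (slam F W ω))) ω⌋)
      (fun ω => (xt ω, (ceI I₀ (fun _ => J) (F.x ω),
        ((z' (slam F W ω), (kc (slam F W ω), z₂' (slam F a ω))), F.W ω)))) + Real.log 7 := by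
  classical
  have hq := isLaw_cond F.isLaw hB
  have hS' : 0 < S' := lt_of_lt_of_le hS hSS
  refine (CH_le_add hq.nonneg _ (fun ω => ⌊S' * ojet F κ 0 (G (z' (slam F W ω))) ω⌋) _).trans ?_
  refine add_le_add le_rfl ?_
  have e7 : (7 : ℝ) = 2 * ((3 : ℕ) : ℝ) + 1 := by norm_num
  rw [e7]
  refine Pool.OWN68.CH_pair hq _ _ fun ω ω' hω hω' hY => ?_
  have hBω : B ω := of_cond_pos hω
  have hBω' : B ω' := of_cond_pos hω'
  simp only [Prod.mk.injEq] at hY
  obtain ⟨y0, -, y1, ⟨y2, y3, y4⟩, y5⟩ := hY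
  refine Pool.OWN68.floor_sub_le (D := 2) ?_
  have hT : F.T ω = F.T ω' := congrArg Prod.fst y5
  have hM0 : 0 ≤ M := by
    have := hflat ω hBω 0 (by
      rw [abs_zero]
      exact le_trans (by positivity) n2)
    exact (abs_nonneg _).trans this
  have hm0 : (0 : ℝ) ≤ m := Nat.cast_nonneg m
  -- the base
  have hnear : ∀ i ∈ I₀, |bt F ω (some i) - bt F ω' (some i)| ≤ 1 / 2 ^ J := by
    intro i hi
    have h1 := congrFun y1 i
    unfold Pool.UNJ.ceI at h1
    rw [if_pos hi, if_pos hi] at h1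
    exact Pool.ALT.fl_eq (by positivity) h1
  have hnone : bt F ω none = bt F ω' none := by
    show (F.T ω : ℝ) / 2 ^ J = (F.T ω' : ℝ) / 2 ^ J
    rw [hT]
  have hmx : ∀ o, |mxi I₀ (bt F ω) (bt F ω') o - bt F ω' o| ≤ 1 / 2 ^ J :=
    mxi_near (by positivity) hnone hnear
  have hsum : ∑ o, |mxi I₀ (bt F ω) (bt F ω') o - bt F ω' o| ≤ (m + 1) * (1 / 2 ^ J) := by
    refine (Finset.sum_le_sum fun o _ => hmx o).trans (le_of_eq ?_)
    rw [Finset.sum_const, Finset.card_univ, Fintype.card_option, Fintype.card_fin, nsmul_eq_mul]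
    push_cast
    ring
  -- the coordinate `u`
  have hdu : |F.x ω' u - F.x ω u| ≤ 3 / 2 ^ PH := by
    have e1 := hH.pos ω hBω
    have e2 := hH.pos ω' hBω'
    rw [← y4] at e2
    have e3 : eval (bt F ω) (H (z₂' (slam F a ω))) =
        eval (mxi I₀ (bt F ω) (bt F ω')) (H (z₂' (slam F a ω))) :=
      hH.dep _ _ _ (mxi_none _ _ _).symm fun i hi => (mxi_some hi _ _).symm
    have e4 : |eval (mxi I₀ (bt F ω) (bt F ω')) (H (z₂' (slam F a ω))) -
        eval (bt F ω') (H (z₂' (slam F a ω)))| ≤ 2 ^ eH * ∑ o, |mxi I₀ (bt F ω) (bt F ω') o -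
          bt F ω' o| := by
      refine ball_mv (R := 1 / 2 ^ ρH) (fun y hy o => ?_) fun o => (hmx o).trans (inv_mono hρH)
      have := hH.lip ω' hBω' y hy o
      rwa [← y4] at this
    have e5 : (2 : ℝ) ^ eH * ∑ o, |mxi I₀ (bt F ω) (bt F ω') o - bt F ω' o| ≤ 1 / 2 ^ PH :=
      (mul_le_mul_of_nonneg_left hsum (by positivity)).trans n1
    have e6 : (3 : ℝ) / 2 ^ PH = 1 / 2 ^ PH + 1 / 2 ^ PH + 1 / 2 ^ PH := by ring
    rw [← e3] at e4
    have f1 := abs_le.1 e1
    have f2 := abs_le.1 e2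
    have f4 := abs_le.1 e4
    rw [e6, abs_le]
    constructor <;> linarith [f1.1, f1.2, f2.1, f2.2, f4.1, f4.2]
  obtain ⟨Δ, hΔ⟩ : ∃ Δ : ℝ, Δ = F.x ω' u - F.x ω u := ⟨_, rfl⟩
  rw [← hΔ] at hdu
  obtain ⟨k, hk⟩ : ∃ k : ℝ, k = ka (kc (slam F W ω)) := ⟨_, rfl⟩
  -- the segment
  have s1 := flat_seg (G (z' (slam F W ω))) (bt F ω) u Δ k (10 * M) fun U hU => by
    have h1 := hflat ω hBω U (hU.trans (hdu.trans n2))
    have h2 := hka ω hBω
    rw [← hk] at h2
    have f1 := abs_le.1 h1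
    have f2 := abs_le.1 h2
    rw [abs_le]
    constructor <;> linarith [f1.1, f1.2, f2.1, f2.2]
  -- the mixed point
  have s2 : eval (fun o => bt F ω o + if o = some u then Δ else 0) (G (z' (slam F W ω))) =
      eval (mxi I₀ (bt F ω) (bt F ω')) (G (z' (slam F W ω))) := by
    refine hG.dep _ _ _ ?_ fun i hi => ?_
    · rw [mxi_none, if_neg (by simp), add_zero]
    · by_cases hiu : i = u
      · rw [hiu, mxi_out hu, if_pos rfl, hΔ]
        show F.x ω u + (F.x ω' u - F.x ω u) = F.x ω' u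
        ring
      · rw [mxi_some ((Finset.mem_insert.1 hi).resolve_left hiu),
          if_neg fun h => hiu (Option.some.inj h), add_zero]
  have s3 : |eval (mxi I₀ (bt F ω) (bt F ω')) (G (z' (slam F W ω))) -
      eval (bt F ω') (G (z' (slam F W ω)))| ≤ 2 ^ e * ((m + 1) * (1 / 2 ^ J)) := by
    refine (ball_mv (R := 1 / 2 ^ ρ) (E := 2 ^ e) (fun y hy o => ?_)
      fun o => (hmx o).trans (inv_mono hρ)).trans (mul_le_mul_of_nonneg_left hsum (by positivity))
    have := hG.lip ω' hBω' y hy o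
    rwa [← y2] at this
  -- the own heights
  have s4 := Pool.ALT.fl_eq hS' y0
  rw [ojet_zero, ojet_zero, ← y2] at s4
  have hkk : ka (kc (slam F W ω')) = k := by rw [hk, y3]
  rw [hkk, ← hk, ← mul_sub, abs_mul, abs_of_pos hS]
  have s5 : |F.x ω κ - k * F.x ω u - (F.x ω' κ - k * F.x ω' u)| ≤
      1 / S' + (2 ^ e * ((m + 1) * (1 / 2 ^ J)) + 10 * M * (3 / 2 ^ PH)) := by
    have t1 : 10 * M * |Δ| ≤ 10 * M * (3 / 2 ^ PH) :=
      mul_le_mul_of_nonneg_left hdu (by positivity)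
    rw [s2] at s1
    obtain ⟨x1, hx1⟩ : ∃ x, x = eval (mxi I₀ (bt F ω) (bt F ω')) (G (z' (slam F W ω))) := ⟨_, rfl⟩
    obtain ⟨x2, hx2⟩ : ∃ x, x = eval (bt F ω) (G (z' (slam F W ω))) := ⟨_, rfl⟩
    obtain ⟨x3, hx3⟩ : ∃ x, x = eval (bt F ω') (G (z' (slam F W ω))) := ⟨_, rfl⟩
    rw [← hx1, ← hx2] at s1
    rw [← hx1, ← hx3] at s3
    rw [← hx2, ← hx3] at s4
    have f1 := abs_le.1 s1
    have f3 := abs_le.1 s3
    have f4 := abs_le.1 s4
    have e9 : F.x ω κ - k * F.x ω u - (F.x ω' κ - k * F.x ω' u) =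
        (F.x ω κ - x2 - (F.x ω' κ - x3)) - (x1 - x2 - k * Δ) + (x1 - x3) := by
      rw [hΔ]
      ring
    rw [e9, abs_le]
    constructor <;> linarith [f1.1, f1.2, f3.1, f3.2, f4.1, f4.2]
  calc S * |F.x ω κ - k * F.x ω u - (F.x ω' κ - k * F.x ω' u)|
      ≤ S * (1 / S' + (2 ^ e * ((m + 1) * (1 / 2 ^ J)) + 10 * M * (3 / 2 ^ PH))) :=
        mul_le_mul_of_nonneg_left s5 hS.le
    _ = S / S' + S * (2 ^ e * ((m + 1) * (1 / 2 ^ J)) + 10 * M * (3 / 2 ^ PH)) := by ring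
    _ ≤ 1 + 1 := add_le_add ((div_le_one hS').2 hSS) n3
    _ = ((2 : ℕ) : ℝ) := by norm_num

end Pool.FLT
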