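import Pool.Agent.H19.FLT.Ev
import Pool.Agent.H19.FLT.Row
import Pool.Agent.H99.GEN.Gr
import Pool.Agent.H60.ALT.Nza

/-!
# The twisted coordinate, for an event

`flat_fin`: the steps for one event: the gradient of the label in the tube of the window, the
derivative in `u` along the lines, its closed value, the digits of the twisted coordinate.
-/

set_option autoImplicit false

namespace Pool.FLT

open Finset Real MvPolynomial
open Pool.Agent.H49.Ent Pool.Agent.H32.Dense Pool.STK Pool.KA Pool.KSAT Pool.K2S Pool.PB Pool.GEN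
open Pool.LA91
open Pool.UNJ (ceI)
open Pool.BFL (Pb)
open Pool.MIC (isLaw_ev ev_pos)

variable {m : ℕ}

/-- The value of the derivative of a label at the code of the point. -/
theorem ppt_val (m D : ℕ) : ∃ C : ℝ, 1 ≤ C ∧ ∀ {J : ℕ} (F : Fam m J) (ω : F.Ω)
    (G : MvPolynomial (Option (Fin m)) ℝ) (u : Fin m) (E : ℝ) (ρ : ℕ), G.totalDegree ≤ D →
    ρ + 1 ≤ J → (∀ b : Option (Fin m) → ℝ, (∀ o, |b o - bt F ω o| ≤ 1 / 2 ^ ρ) → ∀ o,
      |eval b (pderiv o G)| ≤ E) →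
    |eval (ppt F (ptr F J ω)) (pderiv (some u) G) - eval (bt F ω) (pderiv (some u) G)| ≤
      C * E * 2 ^ ρ * (1 / 2 ^ J) := by
  classical
  obtain ⟨C, hC, H⟩ := Pool.GRD.dir_markov (m := m) D
  have hm0 : (0 : ℝ) ≤ m := Nat.cast_nonneg m
  refine ⟨2 * (m + 1) * C, by nlinarith, ?_⟩
  intro J F ω G u E ρ hG hρ hE
  have hE0 : 0 ≤ E := (abs_nonneg _).trans (hE (bt F ω) (fun o => by
    rw [sub_self, abs_zero]
    positivity) none)
  have h1 := ball_mv (G := pderiv (some u) G) (b := bt F ω) (x := ppt F (ptr F J ω))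
    (R := 1 / 2 ^ J) (E := C * E / (1 / 2 ^ (ρ + 1))) (fun y hy o => by
      refine H (pderiv (some u) G) y o (1 / 2 ^ (ρ + 1)) E
        ((Pool.Agent.H50.PW.totalDegree_pderiv_le _ _).trans hG) (by positivity) fun s hs => ?_
      refine hE _ (fun o' => ?_) _
      have h2 : |Function.update y o (y o + s) o' - y o'| ≤ 1 / 2 ^ (ρ + 1) := by
        by_cases ho : o' = o
        · rw [ho, Function.update_self]
          have : y o + s - y o = s := by ring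
          rw [this]
          exact hs
        · rw [Function.update_of_ne ho, sub_self, abs_zero]
          positivity
      have h3 : |y o' - bt F ω o'| ≤ 1 / 2 ^ (ρ + 1) := (hy o').trans (inv_mono hρ)
      have h4 : (1 : ℝ) / 2 ^ (ρ + 1) + 1 / 2 ^ (ρ + 1) = 1 / 2 ^ ρ := by
        rw [pow_succ]
        field_simp
        norm_num
      have f2 := abs_le.1 h2
      have f3 := abs_le.1 h3
      rw [abs_le]
      constructor <;> linarith [f2.1, f2.2, f3.1, f3.2]) (fun o => ppt_near F ω o)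
  refine h1.trans ?_
  have h5 : ∑ o, |ppt F (ptr F J ω) o - bt F ω o| ≤ (m + 1) * (1 / 2 ^ J) := by
    refine (Finset.sum_le_sum fun o _ => ppt_near F ω o).trans (le_of_eq ?_)
    rw [Finset.sum_const, Finset.card_univ, Fintype.card_option, Fintype.card_fin, nsmul_eq_mul]
    push_cast
    ring
  refine (mul_le_mul_of_nonneg_left h5 (by positivity)).trans (le_of_eq ?_)
  rw [pow_succ]
  field_simp

/-- **The steps for one event.** -/
theorem flat_fin (m D Ku : ℕ) : ∃ C₀ : ℝ, 1 ≤ C₀ ∧ ∀ C : ℝ, C₀ ≤ C →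
    ∀ {J : ℕ} (F : Fam m J) (A : F.Ω → Prop)
    (I₀ : Finset (Fin m)) (u κ : Fin m) {V V₂ : Type} (W a e P PH eH ρ ρH : ℕ) (z : PtT F → V)
    (z' : LnT F → V) (G : V → MvPolynomial (Option (Fin m)) ℝ) (z₂ : PtT F → V₂)
    (z₂' : LnT F → V₂) (H : V₂ → MvPolynomial (Option (Fin m)) ℝ)
    (σ s δ η τ L ε₁ M S S' : ℝ), 0 < Pe F.p A → u ∉ I₀ → W ≤ J →
    LbOK F (insert u I₀) κ D e J W ρ P A z z' G →
    LbOK F I₀ u Ku eH J a ρH PH A z₂ z₂' H →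
    0 < σ → 0 < s → s ≤ 1 → 0 < δ → 0 < η → 0 < τ →
    (∀ R : F.Ω → Prop, Sub R A → Pe F.p A ≤ 2 * Pe F.p R → Real.log (3 * D + 1) <
      CH (Pool.Agent.H49.Ent.cond F.p R True) (fun ω => ⌊F.t ω * 2 ^ W / τ⌋) (slam F W)) →
    (∀ B : F.Ω → Prop, Sub B A → Pe F.p A ≤ 2 * Pe F.p B →
      ∃ (𝒞 𝒥 : Type) (Cx : F.Ω → 𝒞) (jc : F.Ω → 𝒥),
      (∀ ω ω', B ω → B ω' → Cx ω = Cx ω' → jc ω = jc ω' → F.T ω = F.T ω' ∧
        z' (slam F W ω) = z' (slam F W ω') ∧ z₂' (slam F a ω) = z₂' (slam F a ω') ∧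
        (∀ i ∈ I₀, |F.x ω i - F.x ω' i| ≤ η ∧ |F.d ω i - F.d ω' i| ≤ η) ∧
        ∀ n, 2 ≤ n → n ≤ D → (1 / 2 ^ W) ^ n * |jet n (G (z' (slam F W ω))) (bt F ω) (bd F ω) -
          jet n (G (z' (slam F W ω))) (bt F ω') (bd F ω')| ≤ δ / 2) ∧
      CH (Pool.Agent.H49.Ent.cond F.p B True) jc Cx ≤ ε₁ ∧
      ∀ R : F.Ω → Prop, Sub R B → Pe F.p B ≤ 2 * Pe F.p R →
        L ≤ CH (Pool.Agent.H49.Ent.cond F.p R True)
          (fun ω => ⌊F.d ω u / (2 * (s * σ * 2 ^ W))⌋) Cx) →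
    Real.log (3 * D + 1) + ε₁ / (1 / 2) < L →
    2 * η ≤ 1 / 2 ^ ρ → 8 * η ≤ 1 / 2 ^ ρH → C * (2 ^ e / τ ^ D) * η ≤ δ →
    2 / 2 ^ PH + C * 2 ^ eH * η ≤ σ → 2 * (2 ^ a / 2 ^ PH) + C * 2 ^ (eH + ρH) * η ≤ σ * 2 ^ W →
    C * δ / s ^ (D * D) / σ ≤ M → ρ + 1 ≤ J → ρH ≤ J → C * 2 ^ e * 2 ^ ρ * (1 / 2 ^ J) ≤ M →
    2 ^ eH * ((m + 1) * (1 / 2 ^ J)) ≤ 1 / (2 : ℝ) ^ PH → 3 / 2 ^ PH ≤ σ → 0 < S → S ≤ S' →
    S * (2 ^ e * ((m + 1) * (1 / 2 ^ J)) + 10 * M * (3 / 2 ^ PH)) ≤ 1 →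
    ∃ B : F.Ω → Prop, Sub B A ∧ Pe F.p A ≤ 8 * Pe F.p B ∧
      ∃ (k : PtT F → ℤ) (k' : LnT F → ℤ) (ka : ℤ → ℝ), (∀ n, |ka n| ≤ 2 ^ e) ∧
        (∀ ω, B ω → k (ptr F J ω) = k' (slam F W ω)) ∧
        ∀ (𝒳 : Type) (xt : F.Ω → 𝒳), CH (Pool.Agent.H49.Ent.cond F.p B True)
          (fun ω => ⌊S * (F.x ω κ - ka (k' (slam F W ω)) * F.x ω u)⌋)
          (fun ω => (xt ω, (ceI I₀ (fun _ => J) (F.x ω),
            ((z' (slam F W ω), (k' (slam F W ω), z₂' (slam F a ω))), F.W ω)))) ≤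
        CH (Pool.Agent.H49.Ent.cond F.p B True)
          (fun ω => ⌊S' * ojet F κ 0 (G (z' (slam F W ω))) ω⌋)
          (fun ω => (xt ω, (ceI I₀ (fun _ => J) (F.x ω),
            ((z' (slam F W ω), (k' (slam F W ω), z₂' (slam F a ω))), F.W ω)))) +
          Real.log 7 := by
  classical
  obtain ⟨B₁, hB₁, H₁⟩ := win_lip D
  obtain ⟨B₂, hB₂, H₂⟩ := flat_ev m D Ku
  obtain ⟨B₃, hB₃, H₃⟩ := ppt_val m D
  have hB12 : 1 ≤ B₁ * B₂ := one_le_mul_of_one_le_of_one_le hB₁ hB₂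
  refine ⟨B₁ * B₂ + B₂ + B₃, by linarith, ?_⟩
  intro C hCd J F A I₀ u κ V V₂ W a e P PH eH ρ ρH z z' G z₂ z₂' H σ s δ η τ L ε₁ M S S' hA hu hWJ hG hH
    hσ hs hs1 hδ hη hτ htime hctx hL n1 n2 n3 n4 n5 n6 n7 n8 n9 n10 n11 hS hSS n12
  have pos_of : ∀ {R : F.Ω → Prop} {c : ℝ}, 0 ≤ c → Pe F.p A ≤ c * Pe F.p R → 0 < Pe F.p R := by
    intro R c hc h
    by_contra hneg
    push Not at hneg
    have := mul_nonpos_of_nonneg_of_nonpos hc hneg
    linarith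
  have key : ∀ (A' : F.Ω → Prop), 0 < Pe F.p A' → ∀ R : F.Ω → Prop,
      1 / 2 ≤ Pb (Pool.Agent.H49.Ent.cond F.p A' True) R →
      cond (Pool.Agent.H49.Ent.cond F.p A' True) R True =
        Pool.Agent.H49.Ent.cond F.p (fun ω => A' ω ∧ R ω) True ∧
      Pe F.p A' ≤ 2 * Pe F.p (fun ω => A' ω ∧ R ω) := by
    intro A' hA' R hR
    refine ⟨cond_part_eq (isLaw_cond F.isLaw hA') R, ?_⟩
    rw [Pb_cond (p := F.p) hA' R, le_div_iff₀ hA'] at hR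
    linarith
  -- the gradient in the tube
  have t1 := H₁ F A W z' G (2 ^ e) (1 / 2 ^ ρ) τ (1 / 2) hA hWJ hG.deg hG.lip hτ (by norm_num)
    fun R hR => by
      obtain ⟨r1, r2⟩ := key A hA R hR
      rw [r1]
      exact htime _ (fun ω h => h.1) r2
  have t2 := Pool.ALT.pe_part F.isLaw.nonneg hA _ t1.le
  obtain ⟨A₁, hA₁⟩ : ∃ A₁ : F.Ω → Prop, A₁ = fun ω => A ω ∧ ¬ ¬ ∀ t : ℝ, |t| ≤ 1 / 2 ^ W →
      ∀ x : Option (Fin m) → ℝ, (∀ o, |x o - (bt F ω o + t * bd F ω o)| ≤ 1 / 2 ^ ρ) → ∀ o,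
      |eval x (pderiv o (G (z' (slam F W ω))))| ≤ B₁ * 2 ^ e / τ ^ D := ⟨_, rfl⟩
  rw [← hA₁] at t2
  have hA₁A : Sub A₁ A := fun ω h => by rw [hA₁] at h; exact h.1
  have t3 : Pe F.p A ≤ 2 * Pe F.p A₁ := by linarith
  have hA₁0 : 0 < Pe F.p A₁ := pos_of (by norm_num) t3
  -- the derivative in `u`
  obtain ⟨𝒞, 𝒥, Cx, jc, c1, c2, c3⟩ := hctx A₁ hA₁A t3
  have hE1 : B₂ * (B₁ * 2 ^ e / τ ^ D) * η ≤ δ := by
    refine le_trans ?_ n3
    have e1 : B₂ * (B₁ * 2 ^ e / τ ^ D) * η = B₁ * B₂ * (2 ^ e / τ ^ D * η) := by ring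
    have e2 : C * (2 ^ e / τ ^ D) * η = C * (2 ^ e / τ ^ D * η) := by ring
    rw [e1, e2]
    exact mul_le_mul_of_nonneg_right (by linarith) (by positivity)
  have hCB₂ : B₂ ≤ C := by linarith
  have hCB₃ : B₃ ≤ C := by linarith
  have t4 := H₂ F A₁ I₀ u W a PH eH ρH z' G z₂ z₂' H Cx jc σ s δ (1 / 2) η
    (B₁ * 2 ^ e / τ ^ D) (1 / 2 ^ ρ) L ε₁ hA₁0 hu hG.deg hG.dep (fun ω hω => by
      rw [hA₁] at hω
      exact not_not.1 hω.2) (hH.sub hA₁A) hσ hs hs1 hδ.le (by norm_num) hη c1 n1 n2 hE1 (by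
      refine le_trans ?_ n4
      have := mul_le_mul_of_nonneg_right hCB₂ (by positivity : (0 : ℝ) ≤ 2 ^ eH * η)
      linarith) (by
      refine le_trans ?_ n5
      have := mul_le_mul_of_nonneg_right hCB₂ (by positivity : (0 : ℝ) ≤ 2 ^ (eH + ρH) * η)
      linarith) c2 (fun R hR hR2 => c3 R hR (by linarith)) hL
  have t5 := Pool.ALT.pe_part F.isLaw.nonneg hA₁0 _ t4.le
  obtain ⟨A₂, hA₂⟩ : ∃ A₂ : F.Ω → Prop, A₂ = fun ω => A₁ ω ∧ ¬ ¬ ∀ t U : ℝ, |t| ≤ 1 / 2 ^ W →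
      |U| ≤ σ → |eval (fun o => bt F ω o + t * bd F ω o + if o = some u then U else 0)
        (pderiv (some u) (G (z' (slam F W ω)))) -
        eval (bt F ω) (pderiv (some u) (G (z' (slam F W ω))))| ≤
        B₂ * δ / s ^ (D * D) / σ := ⟨_, rfl⟩
  rw [← hA₂] at t5
  have hA₂A₁ : Sub A₂ A₁ := fun ω h => by rw [hA₂] at h; exact h.1
  have hA₂A : Sub A₂ A := fun ω h => hA₁A ω (hA₂A₁ ω h)
  have t6 : Pe F.p A ≤ 4 * Pe F.p A₂ := by linarith
  have hA₂0 : 0 < Pe F.p A₂ := pos_of (by norm_num) t6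
  have hM2 : B₂ * δ / s ^ (D * D) / σ ≤ M := by
    refine le_trans ?_ n6
    refine div_le_div_of_nonneg_right (div_le_div_of_nonneg_right
      (mul_le_mul_of_nonneg_right hCB₂ hδ.le) (by positivity)) hσ.le
  have hM0 : 0 < M := lt_of_lt_of_le (by positivity) hM2
  have hfl : ∀ ω, A₂ ω → ∀ t U : ℝ, |t| ≤ 1 / 2 ^ W → |U| ≤ σ →
      |eval (fun o => bt F ω o + t * bd F ω o + if o = some u then U else 0)
        (pderiv (some u) (G (z' (slam F W ω)))) -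
        eval (bt F ω) (pderiv (some u) (G (z' (slam F W ω))))| ≤ M := by
    intro ω hω t U ht hU
    rw [hA₂] at hω
    exact (not_not.1 hω.2 t U ht hU).trans hM2
  -- the closed value
  obtain ⟨B, hBA, hBP, k, k', ka, hka, hkB⟩ := flat_val F A₂ u (W := W) z z' G (M := M)
    (E := 2 ^ e) hA₂0 hWJ hM0 (fun ω hω => hG.cls ω (hA₂A ω hω))
    (fun ω hω => hG.lip ω (hA₂A ω hω) (bt F ω) (fun o => by
      rw [sub_self, abs_zero]
      positivity) _)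
    (fun ω hω t ht => by
      have := hfl ω hω t 0 ht (by rw [abs_zero]; exact hσ.le)
      have e1 : (fun o => bt F ω o + t * bd F ω o + if o = some u then (0 : ℝ) else 0) =
          fun o => bt F ω o + t * bd F ω o := by
        funext o
        rw [ite_self, add_zero]
      rwa [e1] at this)
    (fun ω hω => by
      refine (H₃ F ω _ u (2 ^ e) ρ (hG.deg _) n7 (hG.lip ω (hA₂A ω hω))).trans ?_
      refine le_trans ?_ n9
      have := mul_le_mul_of_nonneg_right hCB₃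
        (by positivity : (0 : ℝ) ≤ 2 ^ e * 2 ^ ρ * (1 / 2 ^ J))
      linarith)
  have hBA' : Sub B A := fun ω h => hA₂A ω (hBA ω h)
  have hB8 : Pe F.p A ≤ 8 * Pe F.p B := by linarith
  refine ⟨B, hBA', hB8, k, k', ka, hka, fun ω hω => (hkB ω hω).1, fun 𝒳 xt => ?_⟩
  refine flat_row F B I₀ u κ z z' G z₂ z₂' H k' ka (σ := σ) (M := M) (pos_of (by norm_num) hB8) hu
    (hG.sub hBA') (hH.sub hBA') (fun ω hω U hU => ?_) (fun ω hω => (hkB ω hω).2) (by omega) n8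
    n10 n11 hS hSS n12 xt
  have := hfl ω (hBA ω hω) 0 U (by rw [abs_zero]; positivity) hU
  have e1 : (fun o => bt F ω o + 0 * bd F ω o + if o = some u then U else 0) =
      fun o => bt F ω o + if o = some u then U else 0 := by
    funext o
    rw [zero_mul, add_zero]
  rwa [e1] at this

end Pool.FLT
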