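import Pool.Agent.H19.FLT.Ev

/-!
# The jets of a label from the code of the own path

`jets_eq`: if two samples of one time and one code of a label have the same digits of the
coefficients of the own path, the higher jets of the label along the two lines are near.
-/

set_option autoImplicit false

namespace Pool.FLT

open Finset Real MvPolynomial
open Pool.Agent.H49.Ent Pool.Agent.H32.Dense Pool.STK Pool.KA Pool.KSAT Pool.K2S Pool.PB Pool.GEN
open Pool.LA91 Pool.OWN68

/-- **The jets of a label** from the code of the own path. -/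
theorem jets_eq (D : ℕ) : ∃ C : ℝ, 1 ≤ C ∧ ∀ {m J : ℕ} (F : Fam m J) (κ : Fin m) {V : Type}
    {W : ℕ} (z' : LnT F → V) (G : V → MvPolynomial (Option (Fin m)) ℝ) {σ : ℝ} {ω ω' : F.Ω},
    W ≤ J → 0 < σ → (∀ v, (G v).totalDegree ≤ D) → F.T ω = F.T ω' →
    z' (slam F W ω) = z' (slam F W ω') →
    (∀ j : Fin (D + 3), ⌊jr F W σ κ z' G j (slam F W ω)⌋ = ⌊jr F W σ κ z' G j (slam F W ω')⌋) →
    ∀ n, 2 ≤ n → n ≤ D → (1 / 2 ^ W) ^ n * |jet n (G (z' (slam F W ω))) (bt F ω) (bd F ω) -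
        jet n (G (z' (slam F W ω))) (bt F ω') (bd F ω')| ≤ C / σ := by
  classical
  obtain ⟨C, hC, hder⟩ := der_small (D + 1)
  refine ⟨C * 2 ^ D, one_le_mul_of_one_le_of_one_le hC (one_le_pow₀ (by norm_num)), ?_⟩
  intro m J F κ V W z' G σ ω ω' hW hσ hG hT hz hj n hn hnD
  have hdeg : ∀ v, (X (some κ) - G v : MvPolynomial (Option (Fin m)) ℝ).totalDegree ≤ D + 1 := by
    intro v
    refine (totalDegree_sub _ _).trans (max_le ?_ ((hG v).trans (Nat.le_succ D)))
    exact (totalDegree_X _).le.trans (by omega)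
  have hu : uw F W ω' = uw F W ω := by
    unfold uw tw
    rw [hT]
  obtain ⟨E, hE⟩ : ∃ E : Polynomial ℝ, E = jR F W σ κ z' G (slam F W ω) -
    jR F W σ κ z' G (slam F W ω') := ⟨_, rfl⟩
  have hEn : E.natDegree ≤ D + 1 := by
    rw [hE]
    exact (Polynomial.natDegree_sub_le _ _).trans (max_le (natDegree_jR hdeg _)
      (natDegree_jR hdeg _))
  have hEc : ∀ i, n ≤ i → |E.coeff i| ≤ 1 := by
    intro i _
    by_cases hi : i ≤ D + 1
    · have h1 := hj ⟨i, by omega⟩
      have h2 : E.coeff i = jr F W σ κ z' G i (slam F W ω) - jr F W σ κ z' G i (slam F W ω') := by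
        rw [hE, Polynomial.coeff_sub]
        rfl
      rw [h2]
      simp only at h1
      have a1 := Int.floor_le (jr F W σ κ z' G i (slam F W ω))
      have a2 := Int.lt_floor_add_one (jr F W σ κ z' G i (slam F W ω))
      have a3 := Int.floor_le (jr F W σ κ z' G i (slam F W ω'))
      have a4 := Int.lt_floor_add_one (jr F W σ κ z' G i (slam F W ω'))
      rw [h1] at a1 a2
      rw [abs_le]
      constructor <;> linarith
    · rw [Polynomial.coeff_eq_zero_of_natDegree_lt (by omega), abs_zero]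
      exact zero_le_one
  have h3 := hder E n (uw F W ω) 1 hEn (uw_abs F W ω) hEc
  rw [hE, Polynomial.iterate_derivative_sub, Polynomial.eval_sub, jR_jet hW] at h3
  have h4 := jR_jet (F := F) (σ := σ) (κ := κ) (zl := z') (G := G) hW ω' n
  rw [hu] at h4
  rw [h4, ojet_two F κ hn, ojet_two F κ hn, ← hz, mul_one] at h3
  obtain ⟨x, hx⟩ : ∃ x, x = jet n (G (z' (slam F W ω))) (bt F ω) (bd F ω) := ⟨_, rfl⟩
  obtain ⟨y, hy⟩ : ∃ y, y = jet n (G (z' (slam F W ω))) (bt F ω') (bd F ω') := ⟨_, rfl⟩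
  rw [← hx, ← hy] at h3 ⊢
  have e1 : σ * (1 / 2 ^ (W + 1)) ^ n * -x - σ * (1 / 2 ^ (W + 1)) ^ n * -y =
      -(σ * (1 / 2 ^ (W + 1)) ^ n * (x - y)) := by ring
  have hp : (0 : ℝ) < σ * (1 / 2 ^ (W + 1)) ^ n := by positivity
  rw [e1, abs_neg, abs_mul, abs_of_pos hp] at h3
  rw [le_div_iff₀ hσ]
  have e2 : (1 / 2 ^ W : ℝ) ^ n = 2 ^ n * (1 / 2 ^ (W + 1)) ^ n := by
    rw [← mul_pow]
    congr 1
    rw [pow_succ]
    field_simp
  have e3 : (2 : ℝ) ^ n ≤ 2 ^ D := pow_le_pow_right₀ (by norm_num) hnD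
  calc (1 / 2 ^ W) ^ n * |x - y| * σ = 2 ^ n * (σ * (1 / 2 ^ (W + 1)) ^ n * |x - y|) := by
        rw [e2]
        ring
    _ ≤ 2 ^ D * C := mul_le_mul e3 h3 (by positivity) (by positivity)
    _ = C * 2 ^ D := by ring

end Pool.FLT
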