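import Pool.Agent.H19.FLT.Det
import Pool.Agent.H46.MIC.Ev

/-!
# Lines with separated velocities, and the derivative of a label, for a law

`sep_fib`: if the velocity is alive given a context on all large events, then off a small mass the
values of the context contain many lines with separated velocities. `flat_law`: then the derivative
of a label along the lines is nearly constant, if the jets of the label along the lines are
functions of the context.
-/

set_option autoImplicit false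

namespace Pool.FLT

open Finset Real MvPolynomial
open Pool.Agent.H49.Ent Pool.Agent.H32.Dense Pool.STK Pool.KA Pool.KSAT Pool.K2S Pool.PB Pool.GEN
open Pool.LA91
open Pool.BFL (Pb)
open Pool.MIC (isLaw_ev ev_pos)

/-- Larger events. -/
theorem Pb_imp {Ω : Type} [Fintype Ω] {p : Ω → ℝ} (hp : ∀ ω, 0 ≤ p ω) {A B : Ω → Prop}
    (h : ∀ ω, 0 < p ω → A ω → B ω) : Pb p A ≤ Pb p B := by
  classical
  unfold Pb
  refine Finset.sum_le_sum fun ω _ => ?_
  rcases (hp ω).eq_or_lt with h0 | h0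
  · rw [← h0]
    split_ifs <;> exact le_rfl
  · by_cases hA : A ω
    · rw [if_pos hA, if_pos (h ω h0 hA)]
    · rw [if_neg hA]
      split_ifs
      · exact hp ω
      · exact le_rfl

/-- **Lines with separated velocities.** -/
theorem sep_fib {Ω 𝒞 : Type} [Fintype Ω] {q : Ω → ℝ} (hq : IsLaw q) (vel : Ω → ℝ) (Cx : Ω → 𝒞)
    (D : ℕ) {s c : ℝ} (hs : 0 < s) (hc : 0 < c)
    (halive : ∀ E : Ω → Prop, c ≤ Pb q E → Real.log (3 * D + 1) <
      CH (cond q E True) (fun ω => ⌊vel ω / s⌋) Cx) :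
    Pb q (fun ω => ¬ ∃ ω' : Fin (D + 1) → Ω, (∀ k, 0 < q (ω' k) ∧ Cx (ω' k) = Cx ω) ∧
      ∀ k l, k ≠ l → s ≤ |vel (ω' k) - vel (ω' l)|) < c := by
  classical
  obtain ⟨E, hE⟩ : ∃ E : Ω → Prop, E = fun ω => ¬ ∃ ω' : Fin (D + 1) → Ω,
    (∀ k, 0 < q (ω' k) ∧ Cx (ω' k) = Cx ω) ∧
      ∀ k l, k ≠ l → s ≤ |vel (ω' k) - vel (ω' l)| := ⟨_, rfl⟩
  rw [← hE]
  by_contra hcon
  push Not at hcon
  have hlt := halive E hcon
  have hEp : 0 < Pb q E := lt_of_lt_of_le hc hcon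
  have hqE := isLaw_ev hq E hEp
  -- the separated sets of one value
  obtain ⟨Sp, hSp⟩ : ∃ Sp : 𝒞 → Finset (Finset Ω), Sp = fun x => (Finset.univ.powerset).filter
    (fun T : Finset Ω => (∀ ω ∈ T, 0 < q ω ∧ Cx ω = x) ∧
      ∀ ω ∈ T, ∀ ω' ∈ T, ω ≠ ω' → s ≤ |vel ω - vel ω'|) := ⟨_, rfl⟩
  have hmem : ∀ (x : 𝒞) (T : Finset Ω), T ∈ Sp x ↔ (∀ ω ∈ T, 0 < q ω ∧ Cx ω = x) ∧
      ∀ ω ∈ T, ∀ ω' ∈ T, ω ≠ ω' → s ≤ |vel ω - vel ω'| := by
    intro x T
    rw [hSp]
    simp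
  have hne : ∀ x, (Sp x).Nonempty := fun x => ⟨∅, (hmem x ∅).2 ⟨by simp, by simp⟩⟩
  have hmax : ∀ x, ∃ T ∈ Sp x, ∀ T' ∈ Sp x, T'.card ≤ T.card := fun x =>
    Finset.exists_max_image (Sp x) Finset.card (hne x)
  obtain ⟨Mx, hMx⟩ := Classical.axiom_of_choice hmax
  obtain ⟨Fs, hFs⟩ : ∃ Fs : 𝒞 → Finset ℤ, Fs = fun x => (Mx x).biUnion
    (fun ω => {⌊vel ω / s⌋ - 1, ⌊vel ω / s⌋, ⌊vel ω / s⌋ + 1}) := ⟨_, rfl⟩
  have hcov : ∀ ω, 0 < cond q E True ω → ⌊vel ω / s⌋ ∈ Fs (Cx ω) := by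
    intro ω hω
    have hω0 := (ev_pos hq.nonneg E hω).1
    obtain ⟨hM1, hM2⟩ := hMx (Cx ω)
    have hM := (hmem _ _).1 hM1
    -- a near element
    have hnear : ∃ τ ∈ Mx (Cx ω), |vel ω - vel τ| < s := by
      by_contra hno
      push Not at hno
      by_cases hin : ω ∈ Mx (Cx ω)
      · have := hno ω hin
        rw [sub_self, abs_zero] at this
        linarith
      have hins : insert ω (Mx (Cx ω)) ∈ Sp (Cx ω) := by
        rw [hmem]
        refine ⟨fun τ hτ => ?_, fun τ hτ τ' hτ' hne' => ?_⟩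
        · rcases Finset.mem_insert.1 hτ with h | h
          · rw [h]
            exact ⟨hω0, rfl⟩
          · exact hM.1 τ h
        · rcases Finset.mem_insert.1 hτ with h | h
          · rcases Finset.mem_insert.1 hτ' with h' | h'
            · exact absurd (h.trans h'.symm) hne'
            · rw [h]
              exact hno τ' h'
          · rcases Finset.mem_insert.1 hτ' with h' | h'
            · rw [h', abs_sub_comm]
              exact hno τ h
            · exact hM.2 τ h τ' h' hne'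
      have := hM2 _ hins
      rw [Finset.card_insert_of_notMem hin] at this
      omega
    obtain ⟨τ, hτ, hτs⟩ := hnear
    rw [hFs]
    refine Finset.mem_biUnion.2 ⟨τ, hτ, ?_⟩
    have h1 : |vel ω / s - vel τ / s| < 1 := by
      rw [← sub_div, abs_div, abs_of_pos hs, div_lt_one hs]
      exact hτs
    have h2 := abs_lt.1 h1
    have f1 := Int.floor_le (vel ω / s)
    have f2 := Int.lt_floor_add_one (vel ω / s)
    have f3 := Int.floor_le (vel τ / s)
    have f4 := Int.lt_floor_add_one (vel τ / s)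
    have g1 : ((⌊vel ω / s⌋ : ℤ) : ℝ) < ((⌊vel τ / s⌋ + 2 : ℤ) : ℝ) := by
      push_cast
      linarith
    have g2 : ((⌊vel τ / s⌋ - 2 : ℤ) : ℝ) < ((⌊vel ω / s⌋ : ℤ) : ℝ) := by
      push_cast
      linarith
    have g1' : ⌊vel ω / s⌋ < ⌊vel τ / s⌋ + 2 := by exact_mod_cast g1
    have g2' : ⌊vel τ / s⌋ - 2 < ⌊vel ω / s⌋ := by exact_mod_cast g2
    simp only [Finset.mem_insert, Finset.mem_singleton]
    omega
  have hcard : ∀ ω, 0 < cond q E True ω → ((Fs (Cx ω)).card : ℝ) ≤ 3 * D + 1 := by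
    intro ω hω
    obtain ⟨hω0, hωE⟩ := ev_pos hq.nonneg E hω
    obtain ⟨hM1, hM2⟩ := hMx (Cx ω)
    have hM := (hmem _ _).1 hM1
    have h1 : (Mx (Cx ω)).card ≤ D := by
      by_contra hbig
      push Not at hbig
      rw [hE] at hωE
      apply hωE
      obtain ⟨T, hT, hTc⟩ := Finset.exists_subset_card_eq (s := Mx (Cx ω)) (n := D + 1) (by omega)
      have e := T.equivFinOfCardEq hTc
      refine ⟨fun k => (e.symm k : Ω), fun k => hM.1 _ (hT (e.symm k).2), fun k l hkl => ?_⟩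
      refine hM.2 _ (hT (e.symm k).2) _ (hT (e.symm l).2) fun h => hkl ?_
      have := e.symm.injective (Subtype.ext h)
      exact this
    have h2 : (Fs (Cx ω)).card ≤ (Mx (Cx ω)).card * 3 := by
      rw [hFs]
      refine Finset.card_biUnion_le_card_mul _ _ 3 fun τ _ => ?_
      exact (Finset.card_insert_le _ _).trans (Nat.succ_le_succ
        ((Finset.card_insert_le _ _).trans (by rw [Finset.card_singleton])))
    have h3 : (Fs (Cx ω)).card ≤ 3 * D + 1 := by omega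
    exact_mod_cast h3
  have h4 := CH_le_card hqE.nonneg hqE.sum_one (fun ω => ⌊vel ω / s⌋) Cx Fs hcov
  have h5 : CH (cond q E True) (fun ω => ⌊vel ω / s⌋) Cx ≤ Real.log (3 * D + 1) := by
    refine h4.trans ?_
    refine (Ex_mono hqE.nonneg (g := fun _ => Real.log (3 * D + 1)) fun ω hω => ?_).trans
      (Ex_const hqE.sum_one _).le
    refine Real.log_le_log ?_ (hcard ω hω)
    have : 0 < (Fs (Cx ω)).card := Finset.card_pos.2 ⟨_, hcov ω hω⟩
    exact_mod_cast this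
  linarith

variable {m J : ℕ}

/-- The point `b` with the coordinate `u` of `b'`. -/
noncomputable def mxu (u : Fin m) (b b' : Option (Fin m) → ℝ) (o : Option (Fin m)) : ℝ :=
  if o = some u then b' o else b o

/-- **The derivative of a label along the lines**, for a law. -/
theorem flat_law (D : ℕ) : ∃ B : ℝ, 1 ≤ B ∧ ∀ {m J : ℕ} (F : Fam m J) (q : F.Ω → ℝ) (u : Fin m)
    (Gc : F.Ω → MvPolynomial (Option (Fin m)) ℝ) {𝒞 : Type} (Cx : F.Ω → 𝒞) (r σ s δ c : ℝ),
    IsLaw q → 0 < r → 0 < σ → 0 < s → s ≤ 1 → 0 ≤ δ → 0 < c →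
    (∀ ω, 0 < q ω → (Gc ω).totalDegree ≤ D) →
    (∀ ω ω', 0 < q ω → 0 < q ω' → Cx ω' = Cx ω → |F.x ω' u - F.x ω u| ≤ σ ∧
      r * |F.d ω' u - F.d ω u| ≤ σ ∧ ∀ n, 2 ≤ n → n ≤ D →
      r ^ n * |jet n (Gc ω) (mxu u (bt F ω) (bt F ω')) (mxu u (bd F ω) (bd F ω')) -
        jet n (Gc ω) (bt F ω) (bd F ω)| ≤ δ) →
    (∀ E : F.Ω → Prop, c ≤ Pb q E → Real.log (3 * D + 1) <
      CH (cond q E True) (fun ω => ⌊F.d ω u / (s * σ / r)⌋) Cx) →
    Pb q (fun ω => ¬ ∀ t U : ℝ, |t| ≤ r → |U| ≤ σ →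
      |eval (fun o => bt F ω o + t * bd F ω o + if o = some u then U else 0)
        (pderiv (some u) (Gc ω)) - eval (bt F ω) (pderiv (some u) (Gc ω))| ≤
        B * δ / s ^ (D * D) / σ) < c := by
  classical
  obtain ⟨B, hB, H⟩ := flat_jet D
  refine ⟨B, hB, ?_⟩
  intro m J F q u Gc 𝒞 Cx r σ s δ c hq hr hσ hs hs1 hδ hc hdeg hfib halive
  have h1 := sep_fib hq (fun ω => F.d ω u) Cx D (s := s * σ / r) (by positivity) hc halive
  refine lt_of_le_of_lt ?_ h1
  refine Pb_imp hq.nonneg fun ω hω hbad => ?_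
  intro hex
  apply hbad
  obtain ⟨ω', h2, h3⟩ := hex
  intro t U ht hU
  refine H (Gc ω) u (bt F ω) (bd F ω) (fun k => mxu u (bt F ω) (bt F (ω' k)))
    (fun k => mxu u (bd F ω) (bd F (ω' k))) (fun n => jet n (Gc ω) (bt F ω) (bd F ω)) r σ s δ
    (hdeg ω hω) hr hσ hs hs1 hδ (fun k o ho => ?_) (fun k => ?_) (fun k => ?_) (fun k l hkl => ?_)
    (fun k n hn hnD => (hfib ω (ω' k) hω (h2 k).1 (h2 k).2).2.2 n hn hnD) t U ht hU
  · unfold mxu
    rw [if_neg ho, if_neg ho]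
    exact ⟨rfl, rfl⟩
  · have := (hfib ω (ω' k) hω (h2 k).1 (h2 k).2).1
    unfold mxu
    rw [if_pos rfl]
    exact this
  · have := (hfib ω (ω' k) hω (h2 k).1 (h2 k).2).2.1
    unfold mxu
    rw [if_pos rfl]
    exact this
  · have h4 := h3 k l hkl
    unfold mxu
    rw [if_pos rfl, if_pos rfl]
    have h5 : s * σ / r ≤ |bd F (ω' k) (some u) - bd F (ω' l) (some u)| := h4
    rw [div_le_iff₀ hr] at h5
    linarith

end Pool.FLT
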