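import Pool.Agent.H19.FLT.Law
import Pool.Agent.H91.LA.Nat

/-!
# The gradient of a label along the lines of a window

`win_lip`: if the gradient of a label which is a function of the window of the line is bounded near
the points of the event, and the time is alive given the window of the line, then it is bounded in a
tube around the line, on the whole window.
-/

set_option autoImplicit false

namespace Pool.FLT

open Finset Real MvPolynomial
open Pool.Agent.H49.Ent Pool.Agent.H32.Dense Pool.STK Pool.KA Pool.KSAT Pool.K2S Pool.PB Pool.GEN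
open Pool.LA91
open Pool.BFL (Pb)

variable {m : ℕ}

/-- The points of a line of a window. -/
theorem slam_pt {J : ℕ} (F : Fam m J) {W : ℕ} {ω ω' : F.Ω} (h : slam F W ω' = slam F W ω) :
    (∀ o, bd F ω' o = bd F ω o) ∧ ∀ o, bt F ω' o = bt F ω o + (F.t ω' - F.t ω) * bd F ω o := by
  have h1 : F.u ω' = F.u ω := congrArg (fun x => x.1.1) h
  have h2 : F.d ω' = F.d ω := congrArg (fun x => x.1.2) h
  refine ⟨fun o => ?_, fun o => ?_⟩
  · cases o with
    | none => rfl
    | some i =>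
      show F.d ω' i = F.d ω i
      rw [h2]
  · cases o with
    | none =>
      show F.t ω' = F.t ω + (F.t ω' - F.t ω) * 1
      ring
    | some i =>
      show F.u ω' i + F.t ω' * F.d ω' i = F.u ω i + F.t ω * F.d ω i + (F.t ω' - F.t ω) * F.d ω i
      rw [h1, h2]
      ring

/-- The times of the samples of a window. -/
theorem slam_time {J : ℕ} (F : Fam m J) {W : ℕ} (hW : W ≤ J) {ω ω' : F.Ω}
    (h : slam F W ω' = slam F W ω) : |F.t ω' - F.t ω| ≤ 1 / 2 ^ W := by
  have h1 : F.T ω' / 2 ^ (J - W) = F.T ω / 2 ^ (J - W) := congrArg (fun x => x.2.2) h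
  have hpos : 0 < 2 ^ (J - W) := by positivity
  have e1 := Nat.div_add_mod (F.T ω') (2 ^ (J - W))
  have e2 := Nat.div_add_mod (F.T ω) (2 ^ (J - W))
  have e3 := Nat.mod_lt (F.T ω') hpos
  have e4 := Nat.mod_lt (F.T ω) hpos
  rw [h1] at e1
  have e5 : (F.T ω' : ℝ) - F.T ω ≤ 2 ^ (J - W) := by
    have : F.T ω' ≤ F.T ω + 2 ^ (J - W) := by omega
    have h2 : ((F.T ω' : ℕ) : ℝ) ≤ ((F.T ω + 2 ^ (J - W) : ℕ) : ℝ) := by exact_mod_cast this
    push_cast at h2
    linarith
  have e6 : (F.T ω : ℝ) - F.T ω' ≤ 2 ^ (J - W) := by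
    have : F.T ω ≤ F.T ω' + 2 ^ (J - W) := by omega
    have h2 : ((F.T ω : ℕ) : ℝ) ≤ ((F.T ω' + 2 ^ (J - W) : ℕ) : ℝ) := by exact_mod_cast this
    push_cast at h2
    linarith
  have e7 : F.t ω' - F.t ω = ((F.T ω' : ℝ) - F.T ω) / 2 ^ J := by
    show (F.T ω' : ℝ) / 2 ^ J - (F.T ω : ℝ) / 2 ^ J = _
    ring
  rw [e7, abs_div, abs_of_pos (by positivity : (0 : ℝ) < 2 ^ J), div_le_div_iff₀ (by positivity)
    (by positivity), one_mul]
  have e8 : (2 : ℝ) ^ J = 2 ^ (J - W) * 2 ^ W := by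
    rw [← pow_add]
    congr 1
    omega
  rw [e8]
  exact mul_le_mul_of_nonneg_right (abs_le.2 ⟨by linarith, e5⟩) (by positivity)

/-- **The gradient of a label in a tube around the line of a window.** -/
theorem win_lip (D : ℕ) : ∃ B : ℝ, 1 ≤ B ∧ ∀ {m J : ℕ} (F : Fam m J) (A : F.Ω → Prop)
    {V : Type} (W : ℕ) (z' : LnT F → V) (G : V → MvPolynomial (Option (Fin m)) ℝ)
    (E ρ τ c : ℝ), 0 < Pe F.p A → W ≤ J → (∀ v, (G v).totalDegree ≤ D) →
    (∀ ω, A ω → ∀ b : Option (Fin m) → ℝ, (∀ o, |b o - bt F ω o| ≤ ρ) → ∀ o,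
      |eval b (pderiv o (G (z' (slam F W ω))))| ≤ E) → 0 < τ → 0 < c →
    (∀ R : F.Ω → Prop, c ≤ Pb (Pool.Agent.H49.Ent.cond F.p A True) R → Real.log (3 * D + 1) <
      CH (cond (Pool.Agent.H49.Ent.cond F.p A True) R True)
        (fun ω => ⌊F.t ω * 2 ^ W / τ⌋) (slam F W)) →
    Pb (Pool.Agent.H49.Ent.cond F.p A True) (fun ω => ¬ ∀ t : ℝ, |t| ≤ 1 / 2 ^ W →
      ∀ x : Option (Fin m) → ℝ, (∀ o, |x o - (bt F ω o + t * bd F ω o)| ≤ ρ) → ∀ o,
      |eval x (pderiv o (G (z' (slam F W ω))))| ≤ B * E / τ ^ D) < c := by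
  classical
  refine ⟨(D + 1) * ((D + 1) * 2 ^ D), ?_, ?_⟩
  · have h1 : (1 : ℝ) ≤ D + 1 := by
      have : (0 : ℝ) ≤ D := Nat.cast_nonneg D
      linarith
    exact one_le_mul_of_one_le_of_one_le h1 (one_le_mul_of_one_le_of_one_le h1
      (one_le_pow₀ (by norm_num)))
  intro m J F A V W z' G E ρ τ c hA hW hGd hGl hτ hc halive
  have hq := isLaw_cond F.isLaw hA
  have h1 := sep_fib hq (fun ω => F.t ω * 2 ^ W) (slam F W) D hτ hc halive
  refine lt_of_le_of_lt ?_ h1
  refine Pb_imp hq.nonneg fun ω hω hbad hex => ?_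
  apply hbad
  obtain ⟨ω', h2, h3⟩ := hex
  intro t ht x hx o
  have hW0 : (0 : ℝ) < 2 ^ W := by positivity
  -- the polynomial of the time
  obtain ⟨q, hqd⟩ : ∃ q : Polynomial ℝ, q = aeval (lp (fun o => x o - t * bd F ω o)
    (fun o => bd F ω o / 2 ^ W)) (pderiv o (G (z' (slam F W ω)))) := ⟨_, rfl⟩
  have hqn : q.natDegree ≤ D := by
    rw [hqd]
    refine natDegree_alp ?_ _ _
    exact (Pool.Agent.H50.PW.totalDegree_pderiv_le _ _).trans (hGd _)
  have hqe : ∀ s : ℝ, q.eval s = eval (fun o => x o - t * bd F ω o + s * (bd F ω o / 2 ^ W))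
      (pderiv o (G (z' (slam F W ω)))) := by
    intro s
    rw [hqd, eval_alp]
  have hE0 : 0 ≤ E := by
    have := hGl ω (of_cond_pos hω) (bt F ω) (fun o => by
      rw [sub_self, abs_zero]
      exact (abs_nonneg _).trans (hx o)) o
    exact (abs_nonneg _).trans this
  have hcoef := fun n => lag_coeff (fun k => (F.t (ω' k) - F.t ω) * 2 ^ W) hτ (fun k => by
      rw [abs_mul, abs_of_pos hW0]
      have := slam_time F hW (h2 k).2
      rw [le_div_iff₀ hW0] at this
      exact this) (fun k l hkl => by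
      have := h3 k l hkl
      have e1 : (F.t (ω' k) - F.t ω) * 2 ^ W - (F.t (ω' l) - F.t ω) * 2 ^ W =
        F.t (ω' k) * 2 ^ W - F.t (ω' l) * 2 ^ W := by ring
      rw [e1]
      exact this) q hqn (ε := E) (fun k => by
      rw [hqe]
      obtain ⟨g1, g2⟩ := slam_pt F (h2 k).2
      have := hGl (ω' k) (of_cond_pos (h2 k).1) (fun o => x o - t * bd F ω o +
        (F.t (ω' k) - F.t ω) * 2 ^ W * (bd F ω o / 2 ^ W)) (fun o => by
          have e1 : x o - t * bd F ω o + (F.t (ω' k) - F.t ω) * 2 ^ W * (bd F ω o / 2 ^ W) -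
            bt F (ω' k) o = x o - (bt F ω o + t * bd F ω o) := by
            rw [g2 o]
            field_simp
            ring
          rw [e1]
          exact hx o) o
      rw [(h2 k).2] at this
      exact this) n
  have ht1 : |t * 2 ^ W| ≤ 1 := by
    rw [abs_mul, abs_of_pos hW0]
    rw [le_div_iff₀ hW0] at ht
    exact ht
  have e2 : eval x (pderiv o (G (z' (slam F W ω)))) = q.eval (t * 2 ^ W) := by
    rw [hqe]
    congr 2
    funext o'
    field_simp
    ring
  rw [e2, Polynomial.eval_eq_sum_range' (Nat.lt_succ_of_le hqn)]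
  refine (Finset.abs_sum_le_sum_abs _ _).trans ?_
  have h4 : ∀ n ∈ range (D + 1), |q.coeff n * (t * 2 ^ W) ^ n| ≤
      (D + 1) * (2 ^ D / τ ^ D) * E := by
    intro n _
    rw [abs_mul, abs_pow]
    calc |q.coeff n| * |t * 2 ^ W| ^ n ≤ |q.coeff n| * 1 :=
          mul_le_mul_of_nonneg_left (pow_le_one₀ (abs_nonneg _) ht1) (abs_nonneg _)
      _ ≤ (D + 1) * (2 ^ D / τ ^ D) * E := by
          rw [mul_one]
          exact hcoef n
  refine (Finset.sum_le_sum h4).trans (le_of_eq ?_)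
  rw [Finset.sum_const, Finset.card_range, nsmul_eq_mul]
  push_cast
  ring

end Pool.FLT
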