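import Pool.Agent.H19.FLT.Alg

/-!
# A polynomial with the same values along separated curves

Let `g` be a polynomial in `(t, y)` of degree at most `D`, and let `g (t, y k (t))` be near one
function of the time for `D + 1` curves of degree at most `n` with mutual distances at least `ρ`
(at some time) and at distance at most `R` from a curve `y₀`. Then the derivative of `g` in `y` is
small near `y₀`, at all times.
-/

set_option autoImplicit false

namespace Pool.FLT

open Finset Polynomial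

/-! ### One variable -/

/-- The values of a polynomial on the unit interval from its coefficients. -/
theorem eval_of_coeff {D : ℕ} {q : ℝ[X]} (hq : q.natDegree ≤ D) {A : ℝ}
    (hA : ∀ n, |q.coeff n| ≤ A) {t : ℝ} (ht : |t| ≤ 1) : |q.eval t| ≤ (D + 1) * A := by
  rw [eval_eq_sum_range' (Nat.lt_succ_of_le hq)]
  refine (Finset.abs_sum_le_sum_abs _ _).trans ?_
  have h3 : ∀ i ∈ Finset.range (D + 1), |q.coeff i * t ^ i| ≤ A := by
    intro i _
    rw [abs_mul, abs_pow]
    calc |q.coeff i| * |t| ^ i ≤ A * 1 :=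
          mul_le_mul (hA i) (pow_le_one₀ (abs_nonneg _) ht) (by positivity)
            ((abs_nonneg _).trans (hA i))
      _ = A := mul_one A
  refine (Finset.sum_le_sum h3).trans (le_of_eq ?_)
  rw [Finset.sum_const, Finset.card_range, nsmul_eq_mul]
  push_cast
  ring

/-- The values of a polynomial on the unit interval from its values at separated points. -/
theorem lag_bd {D : ℕ} (v : Fin (D + 1) → ℝ) {s ε : ℝ} (hs : 0 < s)
    (hv : ∀ i, |v i| ≤ 1) (hsep : ∀ i j, i ≠ j → s ≤ |v i - v j|) (q : ℝ[X])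
    (hq : q.natDegree ≤ D) (hε : ∀ i, |q.eval (v i)| ≤ ε) {t : ℝ} (ht : |t| ≤ 1) :
    |q.eval t| ≤ (D + 1) * ((D + 1) * (2 ^ D / s ^ D) * ε) :=
  eval_of_coeff hq (lag_coeff v hs hv hsep q hq hε) ht

/-- The points of the grid. -/
noncomputable def gpt (N : ℕ) (i : Fin N) : ℝ := ((i : ℝ) + 1) / N

theorem gpt_pos {N : ℕ} (i : Fin N) : 0 < gpt N i := by
  have : (0 : ℝ) < N := by exact_mod_cast i.pos
  unfold gpt
  positivity

theorem gpt_le {N : ℕ} (i : Fin N) : gpt N i ≤ 1 := by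
  have h : (0 : ℝ) < N := by exact_mod_cast i.pos
  unfold gpt
  rw [div_le_one h]
  exact_mod_cast i.isLt

theorem gpt_abs {N : ℕ} (i : Fin N) : |gpt N i| ≤ 1 := by
  rw [abs_of_pos (gpt_pos i)]
  exact gpt_le i

theorem gpt_sep {N : ℕ} {i j : Fin N} (hij : i ≠ j) : 1 / (N : ℝ) ≤ |gpt N i - gpt N j| := by
  have h : (0 : ℝ) < N := by exact_mod_cast i.pos
  have e : gpt N i - gpt N j = ((i : ℝ) - j) / N := by
    unfold gpt
    ring
  rw [e, abs_div, abs_of_pos h]
  refine div_le_div_of_nonneg_right ?_ h.le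
  have h1 : (i : ℤ) - (j : ℤ) ≠ 0 := by
    intro h2
    refine hij (Fin.ext ?_)
    omega
  have h2 : (1 : ℤ) ≤ |(i : ℤ) - (j : ℤ)| := Int.one_le_abs h1
  exact_mod_cast h2

/-- A polynomial which is small at many points of a grid. -/
theorem grid_bd {D N : ℕ} {S : Finset (Fin N)} (hS : D + 1 ≤ S.card) {q : ℝ[X]}
    (hq : q.natDegree ≤ D) {ε : ℝ} (hε : ∀ i ∈ S, |q.eval (gpt N i)| ≤ ε) {t : ℝ} (ht : |t| ≤ 1) :
    |q.eval t| ≤ (D + 1) * ((D + 1) * (2 * N) ^ D * ε) := by
  classical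
  obtain ⟨S', hS', hc⟩ := Finset.exists_subset_card_eq hS
  have e := S'.equivFinOfCardEq hc
  have hN : (0 : ℝ) < N := by exact_mod_cast (e.symm 0).1.pos
  have h := lag_bd (fun i => gpt N (e.symm i).1) (s := 1 / N) (by positivity)
    (fun i => gpt_abs _) (fun i j hij => gpt_sep fun h => hij (e.symm.injective (Subtype.ext h)))
    q hq (fun i => hε _ (hS' (e.symm i).2)) ht
  refine h.trans (le_of_eq ?_)
  rw [one_div, inv_pow, div_inv_eq_mul, mul_pow]

/-! ### The curves -/

/-- The polynomial along a curve. -/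
noncomputable def cvp (g : MvPolynomial (Fin 2) ℝ) (y : ℝ[X]) : ℝ[X] :=
  MvPolynomial.aeval ![X, y] g

theorem cvp_eval (g : MvPolynomial (Fin 2) ℝ) (y : ℝ[X]) (t : ℝ) :
    (cvp g y).eval t = MvPolynomial.eval ![t, y.eval t] g := by
  unfold cvp
  rw [MvPolynomial.aeval_def, MvPolynomial.eval₂_eq', MvPolynomial.eval_eq', eval_finsetSum]
  refine Finset.sum_congr rfl fun d _ => ?_
  rw [Fin.prod_univ_two, Fin.prod_univ_two]
  simp only [eval_mul, eval_pow, eval_X, Matrix.cons_val_zero, Matrix.cons_val_one,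
    Polynomial.algebraMap_eq, eval_C]

theorem cvp_deg {g : MvPolynomial (Fin 2) ℝ} {y : ℝ[X]} {D n : ℕ} (hg : g.totalDegree ≤ D)
    (hy : y.natDegree ≤ n) : (cvp g y).natDegree ≤ D * (n + 1) := by
  unfold cvp
  rw [MvPolynomial.aeval_def, MvPolynomial.eval₂_eq']
  refine natDegree_sum_le_of_forall_le _ _ fun d hd => ?_
  rw [Fin.prod_univ_two, Polynomial.algebraMap_eq]
  simp only [Matrix.cons_val_zero, Matrix.cons_val_one]
  have h1 : d 0 + d 1 ≤ D := by
    refine le_trans ?_ ((MvPolynomial.le_totalDegree hd).trans hg)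
    rw [Finsupp.sum_fintype _ _ fun _ => rfl, Fin.sum_univ_two]
  have h2 : (X ^ (d 0) : ℝ[X]).natDegree ≤ d 0 := natDegree_X_pow_le _
  have h3 : (y ^ (d 1)).natDegree ≤ d 1 * n :=
    natDegree_pow_le.trans (Nat.mul_le_mul_left _ hy)
  calc _ ≤ (C (MvPolynomial.coeff d g)).natDegree + (X ^ (d 0) * y ^ (d 1) : ℝ[X]).natDegree :=
        natDegree_mul_le
    _ ≤ 0 + (d 0 + d 1 * n) := by
        refine add_le_add (le_of_eq (natDegree_C _)) ?_
        exact natDegree_mul_le.trans (add_le_add h2 h3)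
    _ ≤ D * (n + 1) := by nlinarith

/-- The polynomial in the fibre over a time. -/
noncomputable def vsp (g : MvPolynomial (Fin 2) ℝ) (t b R : ℝ) : ℝ[X] :=
  MvPolynomial.aeval ![C t, C b + C R * X] g

theorem vsp_eval (g : MvPolynomial (Fin 2) ℝ) (t b R U : ℝ) :
    (vsp g t b R).eval U = MvPolynomial.eval ![t, b + R * U] g := by
  unfold vsp
  rw [MvPolynomial.aeval_def, MvPolynomial.eval₂_eq', MvPolynomial.eval_eq', eval_finsetSum]
  refine Finset.sum_congr rfl fun d _ => ?_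
  rw [Fin.prod_univ_two, Fin.prod_univ_two]
  simp only [eval_mul, eval_pow, eval_X, Matrix.cons_val_zero, Matrix.cons_val_one,
    Polynomial.algebraMap_eq, eval_C, eval_add]

theorem vsp_deg {g : MvPolynomial (Fin 2) ℝ} {D : ℕ} (hg : g.totalDegree ≤ D) (t b R : ℝ) :
    (vsp g t b R).natDegree ≤ D := by
  unfold vsp
  rw [MvPolynomial.aeval_def, MvPolynomial.eval₂_eq']
  refine natDegree_sum_le_of_forall_le _ _ fun d hd => ?_
  rw [Fin.prod_univ_two, Polynomial.algebraMap_eq]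
  simp only [Matrix.cons_val_zero, Matrix.cons_val_one]
  have h1 : d 0 + d 1 ≤ D := by
    refine le_trans ?_ ((MvPolynomial.le_totalDegree hd).trans hg)
    rw [Finsupp.sum_fintype _ _ fun _ => rfl, Fin.sum_univ_two]
  have h0 : (C b + C R * X : ℝ[X]).natDegree ≤ 1 :=
    (natDegree_add_le _ _).trans (max_le ((natDegree_C _).le.trans (Nat.zero_le _))
      ((natDegree_C_mul_le _ _).trans natDegree_X_le))
  have h2 : ((C t) ^ (d 0) : ℝ[X]).natDegree ≤ 0 := by
    rw [← C_pow]
    exact (natDegree_C _).le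
  have h3 : ((C b + C R * X : ℝ[X]) ^ (d 1)).natDegree ≤ d 1 * 1 :=
    natDegree_pow_le.trans (Nat.mul_le_mul_left _ h0)
  calc _ ≤ (C (MvPolynomial.coeff d g)).natDegree +
        ((C t) ^ (d 0) * (C b + C R * X) ^ (d 1) : ℝ[X]).natDegree := natDegree_mul_le
    _ ≤ 0 + (0 + d 1 * 1) := by
        refine add_le_add (le_of_eq (natDegree_C _)) ?_
        exact natDegree_mul_le.trans (add_le_add h2 h3)
    _ ≤ D := by omega

theorem vsp_der (g : MvPolynomial (Fin 2) ℝ) (t b R : ℝ) :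
    derivative (vsp g t b R) = C R * vsp (MvPolynomial.pderiv 1 g) t b R := by
  unfold vsp
  induction g using MvPolynomial.induction_on with
  | C a => simp
  | add p q hp hq =>
    simp only [map_add, hp, hq, mul_add]
  | mul_X p k hp =>
    fin_cases k
    · simp only [map_mul, MvPolynomial.aeval_X, derivative_mul, hp, Derivation.leibniz,
        MvPolynomial.pderiv_X, smul_eq_mul, map_add]
      simp
      ring
    · simp only [map_mul, MvPolynomial.aeval_X, derivative_mul, hp, Derivation.leibniz,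
        MvPolynomial.pderiv_X, smul_eq_mul, map_add]
      simp
      ring

/-- A polynomial which is somewhere large is small at few points of a grid. -/
theorem bad_le {n N : ℕ} {q : ℝ[X]} (hq : q.natDegree ≤ n) {ρ ε : ℝ}
    (hρ : ∃ t : ℝ, |t| ≤ 1 ∧ ρ ≤ |q.eval t|)
    (hε : (n + 1) * ((n + 1) * (2 * N) ^ n * ε) < ρ) :
    (Finset.univ.filter fun i : Fin N => |q.eval (gpt N i)| ≤ ε).card ≤ n := by
  classical
  by_contra hcon
  push Not at hcon
  obtain ⟨t, ht, h1⟩ := hρ
  have h2 := grid_bd (Nat.succ_le_of_lt hcon) hq (ε := ε)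
    (fun i hi => (Finset.mem_filter.1 hi).2) ht
  linarith

/-- **A polynomial with the same values along separated curves** has a small derivative across
the curves. -/
theorem near_alg (D n : ℕ) : ∃ C : ℝ, 1 ≤ C ∧ ∀ (g : MvPolynomial (Fin 2) ℝ)
    (y : Fin (D + 1) → ℝ[X]) (y₀ : ℝ[X]) (f : ℝ → ℝ) (R ρ ε : ℝ), g.totalDegree ≤ D →
    (∀ k, (y k).natDegree ≤ n) → y₀.natDegree ≤ n → 0 < ρ → ρ ≤ R →
    (∀ k, ∀ t : ℝ, |t| ≤ 1 → |(y k).eval t - y₀.eval t| ≤ R) →
    (∀ k l, k ≠ l → ∃ t : ℝ, |t| ≤ 1 ∧ ρ ≤ |(y k).eval t - (y l).eval t|) →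
    (∀ k, ∀ t : ℝ, |t| ≤ 1 → |MvPolynomial.eval ![t, (y k).eval t] g - f t| ≤ ε) →
    ∀ t U : ℝ, |t| ≤ 1 → |U| ≤ R →
      |MvPolynomial.eval ![t, y₀.eval t + U] g - MvPolynomial.eval ![t, y₀.eval t] g| ≤
        C * ε * (R / ρ) ^ D ∧
      |MvPolynomial.eval ![t, y₀.eval t + U] (MvPolynomial.pderiv 1 g)| ≤
        C * (ε / R) * (R / ρ) ^ D := by
  classical
  -- the grid
  obtain ⟨N, hN⟩ : ∃ N : ℕ, N = n * (D + 1) ^ 2 + D * (n + 1) + 1 := ⟨_, rfl⟩
  have hN0 : (0 : ℝ) < N := by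
    rw [hN]
    positivity
  obtain ⟨A, hA⟩ : ∃ A : ℝ, A = 2 * ((n + 1) * ((n + 1) * (2 * N) ^ n)) := ⟨_, rfl⟩
  have hA0 : 0 < A := by
    rw [hA]
    positivity
  obtain ⟨B, hB⟩ : ∃ B : ℝ, B = (D + 1) * ((D + 1) * (2 ^ D * A ^ D)) := ⟨_, rfl⟩
  have hB0 : 0 < B := by
    rw [hB]
    positivity
  obtain ⟨M, hM⟩ : ∃ M : ℝ, M = ((D * (n + 1) : ℕ) + 1) *
      (((D * (n + 1) : ℕ) + 1) * (2 * N) ^ (D * (n + 1)) * (2 * B)) := ⟨_, rfl⟩
  have hM0 : 0 < M := by
    rw [hM]
    positivity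
  refine ⟨M + (D + 1) * ((D + 1) * (D * (D + 1) ^ D * 2 ^ D * M)) + 1, ?_, ?_⟩
  · have : 0 ≤ ((D : ℝ) + 1) * ((D + 1) * (D * (D + 1) ^ D * 2 ^ D * M)) := by positivity
    linarith
  intro g y y₀ f R ρ ε hg hy hy₀ hρ hρR hR hsep hε
  have hR0 : 0 < R := lt_of_lt_of_le hρ hρR
  have hε0 : 0 ≤ ε := (abs_nonneg _).trans (hε 0 0 (by rw [abs_zero]; exact zero_le_one))
  have hP0 : (0 : ℝ) ≤ (R / ρ) ^ D := by positivity
  -- the bad times
  obtain ⟨c₀, hc₀⟩ : ∃ c₀ : ℝ, c₀ = ρ / A := ⟨_, rfl⟩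
  have hc0 : 0 < c₀ := by
    rw [hc₀]
    positivity
  have hbad : ∀ k l, k ≠ l → (Finset.univ.filter fun i : Fin N =>
      |(y k - y l).eval (gpt N i)| ≤ c₀).card ≤ n := by
    intro k l hkl
    refine bad_le ((natDegree_sub_le _ _).trans (max_le (hy k) (hy l))) (ρ := ρ) ?_ ?_
    · obtain ⟨t, ht, h1⟩ := hsep k l hkl
      exact ⟨t, ht, by rw [eval_sub]; exact h1⟩
    · have e : ((n : ℝ) + 1) * ((n + 1) * (2 * N) ^ n * c₀) = ρ / 2 := by
        rw [hc₀, hA]
        have : ((n : ℝ) + 1) * ((n + 1) * (2 * N) ^ n) ≠ 0 := by positivity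
        field_simp
      rw [e]
      linarith
  obtain ⟨G, hG⟩ : ∃ G : Finset (Fin N), G = Finset.univ.filter fun i : Fin N =>
      ∀ k l, k ≠ l → c₀ < |(y k - y l).eval (gpt N i)| := ⟨_, rfl⟩
  have hGc : D * (n + 1) + 1 ≤ G.card := by
    have h1 : Gᶜ ⊆ (Finset.univ : Finset (Fin (D + 1) × Fin (D + 1))).biUnion fun p =>
        if p.1 = p.2 then ∅ else Finset.univ.filter fun i : Fin N =>
          |(y p.1 - y p.2).eval (gpt N i)| ≤ c₀ := by
      intro i hi
      rw [hG, Finset.mem_compl, Finset.mem_filter] at hi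
      push Not at hi
      obtain ⟨k, l, hkl, h2⟩ := hi (Finset.mem_univ i)
      refine Finset.mem_biUnion.2 ⟨(k, l), Finset.mem_univ _, ?_⟩
      rw [if_neg hkl, Finset.mem_filter]
      exact ⟨Finset.mem_univ _, h2⟩
    have h2 : (Gᶜ).card ≤ (D + 1) ^ 2 * n := by
      refine (Finset.card_le_card h1).trans ?_
      refine Finset.card_biUnion_le.trans ?_
      refine (Finset.sum_le_card_nsmul _ _ n fun p _ => ?_).trans (le_of_eq ?_)
      · split_ifs with h
        · rw [Finset.card_empty]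
          exact Nat.zero_le _
        · exact hbad _ _ h
      · rw [Finset.card_univ, Fintype.card_prod, Fintype.card_fin, smul_eq_mul, sq]
    have h3 := Finset.card_add_card_compl G
    rw [Fintype.card_fin] at h3
    have h4 : n * (D + 1) ^ 2 = (D + 1) ^ 2 * n := mul_comm _ _
    omega
  -- the good times
  have hgood : ∀ i ∈ G, ∀ U : ℝ, |U| ≤ 1 →
      |MvPolynomial.eval ![gpt N i, y₀.eval (gpt N i) + R * U] g - f (gpt N i)| ≤
        B * ε * (R / ρ) ^ D := by
    intro i hi U hU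
    rw [hG, Finset.mem_filter] at hi
    have hgi := gpt_abs i
    obtain ⟨τ, hτ⟩ : ∃ τ, τ = gpt N i := ⟨_, rfl⟩
    rw [← hτ] at hi hgi ⊢
    have h1 := lag_bd (D := D) (fun k => ((y k).eval τ - y₀.eval τ) / R) (s := c₀ / R)
      (ε := ε) (by positivity) (fun k => by
        rw [abs_div, abs_of_pos hR0, div_le_one hR0]
        exact hR k τ hgi) (fun k l hkl => by
        have e : ((y k).eval τ - y₀.eval τ) / R - ((y l).eval τ - y₀.eval τ) / R =
            (y k - y l).eval τ / R := by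
          rw [eval_sub]
          ring
        rw [e, abs_div, abs_of_pos hR0]
        exact div_le_div_of_nonneg_right (hi.2 k l hkl).le hR0.le)
      (vsp g τ (y₀.eval τ) R - C (f τ))
      ((natDegree_sub_le _ _).trans (max_le (vsp_deg hg _ _ _)
        ((natDegree_C _).le.trans (Nat.zero_le _)))) (fun k => by
        rw [eval_sub, eval_C, vsp_eval, mul_div_cancel₀ _ hR0.ne', add_sub_cancel]
        exact hε k τ hgi) hU
    rw [eval_sub, eval_C, vsp_eval] at h1
    refine h1.trans (le_of_eq ?_)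
    rw [hB, hc₀, div_pow, div_pow, div_pow]
    field_simp
  -- all times
  obtain ⟨S, hS⟩ : ∃ S : ℝ, S = M * ε * (R / ρ) ^ D := ⟨_, rfl⟩
  have hS0 : 0 ≤ S := by
    rw [hS]
    positivity
  have hall : ∀ t U : ℝ, |t| ≤ 1 → |U| ≤ 1 →
      |MvPolynomial.eval ![t, y₀.eval t + R * U] g - MvPolynomial.eval ![t, y₀.eval t] g| ≤
        S := by
    intro t U ht hU
    have h1 := grid_bd hGc (q := cvp g (y₀ + C (R * U)) - cvp g y₀)
      (ε := 2 * B * ε * (R / ρ) ^ D) ?_ ?_ ht
    · rw [eval_sub, cvp_eval, cvp_eval, eval_add, eval_C] at h1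
      refine h1.trans (le_of_eq ?_)
      rw [hS, hM]
      ring
    · refine (natDegree_sub_le _ _).trans (max_le (cvp_deg hg ?_) (cvp_deg hg hy₀))
      exact (natDegree_add_le _ _).trans (max_le hy₀ ((natDegree_C _).le.trans (Nat.zero_le _)))
    · intro i hi
      rw [eval_sub, cvp_eval, cvp_eval, eval_add, eval_C]
      have h2 := hgood i hi U hU
      have h3 := hgood i hi 0 (by rw [abs_zero]; exact zero_le_one)
      rw [mul_zero, add_zero] at h3
      calc |MvPolynomial.eval ![gpt N i, y₀.eval (gpt N i) + R * U] g -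
            MvPolynomial.eval ![gpt N i, y₀.eval (gpt N i)] g|
          = |(MvPolynomial.eval ![gpt N i, y₀.eval (gpt N i) + R * U] g - f (gpt N i)) -
            (MvPolynomial.eval ![gpt N i, y₀.eval (gpt N i)] g - f (gpt N i))| := by
            congr 1
            ring
        _ ≤ B * ε * (R / ρ) ^ D + B * ε * (R / ρ) ^ D := (abs_sub _ _).trans (add_le_add h2 h3)
        _ = 2 * B * ε * (R / ρ) ^ D := by ring
  intro t U ht hU
  have hU1 : |U / R| ≤ 1 := by
    rw [abs_div, abs_of_pos hR0, div_le_one hR0]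
    exact hU
  have eU : R * (U / R) = U := mul_div_cancel₀ _ hR0.ne'
  constructor
  · have h1 := hall t (U / R) ht hU1
    rw [eU] at h1
    refine h1.trans ?_
    rw [hS]
    refine mul_le_mul_of_nonneg_right (mul_le_mul_of_nonneg_right ?_ hε0) hP0
    have : 0 ≤ ((D : ℝ) + 1) * ((D + 1) * (D * (D + 1) ^ D * 2 ^ D * M)) := by positivity
    linarith
  · -- the coefficients in the fibre
    obtain ⟨P, hP⟩ : ∃ P : ℝ[X], P = vsp g t (y₀.eval t) R -
        C (MvPolynomial.eval ![t, y₀.eval t] g) := ⟨_, rfl⟩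
    have hPd : P.natDegree ≤ D := by
      rw [hP]
      exact (natDegree_sub_le _ _).trans (max_le (vsp_deg hg _ _ _)
        ((natDegree_C _).le.trans (Nat.zero_le _)))
    have hco : ∀ j, |P.coeff j| ≤ (D + 1) * (2 ^ D / (1 / ((D + 1 : ℕ) : ℝ)) ^ D) * S := by
      refine lag_coeff (fun i => gpt (D + 1) i) (by positivity) (fun i => gpt_abs i)
        (fun i j hij => gpt_sep hij) P hPd fun i => ?_
      rw [hP, eval_sub, eval_C, vsp_eval]
      exact hall t _ ht (gpt_abs i)
    have hder : ∀ j, |(derivative P).coeff j| ≤ D * ((D + 1) * (2 ^ D * (D + 1) ^ D) * S) := by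
      intro j
      rw [coeff_derivative]
      by_cases hj : j + 1 ≤ D
      · rw [abs_mul, mul_comm]
        have h1 : |(j : ℝ) + 1| ≤ D := by
          rw [abs_of_nonneg (by positivity)]
          exact_mod_cast hj
        have h2 := hco (j + 1)
        rw [one_div, inv_pow, div_inv_eq_mul] at h2
        push_cast at h2
        exact mul_le_mul h1 h2 (abs_nonneg _) (Nat.cast_nonneg D)
      · rw [coeff_eq_zero_of_natDegree_lt (by omega), zero_mul, abs_zero]
        positivity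
    have h1 := eval_of_coeff ((natDegree_derivative_le P).trans ((Nat.sub_le _ _).trans hPd))
      hder hU1
    rw [hP, derivative_sub, derivative_C, sub_zero, vsp_der, eval_mul, eval_C, vsp_eval, eU,
      abs_mul, abs_of_pos hR0] at h1
    rw [← le_div_iff₀' hR0] at h1
    refine h1.trans ?_
    rw [hS]
    have e : ((D : ℝ) + 1) * (D * ((D + 1) * (2 ^ D * (D + 1) ^ D) * (M * ε * (R / ρ) ^ D))) / R =
        (D + 1) * ((D + 1) * (D * (D + 1) ^ D * 2 ^ D * M)) * (ε / R) * (R / ρ) ^ D := by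
      ring
    rw [e]
    refine mul_le_mul_of_nonneg_right (mul_le_mul_of_nonneg_right ?_ (by positivity)) hP0
    linarith

end Pool.FLT
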