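import Pool.Agent.H91.LA.Nat

/-!
# The numbers of the flat label
-/

set_option autoImplicit false

namespace Pool.FLT

open Finset Real
open Pool.LA91

/-- Negative powers beat constants. -/
theorem ev_small (C : ℝ) {x : ℝ} (hx : x < 0) : ∃ J₀ : ℕ, ∀ J : ℕ, J₀ ≤ J →
    C * (2 : ℝ) ^ (x * J) ≤ 1 := by
  have hl2 : 0 < Real.log 2 := Real.log_pos one_lt_two
  obtain ⟨J₀, hJ₀⟩ := exists_nat_ge (Real.log (max C 1) / (-x * Real.log 2))
  refine ⟨J₀, fun J hJ => ?_⟩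
  have h0 : (0 : ℝ) < 2 ^ (x * J) := Real.rpow_pos_of_pos (by norm_num) _
  have h1 : (J₀ : ℝ) ≤ J := by exact_mod_cast hJ
  have h2 := hJ₀.trans h1
  have hpos : 0 < -x * Real.log 2 := mul_pos (by linarith) hl2
  rw [div_le_iff₀ hpos] at h2
  have hC : 0 < max C 1 := lt_of_lt_of_le one_pos (le_max_right _ _)
  have h3 : max C 1 ≤ Real.exp (-(x * J) * Real.log 2) := by
    rw [← Real.log_le_iff_le_exp hC]
    refine h2.trans (le_of_eq ?_)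
    ring
  have h4 : (2 : ℝ) ^ (x * J) = Real.exp (x * J * Real.log 2) := by
    rw [Real.rpow_def_of_pos (by norm_num)]
    ring_nf
  calc C * (2 : ℝ) ^ (x * J) ≤ max C 1 * 2 ^ (x * J) :=
        mul_le_mul_of_nonneg_right (le_max_left _ _) h0.le
    _ ≤ Real.exp (-(x * J) * Real.log 2) * 2 ^ (x * J) := mul_le_mul_of_nonneg_right h3 h0.le
    _ = 1 := by
        rw [h4, ← Real.exp_add]
        rw [show -(x * J) * Real.log 2 + x * J * Real.log 2 = 0 by ring, Real.exp_zero]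

/-- **The numbers.** -/
theorem flat_num (m D : ℕ) {C Cn : ℝ} (hC : 1 ≤ C) (hCn : 0 ≤ Cn)
    {v a eN uN eH ρH pH n pq r N ψ : ℝ} (hv : 0 ≤ v) (hva : v ≤ a) (hψ : 0 ≤ ψ)
    (hvψ : v + ψ ≤ 1) (heN : 0 ≤ eN) (huN0 : 0 ≤ uN) (heH : 0 ≤ eH) (hρH0 : 0 ≤ ρH)
    (hpH : 0 ≤ pH) (hr : 0 ≤ r) (huN : uN < 1) (hρH : ρH ≤ 1)
    (c1 : uN < n) (c2 : ρH < n) (c3 : eN + D * ψ + pq < n) (c4 : eH + pH < n)
    (c5 : eH + ρH + pH < n + a) (c6 : pH - a ≤ N) (c8 : eH + pH < 1) (c9 : r + eN < 1)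
    (c10 : r + eN + uN < 1 + pH) (c11 : r + (D * D : ℕ) * (N - pH + a) + v < pq + a) :
    ∃ J₀ : ℕ, ∀ J : ℕ, J₀ ≤ J → ∃ σ s δ η τ M : ℝ, 0 < σ ∧ 0 < s ∧ s ≤ 1 ∧ 0 < δ ∧ 0 < η ∧
      0 < τ ∧ τ = 1 / 2 ^ ⌊ψ * J⌋₊ ∧ 2 * (s * σ * 2 ^ ⌊v * J⌋₊) = 2 ^ (-(N * J)) ∧
      C / 2 ^ (pq * J) = δ / 2 ∧ Cn / 2 ^ ⌊n * J⌋₊ ≤ η ∧ ⌊v * J⌋₊ + ⌊ψ * J⌋₊ ≤ J ∧
      2 * η ≤ 1 / 2 ^ ⌊uN * J⌋₊ ∧ 8 * η ≤ 1 / 2 ^ ⌊ρH * J⌋₊ ∧
      C * (2 ^ ⌊eN * J⌋₊ / τ ^ D) * η ≤ δ ∧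
      2 / 2 ^ ⌊pH * J⌋₊ + C * 2 ^ ⌊eH * J⌋₊ * η ≤ σ ∧
      2 * (2 ^ ⌊a * J⌋₊ / 2 ^ ⌊pH * J⌋₊) + C * 2 ^ (⌊eH * J⌋₊ + ⌊ρH * J⌋₊) * η ≤
        σ * 2 ^ ⌊v * J⌋₊ ∧
      C * δ / s ^ (D * D) / σ ≤ M ∧ ⌊uN * J⌋₊ + 1 ≤ J ∧ ⌊ρH * J⌋₊ ≤ J ∧
      C * 2 ^ ⌊eN * J⌋₊ * 2 ^ ⌊uN * J⌋₊ * (1 / 2 ^ J) ≤ M ∧
      2 ^ ⌊eH * J⌋₊ * ((m + 1) * (1 / 2 ^ J)) ≤ 1 / (2 : ℝ) ^ ⌊pH * J⌋₊ ∧
      3 / 2 ^ ⌊pH * J⌋₊ ≤ σ ∧ (2 : ℝ) ^ ⌊r * J⌋₊ ≤ 2 ^ (r * J) ∧
      2 ^ ⌊r * J⌋₊ * (2 ^ ⌊eN * J⌋₊ * ((m + 1) * (1 / 2 ^ J)) +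
        10 * M * (3 / 2 ^ ⌊pH * J⌋₊)) ≤ 1 := by
  have hn0 : 0 ≤ n := by linarith
  have hm0 : (0 : ℝ) ≤ m := Nat.cast_nonneg m
  obtain ⟨J₁, h₁⟩ := ev_small (4 * (Cn + 1)) (x := uN - n) (by linarith)
  obtain ⟨J₂, h₂⟩ := ev_small (16 * (Cn + 1)) (x := ρH - n) (by linarith)
  obtain ⟨J₃, h₃⟩ := ev_small (Cn + 1) (x := eN + D * ψ + pq - n) (by linarith)
  obtain ⟨J₄, h₄⟩ := ev_small (C * (Cn + 1)) (x := eH + pH - n) (by linarith)
  obtain ⟨J₅, h₅⟩ := ev_small (2 * (C * (Cn + 1))) (x := eH + ρH + pH - n - a) (by linarith)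
  obtain ⟨J₆, h₆⟩ := ev_small ((m : ℝ) + 1) (x := eH + pH - 1) (by linarith)
  obtain ⟨J₇, h₇⟩ := ev_small (3 * ((m : ℝ) + 1)) (x := r + eN - 1) (by linarith)
  obtain ⟨J₈, h₈⟩ := ev_small (3 * (60 * C)) (x := r + eN + uN - 1 - pH) (by linarith)
  obtain ⟨J₉, h₉⟩ := ev_small (3 * (C * C * 60 * 16 ^ (D * D)))
    (x := r + (D * D : ℕ) * (N - pH + a) + v - pq - a) (by linarith)
  obtain ⟨J₁₀, h₁₀⟩ := exists_nat_ge (1 / (1 - uN))
  refine ⟨J₁ + J₂ + J₃ + J₄ + J₅ + J₆ + J₇ + J₈ + J₉ + J₁₀, fun J hJ => ?_⟩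
  have k1 := h₁ J (by omega)
  have k2 := h₂ J (by omega)
  have k3 := h₃ J (by omega)
  have k4 := h₄ J (by omega)
  have k5 := h₅ J (by omega)
  have k6 := h₆ J (by omega)
  have k7 := h₇ J (by omega)
  have k8 := h₈ J (by omega)
  have k9 := h₉ J (by omega)
  have hJ10 : (J₁₀ : ℝ) ≤ J := by exact_mod_cast (by omega : J₁₀ ≤ J)
  have hJ0 : (0 : ℝ) ≤ J := Nat.cast_nonneg J
  clear h₁ h₂ h₃ h₄ h₅ h₆ h₇ h₈ h₉
  -- powers
  obtain ⟨p, hp⟩ : ∃ p : ℝ → ℝ, p = fun x : ℝ => (2 : ℝ) ^ (x * J) := ⟨_, rfl⟩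
  have pe : ∀ x : ℝ, (2 : ℝ) ^ (x * J) = p x := fun x => by rw [hp]
  have p0 : ∀ x : ℝ, 0 < p x := fun x => by
    rw [← pe]
    exact Real.rpow_pos_of_pos (by norm_num) _
  have pa : ∀ x y : ℝ, p (x + y) = p x * p y := fun x y => by
    rw [← pe, ← pe, ← pe, add_mul, Real.rpow_add (by norm_num)]
  have pn : ∀ x : ℝ, p (-x) = 1 / p x := fun x => by
    rw [← pe, ← pe, neg_mul, Real.rpow_neg (by norm_num), one_div]
  have ps : ∀ x y : ℝ, p (x - y) = p x / p y := fun x y => by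
    rw [sub_eq_add_neg, pa, pn]
    ring
  have pN : ∀ (k : ℕ) (x : ℝ), p (k * x) = p x ^ k := fun k x => by
    rw [← pe, ← pe, ← Real.rpow_natCast, ← Real.rpow_mul (by norm_num)]
    congr 1
    ring
  have p1 : (2 : ℝ) ^ J = p 1 := by
    rw [← pe, one_mul, Real.rpow_natCast]
  have fu : ∀ x : ℝ, 0 ≤ x → (2 : ℝ) ^ ⌊x * J⌋₊ ≤ p x := fun x hx => by
    rw [← pe]
    exact p2_le (mul_nonneg hx hJ0)
  have fl : ∀ x : ℝ, p x ≤ 2 * 2 ^ ⌊x * J⌋₊ := fun x => by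
    have h1 := ip2_le (x * J)
    rw [Real.rpow_neg (by norm_num), pe, ← one_div, mul_one_div,
      div_le_div_iff₀ (by positivity) (p0 x)] at h1
    linarith
  rw [pe, ps] at k1 k2
  rw [pe] at k3 k4 k5 k6 k7 k8 k9
  rw [ps, pa, pa, pN] at k3
  rw [ps, pa] at k4 k6 k7
  rw [ps, ps, pa, pa] at k5
  rw [ps, ps, pa, pa] at k8
  rw [ps, ps, pa, pa, pN, pa, ps] at k9
  have hψ1 := fu ψ hψ
  -- names
  obtain ⟨W, hW⟩ : ∃ W, W = ⌊v * J⌋₊ := ⟨_, rfl⟩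
  obtain ⟨a', ha'⟩ : ∃ a', a' = ⌊a * J⌋₊ := ⟨_, rfl⟩
  obtain ⟨e', he'⟩ : ∃ e', e' = ⌊eN * J⌋₊ := ⟨_, rfl⟩
  obtain ⟨ρ, hρ⟩ : ∃ ρ, ρ = ⌊uN * J⌋₊ := ⟨_, rfl⟩
  obtain ⟨ρ', hρ'⟩ : ∃ ρ', ρ' = ⌊ρH * J⌋₊ := ⟨_, rfl⟩
  obtain ⟨E', hE'⟩ : ∃ E', E' = ⌊eH * J⌋₊ := ⟨_, rfl⟩
  obtain ⟨P', hP'⟩ : ∃ P', P' = ⌊pH * J⌋₊ := ⟨_, rfl⟩
  obtain ⟨nn, hnn⟩ : ∃ nn, nn = ⌊n * J⌋₊ := ⟨_, rfl⟩
  obtain ⟨gg, hgg⟩ : ∃ gg, gg = ⌊ψ * J⌋₊ := ⟨_, rfl⟩
  obtain ⟨rr, hrr⟩ : ∃ rr, rr = ⌊r * J⌋₊ := ⟨_, rfl⟩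
  have uW := fu v hv
  have ua := fu a (hv.trans hva)
  have ue := fu eN heN
  have uρ := fu uN huN0
  have uρ' := fu ρH hρH0
  have uE := fu eH heH
  have uP := fu pH hpH
  have ur := fu r hr
  have la := fl a
  have lP := fl pH
  have ln := fl n
  have lv := fl v
  have hWa : W ≤ a' := by
    rw [hW, ha']
    exact Nat.floor_le_floor (mul_le_mul_of_nonneg_right hva hJ0)
  rw [← hW] at uW lv ⊢
  rw [← ha'] at ua la ⊢
  rw [← he'] at ue ⊢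
  rw [← hρ] at uρ ⊢
  rw [← hρ'] at uρ' ⊢
  rw [← hE'] at uE ⊢
  rw [← hP'] at uP lP ⊢
  rw [← hnn] at ln ⊢
  rw [← hgg] at hψ1 ⊢
  rw [← hrr] at ur ⊢
  have hWg : W + gg ≤ J := by
    have h1 : ((W : ℕ) : ℝ) ≤ v * J := by
      rw [hW]
      exact Nat.floor_le (mul_nonneg hv hJ0)
    have h2 : ((gg : ℕ) : ℝ) ≤ ψ * J := by
      rw [hgg]
      exact Nat.floor_le (mul_nonneg hψ hJ0)
    have h4 := mul_le_mul_of_nonneg_right hvψ hJ0
    have h3 : ((W + gg : ℕ) : ℝ) ≤ J := by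
      push_cast
      linarith only [h1, h2, h4]
    exact_mod_cast h3
  have hρJ : ρ + 1 ≤ J := by
    have h1 : ((ρ : ℕ) : ℝ) ≤ uN * J := by
      rw [hρ]
      exact Nat.floor_le (mul_nonneg huN0 hJ0)
    have h2 := h₁₀.trans hJ10
    rw [div_le_iff₀ (by linarith)] at h2
    have h3 : ((ρ + 1 : ℕ) : ℝ) ≤ J := by
      push_cast
      linarith
    exact_mod_cast h3
  have hρ'J : ρ' ≤ J := by
    have h1 : ((ρ' : ℕ) : ℝ) ≤ ρH * J := by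
      rw [hρ']
      exact Nat.floor_le (mul_nonneg hρH0 hJ0)
    have h4 := mul_le_mul_of_nonneg_right hρH hJ0
    have h3 : ((ρ' : ℕ) : ℝ) ≤ J := by linarith only [h1, h4]
    exact_mod_cast h3
  -- the unit of `u`
  obtain ⟨σ, hσ⟩ : ∃ σ : ℝ, σ = 4 * (2 ^ a' / 2 ^ W) / 2 ^ P' := ⟨_, rfl⟩
  have hσ0 : 0 < σ := by rw [hσ]; positivity
  have hσW : σ * 2 ^ W = 4 * (2 ^ a' / 2 ^ P') := by
    rw [hσ]
    field_simp
  obtain ⟨s, hs⟩ : ∃ s : ℝ, s = p (-N) / (2 * (σ * 2 ^ W)) := ⟨_, rfl⟩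
  have hs0 : 0 < s := by
    rw [hs]
    have := p0 (-N)
    positivity
  have hsσ : 2 * (s * σ * 2 ^ W) = p (-N) := by
    rw [hs]
    field_simp
  have hpN0 := p0 N
  have hpa0 := p0 a
  have hpP0 := p0 pH
  have hs1 : s ≤ 1 := by
    rw [hs, div_le_one (by positivity), hσW, pn]
    have h1 : p (pH - a) ≤ p N := by
      rw [← pe, ← pe]
      exact Real.rpow_le_rpow_of_exponent_le (by norm_num) (mul_le_mul_of_nonneg_right c6 hJ0)
    rw [ps, div_le_iff₀ hpa0] at h1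
    have h2 : (1 : ℝ) / p N ≤ p a / p pH := by
      rw [div_le_div_iff₀ hpN0 hpP0]
      linarith
    have h3 : p a / p pH ≤ 2 * 2 ^ a' / 2 ^ P' := by
      rw [div_le_div_iff₀ hpP0 (by positivity)]
      exact mul_le_mul la uP (by positivity) (by positivity)
    have h4 : 2 * 2 ^ a' / 2 ^ P' ≤ 2 * (4 * ((2 : ℝ) ^ a' / 2 ^ P')) := by
      have : (0 : ℝ) < 2 ^ a' / 2 ^ P' := by positivity
      have e1 : (2 : ℝ) * 2 ^ a' / 2 ^ P' = 2 * (2 ^ a' / 2 ^ P') := by ring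
      rw [e1]
      linarith
    linarith
  have hslow : 1 / s ≤ 16 * (p N / p pH * p a) := by
    rw [hs, hσW, pn, one_div_div]
    have e1 : 2 * (4 * ((2 : ℝ) ^ a' / 2 ^ P')) / (1 / p N) = 8 * 2 ^ a' * p N / 2 ^ P' := by
      field_simp
      norm_num
    rw [e1, div_le_iff₀ (by positivity)]
    have e2 : 16 * (p N / p pH * p a) * 2 ^ P' = 8 * p a * p N * (2 * 2 ^ P') / p pH := by
      field_simp
      ring
    rw [e2, le_div_iff₀ hpP0]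
    calc 8 * 2 ^ a' * p N * p pH ≤ 8 * p a * p N * p pH := by
          refine mul_le_mul_of_nonneg_right (mul_le_mul_of_nonneg_right ?_ hpN0.le) hpP0.le
          linarith
      _ ≤ 8 * p a * p N * (2 * 2 ^ P') := mul_le_mul_of_nonneg_left lP (by positivity)
  have hCC : 0 < C := by linarith
  have hpq0 := p0 pq
  have hpn0 := p0 n
  obtain ⟨δ, hδ⟩ : ∃ δ : ℝ, δ = 2 * (C / p pq) := ⟨_, rfl⟩
  have hδ0 : 0 < δ := by rw [hδ]; positivity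
  obtain ⟨η, hη⟩ : ∃ η : ℝ, η = (Cn + 1) / 2 ^ nn := ⟨_, rfl⟩
  have hη0 : 0 < η := by rw [hη]; positivity
  have hη1 : η ≤ 2 * (Cn + 1) / p n := by
    rw [hη, div_le_div_iff₀ (by positivity) hpn0]
    calc (Cn + 1) * p n ≤ (Cn + 1) * (2 * 2 ^ nn) := mul_le_mul_of_nonneg_left ln (by positivity)
      _ = 2 * (Cn + 1) * 2 ^ nn := by ring
  obtain ⟨M, hM⟩ : ∃ M : ℝ, M = C * δ / s ^ (D * D) / σ + C * 2 ^ e' * 2 ^ ρ * (1 / 2 ^ J) :=
    ⟨_, rfl⟩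
  have hM1 : 0 ≤ C * δ / s ^ (D * D) / σ := by positivity
  have hM2 : 0 ≤ C * 2 ^ e' * 2 ^ ρ * (1 / (2 : ℝ) ^ J) := by positivity
  have i0 := p0 uN
  have i1 := p0 ρH
  have i2 := p0 eN
  have i3 := p0 eH
  have i4 := p0 v
  have i5 := p0 r
  have i6 := p0 ψ
  have i7 := p0 1
  refine ⟨σ, s, δ, η, 1 / 2 ^ gg, M, hσ0, hs0, hs1, hδ0, hη0, by positivity, rfl, ?_, ?_, ?_, hWg,
    ?_, ?_, ?_, ?_, ?_, ?_, hρJ, hρ'J, ?_, ?_, ?_, ?_, ?_⟩
  · rw [hsσ, ← pe, neg_mul]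
  · rw [pe, hδ]
    ring
  · rw [hη]
    exact div_le_div_of_nonneg_right (by linarith) (by positivity)
  · -- n1
    rw [le_div_iff₀ (by positivity)]
    calc 2 * η * 2 ^ ρ ≤ 2 * (2 * (Cn + 1) / p n) * p uN := by
          refine mul_le_mul (mul_le_mul_of_nonneg_left hη1 (by norm_num)) uρ (by positivity)
            (by positivity)
      _ = 4 * (Cn + 1) * (p uN / p n) := by ring
      _ ≤ 1 := k1
  · -- n2
    rw [le_div_iff₀ (by positivity)]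
    calc 8 * η * 2 ^ ρ' ≤ 8 * (2 * (Cn + 1) / p n) * p ρH := by
          refine mul_le_mul (mul_le_mul_of_nonneg_left hη1 (by norm_num)) uρ' (by positivity)
            (by positivity)
      _ = 16 * (Cn + 1) * (p ρH / p n) := by ring
      _ ≤ 1 := k2
  · -- n3
    have h1 : (2 : ℝ) ^ e' / (1 / 2 ^ gg) ^ D = 2 ^ e' * (2 ^ gg) ^ D := by
      rw [one_div, inv_pow, div_inv_eq_mul]
    have h2 : ((2 : ℝ) ^ gg) ^ D ≤ p ψ ^ D := pow_le_pow_left₀ (by positivity) hψ1 D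
    rw [h1, hδ]
    calc C * (2 ^ e' * (2 ^ gg) ^ D) * η ≤ C * (p eN * p ψ ^ D) * (2 * (Cn + 1) / p n) := by
          refine mul_le_mul (mul_le_mul_of_nonneg_left (mul_le_mul ue h2 (by positivity)
            i2.le) hCC.le) hη1 hη0.le (by positivity)
      _ = 2 * (C / p pq) * ((Cn + 1) * (p eN * p ψ ^ D * p pq / p n)) := by
          field_simp
      _ ≤ 2 * (C / p pq) * 1 := mul_le_mul_of_nonneg_left k3 (by positivity)
      _ = 2 * (C / p pq) := mul_one _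
  · -- n4
    have h1 : C * 2 ^ E' * η * 2 ^ P' ≤ 2 := by
      calc C * 2 ^ E' * η * 2 ^ P' ≤ C * p eH * (2 * (Cn + 1) / p n) * p pH := by
            refine mul_le_mul (mul_le_mul (mul_le_mul_of_nonneg_left uE hCC.le) hη1 hη0.le
              (by positivity)) uP (by positivity) (by positivity)
        _ = 2 * (C * (Cn + 1) * (p eH * p pH / p n)) := by ring
        _ ≤ 2 * 1 := mul_le_mul_of_nonneg_left k4 (by norm_num)
        _ = 2 := by norm_num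
    have h2 : C * 2 ^ E' * η ≤ 2 / 2 ^ P' := by
      rw [le_div_iff₀ (by positivity)]
      exact h1
    have h3 : (1 : ℝ) ≤ 2 ^ a' / 2 ^ W := by
      rw [one_le_div (by positivity)]
      exact pow_le_pow_right₀ (by norm_num) hWa
    have h4 : (4 : ℝ) / 2 ^ P' ≤ σ := by
      rw [hσ]
      refine div_le_div_of_nonneg_right ?_ (by positivity)
      linarith
    have h5 : (4 : ℝ) / 2 ^ P' = 2 / 2 ^ P' + 2 / 2 ^ P' := by ring
    linarith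
  · -- n5
    rw [hσW]
    have h1 : C * 2 ^ (E' + ρ') * η * 2 ^ P' ≤ p a := by
      rw [pow_add]
      have h2 : 2 * (C * (Cn + 1)) * (p eH * p ρH * p pH / p n) ≤ p a := by
        rw [← div_le_one hpa0]
        refine le_trans (le_of_eq ?_) k5
        field_simp
      calc C * (2 ^ E' * 2 ^ ρ') * η * 2 ^ P' ≤ C * (p eH * p ρH) * (2 * (Cn + 1) / p n) *
            p pH := by
            refine mul_le_mul (mul_le_mul (mul_le_mul_of_nonneg_left (mul_le_mul uE uρ'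
              (by positivity) i3.le) hCC.le) hη1 hη0.le (by positivity)) uP (by positivity)
              (by positivity)
        _ = 2 * (C * (Cn + 1)) * (p eH * p ρH * p pH / p n) := by ring
        _ ≤ p a := h2
    have h2 : C * 2 ^ (E' + ρ') * η ≤ 2 * (2 ^ a' / 2 ^ P') := by
      have h3 : C * 2 ^ (E' + ρ') * η ≤ 2 * 2 ^ a' / 2 ^ P' := by
        rw [le_div_iff₀ (by positivity)]
        linarith
      refine h3.trans (le_of_eq ?_)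
      ring
    linarith
  · rw [hM]
    linarith
  · rw [hM]
    linarith
  · -- n10
    rw [le_div_iff₀ (by positivity), p1]
    calc 2 ^ E' * ((m + 1) * (1 / p 1)) * 2 ^ P' ≤ p eH * ((m + 1) * (1 / p 1)) * p pH := by
          refine mul_le_mul (mul_le_mul_of_nonneg_right uE (by positivity)) uP (by positivity)
            (by positivity)
      _ = (m + 1) * (p eH * p pH / p 1) := by ring
      _ ≤ 1 := k6
  · -- n11
    rw [hσ]
    refine div_le_div_of_nonneg_right ?_ (by positivity)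
    have h3 : (1 : ℝ) ≤ 2 ^ a' / 2 ^ W := by
      rw [one_le_div (by positivity)]
      exact pow_le_pow_right₀ (by norm_num) hWa
    linarith
  · rw [pe]
    exact ur
  · -- n12
    have g1 : (2 : ℝ) ^ rr * (2 ^ e' * (((m : ℝ) + 1) * (1 / 2 ^ J))) ≤ 1 / 3 := by
      rw [p1]
      have : 2 ^ rr * (2 ^ e' * (((m : ℝ) + 1) * (1 / p 1))) ≤
          p r * (p eN * ((m + 1) * (1 / p 1))) := by
        refine mul_le_mul ur (mul_le_mul_of_nonneg_right ue (by positivity)) (by positivity) i5.le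
      have e1 : 3 * ((m : ℝ) + 1) * (p r * p eN / p 1) =
          3 * (p r * (p eN * ((m + 1) * (1 / p 1)))) := by ring
      rw [e1] at k7
      linarith
    have g2 : 2 ^ rr * (10 * (C * 2 ^ e' * 2 ^ ρ * (1 / 2 ^ J)) * (3 / 2 ^ P')) ≤ 1 / 3 := by
      rw [p1]
      have h1 : (3 : ℝ) / 2 ^ P' ≤ 6 / p pH := by
        rw [div_le_div_iff₀ (by positivity) hpP0]
        linarith
      have : 2 ^ rr * (10 * (C * 2 ^ e' * 2 ^ ρ * (1 / p 1)) * (3 / 2 ^ P')) ≤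
          p r * (10 * (C * p eN * p uN * (1 / p 1)) * (6 / p pH)) := by
        refine mul_le_mul ur (mul_le_mul (mul_le_mul_of_nonneg_left (mul_le_mul_of_nonneg_right
          (mul_le_mul (mul_le_mul_of_nonneg_left ue hCC.le) uρ (by positivity) (by positivity))
          (by positivity)) (by norm_num)) h1 (by positivity) (by positivity)) (by positivity)
          i5.le
      have e1 : 3 * (60 * C) * (p r * p eN * p uN / p 1 / p pH) =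
          3 * (p r * (10 * (C * p eN * p uN * (1 / p 1)) * (6 / p pH))) := by ring
      rw [e1] at k8
      linarith
    have g3 : 2 ^ rr * (10 * (C * δ / s ^ (D * D) / σ) * (3 / 2 ^ P')) ≤ 1 / 3 := by
      have h1 : C * δ / s ^ (D * D) / σ * (1 / 2 ^ P') =
          C * δ * (1 / s) ^ (D * D) * (2 ^ W / (4 * 2 ^ a')) := by
        rw [hσ, one_div, one_div, inv_pow]
        field_simp
      have h2 : (1 / s) ^ (D * D) ≤ (16 * (p N / p pH * p a)) ^ (D * D) :=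
        pow_le_pow_left₀ (by positivity) hslow _
      have h3 : (2 : ℝ) ^ W / (4 * 2 ^ a') ≤ p v / (2 * p a) := by
        rw [div_le_div_iff₀ (by positivity) (by positivity)]
        calc (2 : ℝ) ^ W * (2 * p a) ≤ p v * (2 * (2 * 2 ^ a')) := by
              refine mul_le_mul uW (by linarith) (by positivity) i4.le
          _ = p v * (4 * 2 ^ a') := by ring
      calc 2 ^ rr * (10 * (C * δ / s ^ (D * D) / σ) * (3 / 2 ^ P'))
          = 30 * (2 ^ rr * (C * δ / s ^ (D * D) / σ * (1 / 2 ^ P'))) := by ring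
        _ = 30 * (2 ^ rr * (C * δ * (1 / s) ^ (D * D) * (2 ^ W / (4 * 2 ^ a')))) := by rw [h1]
        _ ≤ 30 * (p r * (C * δ * (16 * (p N / p pH * p a)) ^ (D * D) * (p v / (2 * p a)))) := by
            refine mul_le_mul_of_nonneg_left (mul_le_mul ur (mul_le_mul
              (mul_le_mul_of_nonneg_left h2 (by positivity)) h3 (by positivity)
              (by positivity)) (by positivity) i5.le) (by norm_num)
        _ = C * C * 30 * 16 ^ (D * D) *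
            (p r * (p N / p pH * p a) ^ (D * D) * p v / p pq / p a) := by
            rw [hδ, mul_pow]
            field_simp
        _ ≤ 1 / 3 := by
            have h4 : 0 ≤ C * C * 30 * 16 ^ (D * D) *
              (p r * (p N / p pH * p a) ^ (D * D) * p v / p pq / p a) := by positivity
            have h5 : 3 * (C * C * 60 * 16 ^ (D * D)) *
                (p r * (p N / p pH * p a) ^ (D * D) * p v / p pq / p a) =
                6 * (C * C * 30 * 16 ^ (D * D) *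
                (p r * (p N / p pH * p a) ^ (D * D) * p v / p pq / p a)) := by ring
            rw [h5] at k9
            linarith
    rw [hM]
    have e9 : 2 ^ rr * (2 ^ e' * ((m + 1) * (1 / 2 ^ J)) +
        10 * (C * δ / s ^ (D * D) / σ + C * 2 ^ e' * 2 ^ ρ * (1 / 2 ^ J)) * (3 / 2 ^ P')) =
        2 ^ rr * (2 ^ e' * (((m : ℝ) + 1) * (1 / 2 ^ J))) +
        2 ^ rr * (10 * (C * 2 ^ e' * 2 ^ ρ * (1 / 2 ^ J)) * (3 / 2 ^ P')) +
        2 ^ rr * (10 * (C * δ / s ^ (D * D) / σ) * (3 / 2 ^ P')) := by ring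
    rw [e9]
    linarith

end Pool.FLT
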