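import Pool.Agent.H19.FLT.Lip
import Pool.Agent.H65.STB.Rnd

/-!
# A closed value of the derivative of a label

`flat_val`: if the derivative of a label in `u` is nearly constant along the line of the window, it
is up to the same unit a function of the exact point and a function of the window of the line, on
one half of the event.
-/

set_option autoImplicit false

namespace Pool.FLT

open Finset Real MvPolynomial
open Pool.Agent.H49.Ent Pool.Agent.H32.Dense Pool.STK Pool.KA Pool.KSAT Pool.K2S Pool.PB Pool.GEN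
open Pool.LA91
open Pool.BFL (Pb)

variable {m J : ℕ}

/-- The start of the window of a line. -/
noncomputable def cst (F : Fam m J) (W : ℕ) (x : LnT F) (o : Option (Fin m)) : ℝ :=
  match o with
  | none => (x.2.2 : ℝ) / 2 ^ W
  | some i => x.1.1 i + (x.2.2 : ℝ) / 2 ^ W * x.1.2 i

theorem cst_pt (F : Fam m J) {W : ℕ} (hW : W ≤ J) (ω : F.Ω) : ∃ t : ℝ, |t| ≤ 1 / 2 ^ W ∧
    ∀ o, cst F W (slam F W ω) o = bt F ω o + t * bd F ω o := by
  refine ⟨((F.T ω / 2 ^ (J - W) : ℕ) : ℝ) / 2 ^ W - F.t ω, ?_, ?_⟩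
  · have hpos : 0 < 2 ^ (J - W) := by positivity
    have e2 := Nat.div_add_mod (F.T ω) (2 ^ (J - W))
    have e4 := Nat.mod_lt (F.T ω) hpos
    obtain ⟨k, hk⟩ : ∃ k, k = F.T ω / 2 ^ (J - W) := ⟨_, rfl⟩
    rw [← hk] at e2 ⊢
    have e5 : (2 : ℝ) ^ (J - W) * k ≤ F.T ω := by
      have : 2 ^ (J - W) * k ≤ F.T ω := by omega
      exact_mod_cast this
    have e6 : (F.T ω : ℝ) ≤ 2 ^ (J - W) * k + 2 ^ (J - W) := by
      have : F.T ω ≤ 2 ^ (J - W) * k + 2 ^ (J - W) := by omega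
      exact_mod_cast this
    have e8 : (2 : ℝ) ^ J = 2 ^ (J - W) * 2 ^ W := by
      rw [← pow_add]
      congr 1
      omega
    have e7 : (k : ℝ) / 2 ^ W - F.t ω = (2 ^ (J - W) * k - F.T ω) / 2 ^ J := by
      show (k : ℝ) / 2 ^ W - (F.T ω : ℝ) / 2 ^ J = _
      rw [e8]
      field_simp
    rw [e7, abs_div, abs_of_pos (by positivity : (0 : ℝ) < 2 ^ J), div_le_div_iff₀ (by positivity)
      (by positivity), one_mul, e8]
    exact mul_le_mul_of_nonneg_right (abs_le.2 ⟨by linarith, by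
      have : (0 : ℝ) ≤ 2 ^ (J - W) := by positivity
      linarith⟩) (by positivity)
  · intro o
    cases o with
    | none =>
      show ((F.T ω / 2 ^ (J - W) : ℕ) : ℝ) / 2 ^ W =
        F.t ω + (((F.T ω / 2 ^ (J - W) : ℕ) : ℝ) / 2 ^ W - F.t ω) * 1
      ring
    | some i =>
      show F.u ω i + ((F.T ω / 2 ^ (J - W) : ℕ) : ℝ) / 2 ^ W * F.d ω i = F.u ω i +
        F.t ω * F.d ω i + (((F.T ω / 2 ^ (J - W) : ℕ) : ℝ) / 2 ^ W - F.t ω) * F.d ω i
      ring

/-- The point of a code. -/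
noncomputable def ppt (F : Fam m J) (y : PtT F) (o : Option (Fin m)) : ℝ :=
  match o with
  | none => (y.2.1 : ℝ) / 2 ^ J
  | some i => (y.1 i : ℝ) / 2 ^ J

theorem ppt_near (F : Fam m J) (ω : F.Ω) (o : Option (Fin m)) :
    |ppt F (ptr F J ω) o - bt F ω o| ≤ 1 / 2 ^ J := by
  cases o with
  | none =>
    show |(F.T ω : ℝ) / 2 ^ J - (F.T ω : ℝ) / 2 ^ J| ≤ _
    rw [sub_self, abs_zero]
    positivity
  | some i =>
    show |((⌊(2 : ℝ) ^ J * F.x ω i⌋ : ℤ) : ℝ) / 2 ^ J - F.x ω i| ≤ _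
    have h1 := Int.floor_le ((2 : ℝ) ^ J * F.x ω i)
    have h2 := Int.lt_floor_add_one ((2 : ℝ) ^ J * F.x ω i)
    have hJ : (0 : ℝ) < 2 ^ J := by positivity
    have e1 : ((⌊(2 : ℝ) ^ J * F.x ω i⌋ : ℤ) : ℝ) / 2 ^ J - F.x ω i =
        (((⌊(2 : ℝ) ^ J * F.x ω i⌋ : ℤ) : ℝ) - 2 ^ J * F.x ω i) / 2 ^ J := by
      field_simp
    rw [e1, abs_div, abs_of_pos hJ]
    refine div_le_div_of_nonneg_right (abs_le.2 ⟨by linarith, by linarith⟩) hJ.le

/-- **A closed value of the derivative of a label.** -/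
theorem flat_val (F : Fam m J) (A : F.Ω → Prop) (u : Fin m) {V : Type} {W : ℕ}
    (z : PtT F → V) (z' : LnT F → V) (G : V → MvPolynomial (Option (Fin m)) ℝ) {M E : ℝ}
    (hA : 0 < Pe F.p A) (hW : W ≤ J) (hM : 0 < M)
    (hcls : ∀ ω, A ω → z (ptr F J ω) = z' (slam F W ω))
    (hE : ∀ ω, A ω → |eval (bt F ω) (pderiv (some u) (G (z' (slam F W ω))))| ≤ E)
    (hflat : ∀ ω, A ω → ∀ t : ℝ, |t| ≤ 1 / 2 ^ W →
      |eval (fun o => bt F ω o + t * bd F ω o) (pderiv (some u) (G (z' (slam F W ω)))) -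
        eval (bt F ω) (pderiv (some u) (G (z' (slam F W ω))))| ≤ M)
    (hx : ∀ ω, A ω → |eval (ppt F (ptr F J ω)) (pderiv (some u) (G (z' (slam F W ω)))) -
        eval (bt F ω) (pderiv (some u) (G (z' (slam F W ω))))| ≤ M) :
    ∃ B : F.Ω → Prop, Sub B A ∧ Pe F.p A ≤ 2 * Pe F.p B ∧
      ∃ (k : PtT F → ℤ) (k' : LnT F → ℤ) (ka : ℤ → ℝ), (∀ n, |ka n| ≤ E) ∧
        ∀ ω, B ω → k (ptr F J ω) = k' (slam F W ω) ∧
          |eval (bt F ω) (pderiv (some u) (G (z' (slam F W ω)))) - ka (k' (slam F W ω))| ≤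
            9 * M := by
  classical
  obtain ⟨f, hf⟩ : ∃ f : PtT F → ℝ, f = fun y => eval (ppt F y) (pderiv (some u) (G (z y))) :=
    ⟨_, rfl⟩
  obtain ⟨g, hg⟩ : ∃ g : LnT F → ℝ, g = fun x => eval (cst F W x) (pderiv (some u) (G (z' x))) :=
    ⟨_, rfl⟩
  have h1 : ∀ ω, A ω → |f (ptr F J ω) - eval (bt F ω) (pderiv (some u) (G (z' (slam F W ω))))| ≤
      M := by
    intro ω hω
    have := hx ω hω
    rw [hf]
    simp only
    rw [hcls ω hω]
    exact this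
  have h2 : ∀ ω, A ω → |g (slam F W ω) - eval (bt F ω) (pderiv (some u) (G (z' (slam F W ω))))| ≤
      M := by
    intro ω hω
    obtain ⟨t, ht, hpt⟩ := cst_pt F hW ω
    have := hflat ω hω t ht
    rw [hg]
    simp only
    rw [funext hpt]
    exact this
  obtain ⟨θ, hθ0, hθ1, hθ⟩ := Pool.STB65.rnd_one (p := F.p) F.isLaw.nonneg A
    (fun ω => f (ptr F J ω) / (8 * M)) (fun ω => g (slam F W ω) / (8 * M)) (ε := 1 / 4)
    (ε' := 1 / 2) (by norm_num) (fun ω hω => by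
      rw [← sub_div, abs_div, abs_of_pos (by positivity : (0 : ℝ) < 8 * M), div_le_iff₀
        (by positivity)]
      have a1 := abs_le.1 (h1 ω hω)
      have a2 := abs_le.1 (h2 ω hω)
      rw [abs_le]
      constructor <;> linarith [a1.1, a1.2, a2.1, a2.2])
  obtain ⟨B, hB⟩ : ∃ B : F.Ω → Prop, B = fun ω => A ω ∧
    ⌊f (ptr F J ω) / (8 * M) + θ⌋ = ⌊g (slam F W ω) / (8 * M) + θ⌋ := ⟨_, rfl⟩
  have hE0 : 0 ≤ E := by
    obtain ⟨ω, hω⟩ : ∃ ω, A ω := by
      by_contra hno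
      push Not at hno
      have : Pe F.p A = 0 := by
        rw [Pool.K2S.Pe_eq]
        exact Finset.sum_eq_zero fun ω _ => if_neg (hno ω)
      linarith
    exact (abs_nonneg _).trans (hE ω hω)
  refine ⟨B, fun ω hω => by rw [hB] at hω; exact hω.1, ?_, fun y => ⌊f y / (8 * M) + θ⌋,
    fun x => ⌊g x / (8 * M) + θ⌋, fun n => max (-E) (min E (8 * M * (n - θ))), fun n => ?_,
    fun ω hω => ?_⟩
  · have h3 : Pe F.p A = Pe F.p (fun ω => A ω ∧ ⌊f (ptr F J ω) / (8 * M) + θ⌋ ≠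
        ⌊g (slam F W ω) / (8 * M) + θ⌋) + Pe F.p B := by
      rw [Pool.K2S.Pe_eq, Pool.K2S.Pe_eq, Pool.K2S.Pe_eq, ← Finset.sum_add_distrib]
      refine Finset.sum_congr rfl fun ω _ => ?_
      rw [hB]
      by_cases h4 : A ω
      · by_cases h5 : ⌊f (ptr F J ω) / (8 * M) + θ⌋ = ⌊g (slam F W ω) / (8 * M) + θ⌋
        · simp [h4, h5]
        · simp [h4, h5]
      · simp [h4]
    linarith
  · rw [abs_le]
    exact ⟨le_max_left _ _, max_le (by linarith) (min_le_left _ _)⟩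
  · rw [hB] at hω
    refine ⟨hω.2, ?_⟩
    have a1 := abs_le.1 (h1 ω hω.1)
    have a2 := abs_le.1 (hE ω hω.1)
    have b1 := Int.floor_le (f (ptr F J ω) / (8 * M) + θ)
    have b2 := Int.lt_floor_add_one (f (ptr F J ω) / (8 * M) + θ)
    beta_reduce
    rw [← hω.2]
    obtain ⟨n, hn⟩ : ∃ n : ℤ, n = ⌊f (ptr F J ω) / (8 * M) + θ⌋ := ⟨_, rfl⟩
    rw [← hn] at b1 b2 ⊢
    have hM8 : 0 < 8 * M := by positivity
    have c1 : 8 * M * (n - θ) ≤ f (ptr F J ω) := by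
      have : (n : ℝ) - θ ≤ f (ptr F J ω) / (8 * M) := by linarith
      rw [le_div_iff₀ hM8] at this
      linarith
    have c2 : f (ptr F J ω) ≤ 8 * M * (n - θ) + 8 * M := by
      have : f (ptr F J ω) / (8 * M) ≤ n - θ + 1 := by linarith
      rw [div_le_iff₀ hM8] at this
      linarith
    obtain ⟨x, hx'⟩ : ∃ x : ℝ, x = eval (bt F ω) (pderiv (some u) (G (z' (slam F W ω)))) :=
      ⟨_, rfl⟩
    rw [← hx'] at a1 a2 ⊢
    obtain ⟨y, hy⟩ : ∃ y : ℝ, y = 8 * M * (n - θ) := ⟨_, rfl⟩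
    rw [← hy] at c1 c2 ⊢
    rw [abs_le]
    rcases le_total E y with d1 | d1
    · rw [min_eq_left d1, max_eq_right (by linarith)]
      constructor <;> linarith [a1.1, a1.2, a2.1, a2.2]
    · rw [min_eq_right d1]
      rcases le_total (-E) y with d2 | d2
      · rw [max_eq_right d2]
        constructor <;> linarith [a1.1, a1.2, a2.1, a2.2]
      · rw [max_eq_left d2]
        constructor <;> linarith [a1.1, a1.2, a2.1, a2.2]

end Pool.FLT
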