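import Pool.Agent.H19.FLT.Fin
import Pool.Agent.H19.FLT.Jco
import Pool.Agent.H19.FLT.Num
import Pool.Agent.H25.M5.H1F
import Pool.Agent.H45.EXA.Nbc
import Pool.Agent.H45.EXA.ExvB
import Pool.Agent.H91.LA.Num
import Pool.Agent.H92.GN.Vis

/-!
# The void of the flat labels

`flat_void`: a class in which the own path of `κ` over the labels of a family is few bits given a
context, the velocity of `u` is alive given the same context, the own heights of `κ` have rows which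
are not full given the exact point of the base, and all the numbers `x_κ - ka x_u` with closed `ka`
are full given the exact point of the base, is empty.
-/

set_option autoImplicit false

namespace Pool.FLT

open Finset Real MvPolynomial
open Pool.Agent.H49.Ent Pool.Agent.H32.Dense Pool.STK Pool.KA Pool.KSAT Pool.K2S Pool.PB Pool.S6C
  Pool.GEN Pool.RCD Pool.LA91 Pool.OWN68
open Pool.UNJ (ceI)
open Pool.BFL (Pb)
open Pool.ALT (wz wz_slam floorw)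

/-- **The time is alive.** -/
theorem time_alive {m J : ℕ} {F : Fam m J} {q : F.Ω → ℝ} (hq : IsLaw q) {W gg : ℕ}
    (h : W + gg ≤ J) {θ : ℝ}
    (he : (J : ℝ) * Real.log 2 - θ ≤ CH q F.T (fun ω => (F.l ω, F.Z ω))) :
    gg * Real.log 2 - θ ≤ CH q (fun ω => ⌊F.t ω * 2 ^ W / (1 / 2 ^ gg)⌋) (slam F W) := by
  have e1 : ∀ ω, ⌊F.t ω * 2 ^ W / (1 / 2 ^ gg)⌋ = (F.T1 (W + gg) ω : ℤ) := by
    intro ω
    have h1 : (2 : ℝ) ^ J = 2 ^ (J - (W + gg)) * (2 ^ W * 2 ^ gg) := by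
      rw [← pow_add, ← pow_add]
      congr 1
      omega
    have h2 : F.t ω * 2 ^ W / (1 / 2 ^ gg) = (F.T ω : ℝ) / ((2 ^ (J - (W + gg)) : ℕ) : ℝ) := by
      show (F.T ω : ℝ) / 2 ^ J * 2 ^ W / (1 / 2 ^ gg) = _
      rw [h1]
      push_cast
      field_simp
    rw [h2, Int.floor_div_natCast, Int.floor_natCast]
    unfold Fam.T1
    push_cast
    rfl
  have h0 := hq.nonneg
  have h1 := Pool.Agent.H25.M5.CH_T1 (F := F) hq (w := W) (w' := W + gg) (by omega) h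
  have h2 := Pool.Agent.H25.M5.dfc_le (F := F) he hq (w := W + gg) h
  have h3 := Pool.Agent.H25.M5.dfc_nonneg (F := F) hq (w := W) (by omega)
  unfold Pool.Agent.H25.M5.dfc at h2 h3
  have h4 : CH q (F.T1 (W + gg)) (slam F W) ≤
      CH q (fun ω => ⌊F.t ω * 2 ^ W / (1 / 2 ^ gg)⌋) (slam F W) := by
    refine CH_mono_left h0 (X' := fun ω => ⌊F.t ω * 2 ^ W / (1 / 2 ^ gg)⌋) fun ω ω' _ _ e => ?_
    have e2 := (Prod.ext_iff.1 e).1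
    simp only [e1] at e2
    exact_mod_cast e2
  push_cast at h2
  linarith

/-- **The void of the flat labels.** -/
theorem flat_void (D Ku : ℕ) {m : ℕ} {S : PCl m} {C₀ : ℝ} (htm : TmC S C₀)
    {I₀ : Finset (Fin m)} {u κ : Fin m} (hu : u ∉ I₀)
    {v a eN uN pN eH ρH pH n pq r N ψ : ℝ} {KT KH Cn : ℕ}
    {U₀ : Type} {Qu : Qt m U₀} {K₀ : ℕ} {e : ℝ}
    {α γ : ∀ J : ℕ, Fam m J → Type} {f : ∀ (J : ℕ) (F : Fam m J), F.Ω → α J F}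
    {y : ∀ (J : ℕ) (F : Fam m J), F.Ω → γ J F}
    (hf : ∀ (J : ℕ) (F : Fam m J), ∃ φ : α J F → PtT F, ∀ ω, ptr F J ω = φ (f J F ω))
    (hy : ∀ (J : ℕ) (F : Fam m J), ∃ φ : γ J F → ℕ, ∀ ω, φ (y J F ω) = F.T ω)
    (Θ : ∀ (J : ℕ) (F : Fam m J), (F.Ω → Prop) → ∀ V C : Type, (PtT F → V) → (LnT F → V) →
      (V → MvPolynomial (Option (Fin m)) ℝ) → (LnT F → C) → Prop)
    (hΘ : ∀ (J : ℕ) (F : Fam m J) (A : F.Ω → Prop) (V C : Type) (z : PtT F → V) (z' : LnT F → V)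
      (G : V → MvPolynomial (Option (Fin m)) ℝ) (cc : LnT F → C), Θ J F A V C z z' G cc →
      LbOK F (insert u I₀) κ D ⌊eN * J⌋₊ J ⌊v * J⌋₊ ⌊uN * J⌋₊ ⌊pN * J⌋₊ A z z' G ∧
      ∀ ω ω', A ω → A ω' → cc (slam F ⌊v * J⌋₊ ω) = cc (slam F ⌊v * J⌋₊ ω') → F.T ω = F.T ω' →
        ∀ i ∈ I₀, |F.x ω i - F.x ω' i| ≤ Cn / 2 ^ ⌊n * J⌋₊ ∧
          |F.d ω i - F.d ω' i| ≤ Cn / 2 ^ ⌊n * J⌋₊)
    (hΘs : ∀ (J : ℕ) (F : Fam m J) (A B : F.Ω → Prop) (V C : Type) (z : PtT F → V)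
      (z' : LnT F → V) (G : V → MvPolynomial (Option (Fin m)) ℝ) (c : LnT F → C), Sub B A →
      Θ J F A V C z z' G c → Θ J F B V C z z' G c)
    (hex : Bas S (fun J F A => ∃ B : F.Ω → Prop, Sub B A ∧ Pe F.p A ≤ KT * Pe F.p B ∧
      ∃ (V C : Type) (z : PtT F → V) (z' : LnT F → V) (G : V → MvPolynomial (Option (Fin m)) ℝ)
      (cc : LnT F → C), Θ J F B V C z z' G cc))
    (huH : Bas S (fun J F A => ∃ B : F.Ω → Prop, Sub B A ∧ Pe F.p A ≤ KH * Pe F.p B ∧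
      ∃ (V₂ : Type) (z₂ : PtT F → V₂) (z₂' : LnT F → V₂)
      (H : V₂ → MvPolynomial (Option (Fin m)) ℝ),
      LbOK F I₀ u Ku ⌊eH * J⌋₊ J ⌊a * J⌋₊ ⌊ρH * J⌋₊ ⌊pH * J⌋₊ B z₂ z₂' H))
    (hu0 : Bas S (fun J F A => ∃ u₀ : F.Ω → U₀, Qu.P K₀ e J F A u₀))
    {lam δ₁ d bF : ℝ} (hlam : 0 < lam)
    (hF1 : Bas S (fun J F A => ∀ (V C : Type) (z : PtT F → V) (z' : LnT F → V)
      (G : V → MvPolynomial (Option (Fin m)) ℝ) (cc : LnT F → C), Θ J F A V C z z' G cc →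
      ∀ u₀ : F.Ω → U₀, Qu.P K₀ e J F A u₀ →
      ∃ (V₁ : Type) (z₁ : F.Ω → V₁), Cl2 (f J F) (vg a J F) A z₁ ∧
        CH (Pool.Agent.H49.Ent.cond F.p A True)
          (fun ω => ((z' (vg v J F ω), (vg v J F ω).2), (cc (vg v J F ω),
            fun j : Fin (D + 3) => ⌊jr F ⌊v * J⌋₊ (2 ^ (pq * J)) κ z' G j (vg v J F ω)⌋)))
          (fun ω => (u₀ ω, (z₁ ω, y J F ω))) ≤ lam / 4 * J))
    (hal : Bas S (fun J F A => ∀ u₀ : F.Ω → U₀, Qu.P K₀ e J F A u₀ →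
      ∀ (V₁ : Type) (z₁ : F.Ω → V₁), Cl2 (f J F) (vg a J F) A z₁ →
        lam * J ≤ CH (Pool.Agent.H49.Ent.cond F.p A True)
          (fun ω => ⌊(2 : ℝ) ^ (N * J) * F.d ω u⌋) (fun ω => (u₀ ω, (z₁ ω, y J F ω)))))
    (hfew : Bas S (fun J F A => ∀ (V C : Type) (z : PtT F → V) (z' : LnT F → V)
      (G : V → MvPolynomial (Option (Fin m)) ℝ) (cc : LnT F → C), Θ J F A V C z z' G cc →
      ∃ (V₁ : Type) (z₁ : PtT F → V₁) (z₁' : LnT F → V₁),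
        (∀ ω, A ω → z₁ (ptr F J ω) = z₁' (slam F ⌊a * J⌋₊ ω)) ∧
        CH (Pool.Agent.H49.Ent.cond F.p A True)
          (fun ω => ⌊(2 : ℝ) ^ (pq * J) * ojet F κ 0 (G (z' (slam F ⌊v * J⌋₊ ω))) ω⌋)
          (fun ω => (z₁' (slam F ⌊a * J⌋₊ ω), (ceI I₀ (fun _ => J) (F.x ω),
            (z' (slam F ⌊v * J⌋₊ ω), F.W ω)))) ≤ δ₁ * J))
    (hrow : Bas S (fun J F A => ∀ (V C : Type) (z : PtT F → V) (z' : LnT F → V)
      (G : V → MvPolynomial (Option (Fin m)) ℝ) (cc : LnT F → C), Θ J F A V C z z' G cc →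
        CH (Pool.Agent.H49.Ent.cond F.p A True)
          (fun ω => ⌊(2 : ℝ) ^ (r * J) * ojet F κ 0 (G (z' (slam F ⌊v * J⌋₊ ω))) ω⌋)
          (fun ω => (⌊(2 : ℝ) ^ (pq * J) * ojet F κ 0 (G (z' (slam F ⌊v * J⌋₊ ω))) ω⌋,
            (ceI I₀ (fun _ => J) (F.x ω), (z' (slam F ⌊v * J⌋₊ ω), F.W ω)))) ≤ d * J))
    (hful : Bas S (fun J F A => ∀ (V : Type) (z : PtT F → V) (z' : LnT F → V) (ka : V → ℝ),
      (∀ ω, A ω → z (ptr F J ω) = z' (slam F ⌊a * J⌋₊ ω)) → (∀ x, |ka x| ≤ 2 ^ (eN * J)) →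
      bF * J ≤ CH (Pool.Agent.H49.Ent.cond F.p A True)
        (fun ω => ⌊(2 : ℝ) ^ ⌊r * J⌋₊ *
          (F.x ω κ - ka (z' (slam F ⌊a * J⌋₊ ω)) * F.x ω u)⌋)
        (fun ω => (ceI I₀ (fun _ => J) (F.x ω), (z' (slam F ⌊a * J⌋₊ ω), F.W ω)))))
    (hv : 0 ≤ v) (hva : v ≤ a) (ha : a ≤ 1) (hψ : 0 < ψ)
    (hvψ : v + ψ ≤ 1) (heN : 0 ≤ eN) (huN0 : 0 ≤ uN) (heH : 0 ≤ eH) (hρH0 : 0 ≤ ρH)
    (hpH : 0 ≤ pH) (hr : 0 ≤ r) (huN : uN < 1) (hρH : ρH ≤ 1)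
    (c1 : uN < n) (c2 : ρH < n) (c3 : eN + D * ψ + pq < n) (c4 : eH + pH < n)
    (c5 : eH + ρH + pH < n + a) (c6 : pH - a ≤ N) (c8 : eH + pH < 1) (c9 : r + eN < 1)
    (c10 : r + eN + uN < 1 + pH) (c11 : r + (D * D : ℕ) * (N - pH + a) + v < pq + a)
    (hlt : δ₁ + d < bF) : ¬ S.Ne := by
  classical
  obtain ⟨C₁, hC₁, HF⟩ := flat_fin m D Ku
  obtain ⟨C₂, hC₂, HJ⟩ := jets_eq D
  obtain ⟨C, hCd⟩ : ∃ C, C = C₁ + C₂ := ⟨_, rfl⟩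
  have hC : 1 ≤ C := by rw [hCd]; linarith
  have hC₁C : C₁ ≤ C := by rw [hCd]; linarith
  have hC₂C : C₂ ≤ C := by rw [hCd]; linarith
  have hl2 : 0 < Real.log 2 := Real.log_pos one_lt_two
  obtain ⟨J₁, HN⟩ := flat_num m D hC (Cn := Cn) (Nat.cast_nonneg _) hv hva hψ.le hvψ heN huN0 heH
    hρH0 hpH hr huN hρH c1 c2 c3 c4 c5 c6 c8 c9 c10 c11
  obtain ⟨J₂, hJ₂⟩ := exists_nat_ge ((Real.log 2 + Real.log (3 * D + 1) + 1) /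
    (ψ * Real.log 2 / 2))
  obtain ⟨J₃, hJ₃⟩ := exists_nat_ge ((Real.log (3 * D + 1) + 1) / (lam / 2))
  obtain ⟨J₄, hJ₄⟩ := exists_nat_ge ((Real.log 7 + 1) / (bF - (δ₁ + d)))
  have htime := Pool.GRW.tmc_bas htm (show 0 < ψ * Real.log 2 / 2 by positivity)
  obtain ⟨Cc, hCc⟩ : ∃ Cc : ℝ, Cc = 16 * ((KT + 1) * (KH + 1)) := ⟨_, rfl⟩
  have hKT : (0 : ℝ) ≤ KT := Nat.cast_nonneg KT
  have hKH : (0 : ℝ) ≤ KH := Nat.cast_nonneg KH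
  have hCc0 : 0 < Cc := by rw [hCc]; positivity
  have hall := Pool.GRW.bas_part (((hex.and huH).and (hu0.and hF1)).and
    ((hal.and hfew).and ((hrow.and hful).and htime))) hCc0
  obtain ⟨τ, hτ, J₀, hall⟩ := hall
  intro hne
  obtain ⟨J, hJ, F, A, hA⟩ := hne τ hτ (J₀ + J₁ + J₂ + J₃ + J₄)
  have hall := hall J (by omega) F A hA
  have hJ0 : (0 : ℝ) ≤ J := Nat.cast_nonneg J
  have j2 : Real.log 2 + Real.log (3 * D + 1) + 1 ≤ ψ * Real.log 2 / 2 * J := by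
    have e1 : (J₂ : ℝ) ≤ J := by exact_mod_cast (by omega : J₂ ≤ J)
    have e2 := hJ₂.trans e1
    rw [div_le_iff₀ (by positivity)] at e2
    linarith
  have j3 : Real.log (3 * D + 1) + 1 ≤ lam / 2 * J := by
    have e1 : (J₃ : ℝ) ≤ J := by exact_mod_cast (by omega : J₃ ≤ J)
    have e2 := hJ₃.trans e1
    rw [div_le_iff₀ (by positivity)] at e2
    linarith
  have j4 : Real.log 7 + 1 ≤ (bF - (δ₁ + d)) * J := by
    have e1 : (J₄ : ℝ) ≤ J := by exact_mod_cast (by omega : J₄ ≤ J)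
    have e2 := hJ₄.trans e1
    rw [div_le_iff₀ (by linarith)] at e2
    linarith
  obtain ⟨σ, s, δ, η, τ', M, hσ0, hs0, hs1, hδ0, hη0, hτ'0, hτ', hsc, hδC, hηC, hWg, n1, n2, n3,
    n4, n5, n6, n7, n8, n9, n10, n11, n12, n13⟩ := HN J (by omega)
  have hSA : Sub A A := fun ω h => h
  have hA0 : 0 < Pe F.p A := (htm τ J F A hτ hA).1
  have hCc1 : (1 : ℝ) ≤ Cc := by
    rw [hCc]
    nlinarith
  -- the labels
  obtain ⟨⟨⟨⟨B₁, b1, b2, V, C', z, z', G, cc, hT₁⟩, -⟩, -, -⟩, -, -⟩ := hall A hSA (by nlinarith)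
  have m1 : Pe F.p A ≤ (KT + 1) * Pe F.p B₁ := by
    have := Pe_nonneg F.isLaw B₁
    linarith
  have m1' : Pe F.p A ≤ Cc * Pe F.p B₁ := by
    have := Pe_nonneg F.isLaw B₁
    refine m1.trans (mul_le_mul_of_nonneg_right ?_ this)
    rw [hCc]
    nlinarith
  obtain ⟨⟨⟨-, ⟨B₂, b3, b4, V₂, z₂, z₂', H, hH⟩⟩, -, -⟩, -, -⟩ := hall B₁ b1 m1'
  have hB₂A : Sub B₂ A := fun ω h => b1 ω (b3 ω h)
  have m2 : Pe F.p A ≤ (KT + 1) * (KH + 1) * Pe F.p B₂ := by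
    have h1 := Pe_nonneg F.isLaw B₂
    have h2 : Pe F.p B₁ ≤ (KH + 1) * Pe F.p B₂ := by linarith
    calc Pe F.p A ≤ (KT + 1) * Pe F.p B₁ := m1
      _ ≤ (KT + 1) * ((KH + 1) * Pe F.p B₂) := mul_le_mul_of_nonneg_left h2 (by positivity)
      _ = (KT + 1) * (KH + 1) * Pe F.p B₂ := by ring
  have hB₂0 : 0 < Pe F.p B₂ := by
    by_contra hneg
    push Not at hneg
    have := mul_nonpos_of_nonneg_of_nonpos
      (by positivity : (0 : ℝ) ≤ (KT + 1) * (KH + 1)) hneg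
    linarith
  have hpart : ∀ R : F.Ω → Prop, Sub R B₂ → Pe F.p B₂ ≤ 16 * Pe F.p R →
      Sub R A ∧ Pe F.p A ≤ Cc * Pe F.p R := by
    intro R hR hRP
    refine ⟨fun ω h => hB₂A ω (hR ω h), ?_⟩
    calc Pe F.p A ≤ (KT + 1) * (KH + 1) * Pe F.p B₂ := m2
      _ ≤ (KT + 1) * (KH + 1) * (16 * Pe F.p R) := mul_le_mul_of_nonneg_left hRP (by positivity)
      _ = Cc * Pe F.p R := by rw [hCc]; ring
  have hΘ₂ := hΘs J F B₁ B₂ V C' z z' G cc b3 hT₁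
  obtain ⟨hlb, -⟩ := hΘ J F B₂ V C' z z' G cc hΘ₂
  have hWJ : ⌊v * J⌋₊ ≤ J := by omega
  obtain ⟨f1, f2⟩ := floorw hva ha J
  -- the steps for one event
  obtain ⟨B, hB, hBP, k, k', ka, hka, hkc, hrw⟩ := HF C hC₁C F B₂ I₀ u κ ⌊v * J⌋₊ ⌊a * J⌋₊
    ⌊eN * J⌋₊ ⌊pN * J⌋₊ ⌊pH * J⌋₊ ⌊eH * J⌋₊ ⌊uN * J⌋₊ ⌊ρH * J⌋₊ z z' G z₂ z₂' H σ s δ η τ'
    (lam * J) (lam / 4 * J) M (2 ^ ⌊r * J⌋₊) (2 ^ (r * J)) hB₂0 hu hWJ hlb hH hσ0 hs0 hs1 hδ0 hη0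
    hτ'0 (fun R hR hRP => by
      obtain ⟨r1, r2⟩ := hpart R hR (by
        have := Pe_nonneg F.isLaw R
        linarith)
      obtain ⟨-, -, -, hR0, ht⟩ := hall R r1 r2
      have h1 := time_alive (isLaw_cond F.isLaw hR0) hWg ht
      rw [hτ']
      refine lt_of_lt_of_le ?_ h1
      have h2 : ψ * J - 1 ≤ (⌊ψ * J⌋₊ : ℝ) := by
        have := Nat.lt_floor_add_one (ψ * J)
        linarith
      have h3 := mul_le_mul_of_nonneg_right h2 hl2.le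
      nlinarith)
    (fun B hB hBP => by
      obtain ⟨r1, r2⟩ := hpart B hB (by
        have := Pe_nonneg F.isLaw B
        linarith)
      obtain ⟨⟨-, ⟨u₀, hu₀⟩, hF1'⟩, -⟩ := hall B r1 r2
      have hΘB := hΘs J F B₂ B V C' z z' G cc hB hΘ₂
      obtain ⟨V₁, z₁, hz₁, hfw⟩ := hF1' V C' z z' G cc hΘB u₀ hu₀
      obtain ⟨hlbB, hnear⟩ := hΘ J F B V C' z z' G cc hΘB
      have hqB := isLaw_cond F.isLaw (A := B) (by
        by_contra hneg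
        push Not at hneg
        have := mul_nonpos_of_nonneg_of_nonpos hCc0.le hneg
        linarith)
      have hz₂ : Cl2 (f J F) (vg a J F) B (fun ω => (z₁ ω, z₂' (slam F ⌊a * J⌋₊ ω))) := by
        refine hz₁.join ⟨?_, ⟨z₂', fun ω _ => rfl⟩⟩
        obtain ⟨φ, hφ⟩ := hf J F
        exact ⟨fun x => z₂ (φ x), fun ω hω => by
          show z₂' (slam F ⌊a * J⌋₊ ω) = z₂ (φ (f J F ω))
          rw [← hφ ω]
          exact (hH.cls ω (hB ω hω)).symm⟩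
      refine ⟨_, _, fun ω => (u₀ ω, ((z₁ ω, z₂' (slam F ⌊a * J⌋₊ ω)), y J F ω)), fun ω =>
        ((z' (vg v J F ω), (vg v J F ω).2), (cc (vg v J F ω),
            fun j : Fin (D + 3) => ⌊jr F ⌊v * J⌋₊ (2 ^ (pq * J)) κ z' G j (vg v J F ω)⌋)),
        fun ω ω' hω hω' hCx hjc => ?_, ?_, fun R hR hRP => ?_⟩
      · simp only [Prod.mk.injEq] at hCx hjc
        obtain ⟨-, ⟨-, g2⟩, g3⟩ := hCx
        obtain ⟨⟨g4, -⟩, g5, g6⟩ := hjc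
        obtain ⟨φ, hφ⟩ := hy J F
        have gT : F.T ω = F.T ω' := by
          rw [← hφ ω, ← hφ ω', g3]
        have gn := hnear ω ω' hω hω' g5 gT
        refine ⟨gT, g4, g2, fun i hi => ⟨((gn i hi).1).trans hηC, ((gn i hi).2).trans hηC⟩,
          fun n' hn hn' => ?_⟩
        have h1 := HJ F κ z' G (σ := 2 ^ (pq * J)) (ω := ω) (ω' := ω') hWJ
          (Real.rpow_pos_of_pos (by norm_num) _) hlb.deg gT g4 (fun j => congrFun g6 j) n' hn hn'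
        refine h1.trans ?_
        rw [← hδC]
        exact div_le_div_of_nonneg_right hC₂C (Real.rpow_pos_of_pos (by norm_num) _).le
      · refine le_trans (CH_mono_cond hqB.nonneg fun ω ω' _ _ e => ?_) hfw
        simp only [Prod.mk.injEq] at e ⊢
        exact ⟨e.1, e.2.1.1, e.2.2⟩
      · have hRB₂ : Sub R B₂ := fun ω h => hB ω (hR ω h)
        obtain ⟨r3, r4⟩ := hpart R hRB₂ (by
          have := Pe_nonneg F.isLaw R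
          linarith)
        obtain ⟨-, ⟨hal', -⟩, -⟩ := hall R r3 r4
        have h1 := hal' u₀ (Qu.sub hR hu₀) _ _ (hz₂.sub hR)
        have h2 : (fun ω => ⌊F.d ω u / (2 * (s * σ * 2 ^ ⌊v * J⌋₊))⌋) =
            fun ω => ⌊(2 : ℝ) ^ (N * J) * F.d ω u⌋ := by
          funext ω
          rw [hsc, Real.rpow_neg (by norm_num)]
          congr 1
          rw [div_inv_eq_mul]
          ring
        rw [h2]
        exact h1)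
    (by
      have e1 : lam / 4 * J / (1 / 2) = lam / 2 * J := by ring
      rw [e1]
      linarith)
    n1 n2 n3 n4 n5 n6 n7 n8 n9 n10 n11 (by positivity) n12 n13
  -- the contradiction
  obtain ⟨r1, r2⟩ := hpart B hB (by
    have := Pe_nonneg F.isLaw B
    linarith)
  obtain ⟨-, ⟨-, hfew'⟩, ⟨hrow', hful'⟩, hB0, -⟩ := hall B r1 r2
  have hΘB := hΘs J F B₂ B V C' z z' G cc hB hΘ₂
  obtain ⟨V₁, z₁, z₁', hz₁, hfw⟩ := hfew' V C' z z' G cc hΘB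
  have hrw' := hrow' V C' z z' G cc hΘB
  have hqB := isLaw_cond F.isLaw hB0
  have g1 := hful' (V × (ℤ × (V₂ × V₁))) (fun y => (z y, (k y, (z₂ y, z₁ y))))
    (fun x => (wz z' ⌊v * J⌋₊ ⌊a * J⌋₊ x, (wz k' ⌊v * J⌋₊ ⌊a * J⌋₊ x, (z₂' x, z₁' x))))
    (fun x => ka x.2.1) (fun ω hω => by
      refine Prod.ext ?_ (Prod.ext ?_ (Prod.ext (hH.cls ω (hB ω hω)) (hz₁ ω hω)))
      · show z (ptr F J ω) = wz z' ⌊v * J⌋₊ ⌊a * J⌋₊ (slam F ⌊a * J⌋₊ ω)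
        rw [wz_slam z' f1 f2]
        exact hlb.cls ω (hB ω hω)
      · show k (ptr F J ω) = wz k' ⌊v * J⌋₊ ⌊a * J⌋₊ (slam F ⌊a * J⌋₊ ω)
        rw [wz_slam k' f1 f2]
        exact hkc ω hω) (fun x => (hka _).trans (p2_le (mul_nonneg heN hJ0)))
  have e1 : (fun ω => ⌊(2 : ℝ) ^ ⌊r * J⌋₊ * (F.x ω κ -
      ka (wz k' ⌊v * J⌋₊ ⌊a * J⌋₊ (slam F ⌊a * J⌋₊ ω)) * F.x ω u)⌋) =
      fun ω => ⌊(2 : ℝ) ^ ⌊r * J⌋₊ * (F.x ω κ - ka (k' (slam F ⌊v * J⌋₊ ω)) * F.x ω u)⌋ := by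
    funext ω
    rw [wz_slam k' f1 f2]
  beta_reduce at g1
  rw [e1] at g1
  -- the row with the finer condition
  obtain ⟨X, hX⟩ : ∃ X : F.Ω → ℤ, X = fun ω => ⌊(2 : ℝ) ^ ⌊r * J⌋₊ *
    (F.x ω κ - ka (k' (slam F ⌊v * J⌋₊ ω)) * F.x ω u)⌋ := ⟨_, rfl⟩
  obtain ⟨Y₁, hY₁⟩ : ∃ Y₁ : F.Ω → ℤ, Y₁ = fun ω => ⌊(2 : ℝ) ^ (r * J) *
    ojet F κ 0 (G (z' (slam F ⌊v * J⌋₊ ω))) ω⌋ := ⟨_, rfl⟩
  obtain ⟨Y₂, hY₂⟩ : ∃ Y₂ : F.Ω → ℤ, Y₂ = fun ω => ⌊(2 : ℝ) ^ (pq * J) *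
    ojet F κ 0 (G (z' (slam F ⌊v * J⌋₊ ω))) ω⌋ := ⟨_, rfl⟩
  have g2 := hrw V₁ (fun ω => z₁' (slam F ⌊a * J⌋₊ ω))
  rw [← hX] at g1 g2
  rw [← hY₁] at g2 hrw'
  rw [← hY₂] at hfw
  obtain ⟨Z, hZ⟩ : ∃ Z : F.Ω → V₁ × ((Fin m → ℤ) × ((V × (ℤ × V₂)) × (ℕ × F.ζ))), Z = fun ω =>
    (z₁' (slam F ⌊a * J⌋₊ ω), (ceI I₀ (fun _ => J) (F.x ω), ((z' (slam F ⌊v * J⌋₊ ω),
      (k' (slam F ⌊v * J⌋₊ ω), z₂' (slam F ⌊a * J⌋₊ ω))), F.W ω))) := ⟨_, rfl⟩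
  rw [← hZ] at g2
  have g3 : bF * J ≤ CH (Pool.Agent.H49.Ent.cond F.p B True) X Z := by
    refine g1.trans (CH_mono_cond hqB.nonneg fun ω ω' _ _ e => ?_)
    rw [hZ]
    simp only [Prod.mk.injEq] at e ⊢
    obtain ⟨e2, ⟨e3, e4, e5, e1⟩, e6⟩ := e
    rw [wz_slam z' f1 f2, wz_slam z' f1 f2] at e3
    rw [wz_slam k' f1 f2, wz_slam k' f1 f2] at e4
    exact ⟨e1, e2, ⟨e3, e4, e5⟩, e6⟩
  have g4 := CH_le_add hqB.nonneg Y₁ Y₂ Z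
  have g5 : CH (Pool.Agent.H49.Ent.cond F.p B True) Y₂ Z ≤ δ₁ * J := by
    refine le_trans (CH_mono_cond hqB.nonneg fun ω ω' _ _ e => ?_) hfw
    rw [hZ] at e
    simp only [Prod.mk.injEq] at e ⊢
    obtain ⟨e1, e2, ⟨e3, e4, e5⟩, e6⟩ := e
    exact ⟨e1, e2, e3, e6⟩
  have g6 : CH (Pool.Agent.H49.Ent.cond F.p B True) Y₁ (fun ω => (Y₂ ω, Z ω)) ≤ d * J := by
    refine le_trans (CH_mono_cond hqB.nonneg fun ω ω' _ _ e => ?_) hrw'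
    rw [hZ, hY₂] at e
    simp only [Prod.mk.injEq] at e ⊢
    obtain ⟨e0, e1, e2, ⟨e3, e4, e5⟩, e6⟩ := e
    exact ⟨e0, e2, e3, e6⟩
  have g7 : (bF - (δ₁ + d)) * J = bF * J - (δ₁ * J + d * J) := by ring
  linarith only [g2, g3, g4, g5, g6, g7, j4]

end Pool.FLT
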